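import Pool.Agent.Helper8.H.Commute
import Pool.Agent.Helper84.Iso4

/-!
Ideals acting trivially, and the parts of the principal triple.
-/

open Module LieAlgebra LieModule

namespace Pool.Agent.Helper8

open Pool.Agent.Helper84 (mat mat_sum mat_f two_f Iso.FF)

section str

variable {L : Type*} [LieRing L] [LieAlgebra ℂ L] {p : Principal L} {V : Type*} [AddCommGroup V]
  [Module ℂ V] [LieRingModule L V] [LieModule ℂ L V] {ω : V →ₗ[ℂ] V →ₗ[ℂ] ℂ}

lemma Adapted.f_four (A : Adapted p ω 4 up4 wt4 g4) (j : Fin 4) :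
    ⁅p.f, A.b j⁆ = if j = 3 then 0 else A.b (j + 1) := by
  rw [mat_sum A.b p.f j, mat_f p A.b A.e_b A.h_b]
  fin_cases j <;> simp [Iso.FF, Fin.sum_univ_four]

lemma Adapted.f_two (A : Adapted p ω 2 up2 wt2 g2) :
    ⁅p.f, A.b 0⁆ = A.b 1 := by
  rw [mat_sum A.b p.f 0, two_f p A.b A.e_b A.h_b]
  simp [Fin.sum_univ_two]

/-- the string of an adapted basis -/
noncomputable def Adapted.str4 (A : Adapted p ω 4 up4 wt4 g4) : Str p.h p.f V 3 where
  b := A.b
  h_b j := by
    rw [A.h_b]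
    congr 1
    fin_cases j <;> simp [wt4] <;> norm_num
  f_b j := by
    rw [A.f_four]
    fin_cases j <;> simp

/-- the string of an adapted basis -/
noncomputable def Adapted.str2 (A : Adapted p ω 2 up2 wt2 g2) : Str p.h p.f V 1 where
  b := A.b
  h_b j := by
    rw [A.h_b]
    congr 1
    fin_cases j <;> simp [wt2]; norm_num
  f_b j := by
    fin_cases j
    exact A.f_two

variable [FiniteDimensional ℂ V] [LieModule.IsIrreducible ℂ L V] (hω : Symp L ω)
include hω

lemma exists_adapted4 (hd : finrank ℂ V = 4) : Nonempty (Adapted p ω 4 up4 wt4 g4) := by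
  obtain ⟨F⟩ := p.frame_dim4 hω hd
  exact ⟨Adapted.of hω F⟩

lemma exists_adapted2 (hd : finrank ℂ V = 2) : Nonempty (Adapted p ω 2 up2 wt2 g2) := by
  obtain ⟨F⟩ := p.frame_dim2 hω hd
  exact ⟨Adapted.of hω F⟩

lemma exists_str (hd : finrank ℂ V = 2 ∨ finrank ℂ V = 4) :
    ∃ m, 0 < m ∧ Nonempty (Str p.h p.f V m) := by
  rcases hd with hd | hd
  · obtain ⟨A⟩ := exists_adapted2 (p := p) hω hd
    exact ⟨1, by norm_num, ⟨A.str2⟩⟩
  · obtain ⟨A⟩ := exists_adapted4 (p := p) hω hd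
    exact ⟨3, by norm_num, ⟨A.str4⟩⟩

end str

section split

variable {L : Type*} [LieRing L] [LieAlgebra ℂ L] [FiniteDimensional ℂ L] [IsKilling ℂ L]

/-- acting trivially -/
def Triv (V : Type*) [AddCommGroup V] [LieRingModule L V] (x : L) : Prop := ∀ v : V, ⁅x, v⁆ = 0

variable (L) in
/-- the kernel of a module and its complement -/
theorem exists_split (V : Type*) [AddCommGroup V] [Module ℂ V] [LieRingModule L V]
    [LieModule ℂ L V] : ∃ I J : Submodule ℂ L, Split I J ∧ ∀ x : L, x ∈ I ↔ Triv V x := by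
  obtain ⟨N, hN⟩ : ∃ N : LieIdeal ℂ L, N = LieModule.ker ℂ L V := ⟨_, rfl⟩
  have h1 := LieIdeal.isCompl_killingCompl N
  have hbot : ∀ x, x ∈ N → x ∈ N.killingCompl → x = 0 := by
    intro x hx hx'
    have h2 : x ∈ N ⊓ N.killingCompl := ⟨hx, hx'⟩
    rw [disjoint_iff.mp h1.disjoint] at h2
    exact (LieSubmodule.mem_bot x).mp h2
  refine ⟨N.toSubmodule, (N.killingCompl).toSubmodule, ⟨?_, ?_, ?_, ?_, ?_⟩, ?_⟩
  · intro x hx y hy
    refine hbot _ ?_ ?_
    · exact lie_mem_left ℂ L N x y hx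
    · exact LieSubmodule.lie_mem _ hy
  · intro x y hy
    exact LieSubmodule.lie_mem _ hy
  · intro x y hy
    exact LieSubmodule.lie_mem _ hy
  · intro x
    have h2 : x ∈ N ⊔ N.killingCompl := by rw [h1.sup_eq_top]; trivial
    rw [LieSubmodule.mem_sup] at h2
    obtain ⟨a, ha, b, hb, hab⟩ := h2
    exact ⟨a, ha, b, hb, hab.symm⟩
  · exact fun x hx hx' => hbot x hx hx'
  · intro x
    show x ∈ N ↔ _
    rw [hN, LieModule.mem_ker]
    rfl

variable {p : Principal L}
  {V : Type*} [AddCommGroup V] [Module ℂ V] [LieRingModule L V] [LieModule ℂ L V]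
  {W : Type*} [AddCommGroup W] [Module ℂ W] [LieRingModule L W] [LieModule ℂ L W]
  {ω : V →ₗ[ℂ] V →ₗ[ℂ] ℂ} {ω' : W →ₗ[ℂ] W →ₗ[ℂ] ℂ}

/-- for modules which are strings of the principal triple an inclusion of kernels is an equality -/
theorem ker_symm (hω : Symp L ω) {m m' : ℕ} (hm : 0 < m) (hm' : 0 < m') (S : Str p.h p.f V m)
    (S' : Str p.h p.f W m') (h : ∀ x : L, Triv V x → Triv W x) (x : L) (hx : Triv W x) :
    Triv V x := by
  obtain ⟨I, J, s, hI⟩ := exists_split L W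
  rcases s.cases hm S hω with h1 | h1
  · exact h1 x ((hI x).mpr hx)
  · exfalso
    -- the complement of the kernel acts trivially
    have h2 : ∀ y : L, Triv W y := by
      intro y
      obtain ⟨a, ha, b, hb, rfl⟩ := s.sup y
      have h3 : Triv W b := h b (h1 b hb)
      have h4 : Triv W a := (hI a).mp ha
      intro w
      rw [add_lie, h3 w, h4 w, add_zero]
    have h5 := S'.h_b 0
    rw [h2 p.h] at h5
    have h6 : ((m' : ℂ) - 2 * ((0 : Fin (m' + 1)) : ℕ)) = m' := by simp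
    rw [h6] at h5
    rcases smul_eq_zero.mp h5.symm with h7 | h7
    · exact hm'.ne' (by exact_mod_cast h7)
    · exact S'.b.ne_zero 0 h7

omit [FiniteDimensional ℂ L] [IsKilling ℂ L] in
lemma Parts.h1_act {I J : Submodule ℂ L} (q : Parts p I J) (w : W) (h : ⁅q.h0, w⁆ = 0) :
    ⁅q.h1, w⁆ = ⁅p.h, w⁆ := by
  rw [q.hh, add_lie, h, zero_add]

omit [FiniteDimensional ℂ L] [IsKilling ℂ L] in
lemma Parts.f1_act {I J : Submodule ℂ L} (q : Parts p I J) (w : W) (h : ⁅q.f0, w⁆ = 0) :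
    ⁅q.f1, w⁆ = ⁅p.f, w⁆ := by
  rw [q.hf, add_lie, h, zero_add]

omit [FiniteDimensional ℂ L] [IsKilling ℂ L] in
/-- the second parts of the triple act as the triple on modules where the first ideal is trivial,
and trivially on the others -/
theorem Parts.act_or {I J : Submodule ℂ L} (s : Split I J) (q : Parts p I J) (hω' : Symp L ω')
    {m : ℕ} (hm : 0 < m) (S : Str p.h p.f W m) :
    (Triv W q.h1 ∧ Triv W q.f1) ∨ ((∀ x ∈ I, Triv W x) ∧
      (∀ w : W, ⁅q.h1, w⁆ = ⁅p.h, w⁆) ∧ ∀ w : W, ⁅q.f1, w⁆ = ⁅p.f, w⁆) := by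
  rcases s.cases hm S hω' with h1 | h1
  · right
    refine ⟨h1, fun w => ?_, fun w => ?_⟩
    · rw [q.hh, add_lie, h1 _ q.h0I, zero_add]
    · rw [q.hf, add_lie, h1 _ q.f0I, zero_add]
  · left
    exact ⟨h1 _ q.h1J, h1 _ q.f1J⟩

end split

end Pool.Agent.Helper8
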