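import Pool.Agent.Helper8.H.Types
import Pool.Agent.Helper7.J9

/-!
Bounds for the dimension of the algebra of endomorphisms.
-/

set_option linter.unusedSectionVars false

namespace Pool.Agent.Helper8

open Module NumberField
open Pool.Agent.Helper7
open Pool.Agent.GPC

lemma toRat_smul_eq {A : AbVar} (x : ℚ) (f : Module.End ℂ A.H1) (v : A.H1) :
    (x • f) v = (x : ℂ) • f v := by
  rw [LinearMap.smul_apply]
  exact (Rat.cast_smul_eq_qsmul ℂ x (f v)).symm

theorem endo_cases (A : AbVar) (hg : 0 < A.g) (K : Type) [Field K] [NumberField K]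
    (ρ : K →+* Module.End ℂ A.H1) (hρ : ∀ x, IsDRB (pData A) (pData A) (ρ x)) (d : ℕ)
    (h : A.EndDimLe d) : finrank ℚ K ≤ d ∧
    (d ≤ finrank ℚ K → ∀ g, IsDRB (pData A) (pData A) g → ∃ x : K, ∀ v, g v = ρ x v) ∧
    (d ≤ 2 * finrank ℚ K → ∃ g0 : Module.End ℂ A.H1,
      ∀ g, IsDRB (pData A) (pData A) g → ∃ x y : K, ∀ v, g v = ρ x v + g0 (ρ y v)) := by
  classical
  obtain ⟨e, he, hs⟩ := h
  obtain ⟨e', he'⟩ : ∃ e' : Fin d → Module.End ℂ A.H1, ∀ l v, e' l v = e l v :=
    ⟨fun l => IsLinearMap.mk' _ (he l).linear, fun l v => rfl⟩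
  obtain ⟨N, hN⟩ : ∃ N : Submodule ℚ (Module.End ℂ A.H1), N = Submodule.span ℚ (Set.range e') :=
    ⟨_, rfl⟩
  have hfin : FiniteDimensional ℚ N := by
    rw [hN]; exact FiniteDimensional.span_of_finite ℚ (Set.finite_range e')
  have hNd : finrank ℚ N ≤ d := by
    rw [hN]
    have := finrank_range_le_card (R := ℚ) e'
    rw [Fintype.card_fin] at this
    exact this
  have hmem : ∀ g : Module.End ℂ A.H1, IsDRB (pData A) (pData A) g → g ∈ N := by
    intro g hg
    obtain ⟨x, hx⟩ := hs g (isEnd_of_isDRB A g hg)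
    have h1 : g = ∑ l, x l • e' l := by
      apply LinearMap.ext
      intro v
      rw [hx, LinearMap.sum_apply]
      refine Finset.sum_congr rfl fun l _ => ?_
      rw [toRat_smul_eq, he']
    rw [h1, hN]
    exact Submodule.sum_mem _ fun l _ => Submodule.smul_mem _ _
      (Submodule.subset_span (Set.mem_range_self l))
  have hnt : Nontrivial (Module.End ℂ A.H1) := by
    have : Nonempty (Fin A.g ⊕ Fin A.g) := ⟨.inl ⟨0, hg⟩⟩
    infer_instance
  have hinj : Function.Injective ρ := ρ.injective
  let φ1 : K →ₗ[ℚ] Module.End ℂ A.H1 := (RingHom.toRatAlgHom ρ).toLinearMap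
  have hφ1 : ∀ x, φ1 x = ρ x := fun x => rfl
  have hinj1 : Function.Injective φ1 := hinj
  have hr1 : LinearMap.range φ1 ≤ N := by
    rintro _ ⟨x, rfl⟩
    exact hmem _ (hρ x)
  have hf1 : finrank ℚ (LinearMap.range φ1) = finrank ℚ K := LinearMap.finrank_range_of_inj hinj1
  refine ⟨?_, fun hd g hg => ?_, fun hd => ?_⟩
  · rw [← hf1]
    exact (Submodule.finrank_mono hr1).trans hNd
  · have h1 : LinearMap.range φ1 = N := Submodule.eq_of_le_of_finrank_le hr1 (by
      rw [hf1]; exact hNd.trans hd)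
    have h2 := hmem g hg
    rw [← h1] at h2
    obtain ⟨x, hx⟩ := h2
    exact ⟨x, fun v => by rw [← hx]; rfl⟩
  · by_cases hall : ∀ g, IsDRB (pData A) (pData A) g → g ∈ LinearMap.range φ1
    · refine ⟨0, fun g hg => ?_⟩
      obtain ⟨x, hx⟩ := hall g hg
      refine ⟨x, 0, fun v => ?_⟩
      rw [← hx, LinearMap.zero_apply, add_zero]; rfl
    · push Not at hall
      obtain ⟨g0, hg0, hg0'⟩ := hall
      refine ⟨g0, fun g hg => ?_⟩
      let φ2 : K × K →ₗ[ℚ] Module.End ℂ A.H1 :=
        { toFun := fun z => ρ z.1 + g0 * ρ z.2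
          map_add' := fun a b => by
            rw [Prod.fst_add, Prod.snd_add, map_add, map_add, mul_add]; abel
          map_smul' := fun c a => by
            have h1 : ∀ x : K, ρ (c • x) = c • ρ x := fun x => φ1.map_smul c x
            rw [Prod.smul_fst, Prod.smul_snd, h1, h1, RingHom.id_apply, smul_add,
              mul_smul_comm] }
      have hφ2 : ∀ z, φ2 z = ρ z.1 + g0 * ρ z.2 := fun z => rfl
      have hinj2 : Function.Injective φ2 := by
        rw [← LinearMap.ker_eq_bot, LinearMap.ker_eq_bot']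
        rintro ⟨x, y⟩ hxy
        rw [hφ2] at hxy
        by_cases hy : y = 0
        · subst hy
          rw [map_zero, mul_zero, add_zero] at hxy
          have h3 : x = 0 := by
            apply hinj
            rw [map_zero]; exact hxy
          rw [h3]; rfl
        · exfalso
          apply hg0'
          refine ⟨-(x * y⁻¹), ?_⟩
          have h3 : g0 * ρ y = - ρ x := by
            rw [eq_neg_iff_add_eq_zero, add_comm]; exact hxy
          have h4 : g0 = g0 * ρ y * ρ y⁻¹ := by
            rw [mul_assoc, ← map_mul, mul_inv_cancel₀ hy, map_one, mul_one]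
          rw [h4, h3, hφ1, map_neg, map_mul]
          exact (neg_mul (ρ x) (ρ y⁻¹)).symm
      have hr2 : LinearMap.range φ2 ≤ N := by
        rintro _ ⟨z, rfl⟩
        apply hmem
        have h5 : IsDRB (pData A) (pData A) (g0 * ρ z.2) := by
          refine isDRB_of_isEnd A _ ?_
          have a1 := isEnd_of_isDRB A _ hg0
          have a2 := isEnd_of_isDRB A _ (hρ z.2)
          exact ⟨LinearMap.isLinear _, fun v hv => a1.betti _ (a2.betti v hv),
            fun v hv => a1.deRham _ (a2.deRham v hv), fun v hv => a1.hodge _ (a2.hodge v hv)⟩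
        refine ⟨fun v hv => Submodule.add_mem _ ((hρ z.1).rat v hv) (h5.rat v hv),
          fun i j => ?_⟩
        exact ((hρ z.1).alg i j).add (h5.alg i j)
      have hf2 : finrank ℚ (LinearMap.range φ2) = 2 * finrank ℚ K := by
        rw [LinearMap.finrank_range_of_inj hinj2, Module.finrank_prod]; ring
      have h1 : LinearMap.range φ2 = N := Submodule.eq_of_le_of_finrank_le hr2 (by
        rw [hf2]; exact hNd.trans hd)
      have h2 := hmem g hg
      rw [← h1] at h2
      obtain ⟨z, hz⟩ := h2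
      exact ⟨z.1, z.2, fun v => by rw [← hz]; rfl⟩

end Pool.Agent.Helper8
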