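import Pool.Agent.Helper84.HCond

/-!
The condition on the linked places, with one more alternative.
-/

namespace Pool.Agent.Helper84

open Module NumberField LieAlgebra

attribute [local instance 100] LieRing.ofAssociativeRing

open Pool.Agent.Helper7
open Pool.Agent.GPC (Emb IsOdd IsOddModule translate)
open Pool.Agent.Helper8 (Symp ML2 Inv2 exists_linear Principal Triv ker_symm exists_str IsPl NoPair
  KerLe)

set_option linter.unusedSectionVars false

section family

variable {I : Type} [Fintype I] [DecidableEq I] (n : I → ℕ)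
  {κ : I → Type} [∀ i, Fintype (κ i)] [∀ i, DecidableEq (κ i)] {ϖ : ℂ}
  (P : ∀ i, PData (κ i) ϖ)
  {K : I → Type} [∀ i, Field (K i)] [∀ i, NumberField (K i)]
  (F : ∀ i, FS (P i) (K i))
  {k : ℕ} (α : MultilinearMap ℂ (fun _ : Fin (2 * k) => HW κ n) ℂ)

variable (hϖ : ϖ ≠ 0)
  (hB : ∀ v : Fin (2 * k) → HW κ n, (∀ r, IsRatP n P (v r)) → ∃ q : ℚ, α v = ϖ ^ k * q)
  (hA : ∀ v : Fin (2 * k) → HW κ n, (∀ r i m j, IsAlgebraic ℚ (v r i m j)) →
      IsAlgebraic ℚ (α v))

include hϖ hB hA in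
/-- the condition on the places linked to a place of dimension four -/
theorem hA_of2 (hk : IsKilling ℂ (LL n P F α)) (p : Principal (LL n P F α))
    (hE : ∀ i, (F i).isLeft → (F i).rk = 4 → n i ≠ 0 → EndK P F i)
    (hH : ∀ i j, i ≠ j → (F i).isLeft → (F j).isLeft → n i ≠ 0 → n j ≠ 0 →
      ∀ g, IsDRB (P i) (P j) g → g = 0)
    (hC : ∀ i, (F i).isLeft → (F i).rk = 4 → n i ≠ 0 → n i ≤ 2 ∧
      ∀ j, (F j).isLeft → (F j).rk = 2 → n j ≠ 0 →
        IsEmpty (K i →+* K j) ∨ (EndK P F j ∧ IsEmpty (K i ≃+* K j)) ∨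
          (n i ≤ 1 ∧ ((n j ≤ 2 ∧ EndK P F j) ∨
          (n j ≤ 1 ∧ ∃ g0 : Module.End ℂ (κ j → ℂ), ∀ g, IsDRB (P j) (P j) g →
            ∃ x y : K j, ∀ v, g v = (F j).ρ x v + g0 ((F j).ρ y v)))))
    (b : At n K) (hb : IsPl n P F α (pl n b) 4) :
    (n b.1 ≤ 1 ∧ ∀ S : Finset (At n K), (∀ a ∈ S, IsPl n P F α (pl n a) 2 ∧
        KerLe n P F α (pl n b) (pl n a)) → S.card ≤ 2) ∨
    (n b.1 ≤ 2 ∧ ∀ a : At n K, IsPl n P F α (pl n a) 2 →
      ¬ KerLe n P F α (pl n b) (pl n a)) := by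
  classical
  have hn0 : ∀ a : At n K, n a.1 ≠ 0 := fun a h0 => by
    have := a.2.1.2
    omega
  have hrkb : (F b.1).rk = 4 := by
    rw [← Helper8.finrank_Vs (n := n) (α := α) (pl n b) hb.1]
    exact hb.2
  have hCb := hC b.1 hb.1 hrkb (hn0 b)
  -- a linked atom
  have hlink : ∀ a : At n K, IsPl n P F α (pl n a) 2 → KerLe n P F α (pl n b) (pl n a) →
      n b.1 ≤ 1 ∧ ((n a.1 ≤ 2 ∧ EndK P F a.1) ∨
          (n a.1 ≤ 1 ∧ ∃ g0 : Module.End ℂ (κ a.1 → ℂ), ∀ g, IsDRB (P a.1) (P a.1) g →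
            ∃ x y : K a.1, ∀ v, g v = (F a.1).ρ x v + g0 ((F a.1).ρ y v))) := by
    intro a ha hker
    have h1 := linked_hom n P F α hϖ hB hA hk p b.1 a.1 hb.1 ha.1 (hE b.1 hb.1 hrkb (hn0 b))
      b.2.2 a.2.2 hb.2 ha.2 hker
    have hrka : (F a.1).rk = 2 := by
      rw [← Helper8.finrank_Vs (n := n) (α := α) (pl n a) ha.1]
      exact ha.2
    rcases hCb.2 a.1 ha.1 hrka (hn0 a) with h2 | ⟨h2, h3⟩ | h2
    · exact absurd h1 (not_nonempty_iff.mpr h2)
    · exact absurd (linked_field n P F α hϖ hB hA hk p b.1 a.1 hb.1 ha.1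
        (hE b.1 hb.1 hrkb (hn0 b)) h2 b.2.2 a.2.2 hb.2 ha.2 hker) (not_nonempty_iff.mpr h3)
    · exact h2
  by_cases hnb : n b.1 ≤ 1
  · left
    refine ⟨hnb, fun S hS => ?_⟩
    rcases S.eq_empty_or_nonempty with hSe | ⟨a0, ha0⟩
    · rw [hSe]; simp
    · have h0 := hS a0 ha0
      have hl0 := hlink a0 h0.1 h0.2
      -- the kernels of the linked atoms are equal
      have nb := nontriv_of n P F α hb.2
      have n0 := nontriv_of n P F α h0.1.2
      have ib := Vs_irr n P F α hϖ hB hA (pl n b) hb.1 nb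
      have i0 := Vs_irr n P F α hϖ hB hA (pl n a0) h0.1.1 n0
      have ob := omV_symp n P F α (pl n b) hb.1
      have o0 := omV_symp n P F α (pl n a0) h0.1.1
      obtain ⟨mb, hmb, ⟨Sb⟩⟩ := exists_str (p := p) ob (Or.inr hb.2)
      obtain ⟨m0, hm0, ⟨S0⟩⟩ := exists_str (p := p) o0 (Or.inl h0.1.2)
      -- pairings of the linked atoms
      have hpair : ∀ a ∈ S, ∃ f : Vs n P F α (pl n a) → Vs n P F α (pl n a0) → ℂ, ML2 f ∧
          Inv2 (LL n P F α) f ∧ ∃ x y, f x y ≠ 0 := by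
        intro a ha
        have h1 := hS a ha
        have na := nontriv_of n P F α h1.1.2
        have ia := Vs_irr n P F α hϖ hB hA (pl n a) h1.1.1 na
        have oa := omV_symp n P F α (pl n a) h1.1.1
        obtain ⟨ma, hma, ⟨Sa⟩⟩ := exists_str (p := p) oa (Or.inl h1.1.2)
        exact iso2 p oa o0 h1.1.2 h0.1.2
          (fun x hx => h0.2 x (ker_symm ob hmb hma Sb Sa h1.2 x hx))
      have hidx : ∀ a ∈ S, a.1 = a0.1 := by
        intro a ha
        have h1 := hS a ha
        by_contra hne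
        obtain ⟨f, hf, hI, x, y, hxy⟩ := hpair a ha
        exact hxy (nopair_hom n P F α hϖ hB hA (pl n a) (pl n a0) h1.1.1 h0.1.1
          (hH a.1 a0.1 hne h1.1.1 h0.1.1 (hn0 a) (hn0 a0)) f hf hI x y)
      rcases hl0.2 with ⟨hn2, hEk⟩ | ⟨hn1, g0, hg0⟩
      · have hpl : ∀ a ∈ S, pl n a = pl n a0 := by
          intro a ha
          have h1 := hS a ha
          by_contra hne
          obtain ⟨f, hf, hI, x, y, hxy⟩ := hpair a ha
          have hE1 : EndK P F a.1 := by rw [hidx a ha]; exact hEk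
          refine hxy (noPair_of n P F α hϖ hB hA h1.1.1 h0.1.1 hne
            (fun _ => hE1) (fun h2 => absurd (hidx a ha) h2) f hf hI x y)
        have hsub : S ⊆ (Finset.univ : Finset (Fin (n a0.1))).image
            (fun m => (⟨a0.1, m, a0.2.2⟩ : At n K)) := by
          intro a ha
          have h2 := hpl a ha
          obtain ⟨i, m, σ⟩ := a
          obtain ⟨j, m', τ⟩ := a0
          have h3 : (⟨i, σ⟩ : Emb K) = ⟨j, τ⟩ := h2
          obtain ⟨rfl, h4⟩ := Sigma.mk.inj h3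
          have h5 := eq_of_heq h4
          subst h5
          rw [Finset.mem_image]
          exact ⟨m, Finset.mem_univ _, rfl⟩
        calc S.card ≤ _ := Finset.card_le_card hsub
          _ ≤ _ := Finset.card_image_le
          _ ≤ 2 := by rw [Finset.card_univ, Fintype.card_fin]; exact hn2
      · by_contra hcard
        obtain ⟨a1, h1, a2, h2, a3, h3, h12, h13, h23⟩ := Finset.two_lt_card.mp (by omega :
          2 < S.card)
        have e1 := hidx a1 h1
        have e2 := hidx a2 h2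
        have e3 := hidx a3 h3
        have p1 := hpair a1 h1
        have p2 := hpair a2 h2
        have p3 := hpair a3 h3
        obtain ⟨j, m0, τ⟩ := a0
        obtain ⟨i1, m1, σ1⟩ := a1
        obtain ⟨i2, m2, σ2⟩ := a2
        obtain ⟨i3, m3, σ3⟩ := a3
        obtain rfl : i1 = j := e1
        obtain rfl : i2 = i1 := e2
        obtain rfl : i3 = i2 := e3
        have hsub : ∀ x y : Fin (n i3), x = y := by
          intro x y
          apply Fin.ext
          have hx := x.2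
          have hy := y.2
          have hn1' : n i3 ≤ 1 := hn1
          omega
        have d12 : σ1 ≠ σ2 := fun h => h12 (by rw [h, hsub m1 m2])
        have d13 : σ1 ≠ σ3 := fun h => h13 (by rw [h, hsub m1 m3])
        have d23 : σ2 ≠ σ3 := fun h => h23 (by rw [h, hsub m2 m3])
        rcases three_cases (NoP n P F α i3 τ) σ1 σ2 σ3
          (nopair_quat' n P F α hϖ hB hA i3 h0.1.1 g0 hg0 τ) d12 d13 d23 with hj | hj | hj
        · obtain ⟨f, hf, hI, x, y, hxy⟩ := p1
          exact hxy (hj f hf hI x y)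
        · obtain ⟨f, hf, hI, x, y, hxy⟩ := p2
          exact hxy (hj f hf hI x y)
        · obtain ⟨f, hf, hI, x, y, hxy⟩ := p3
          exact hxy (hj f hf hI x y)
  · right
    refine ⟨hCb.1, fun a ha hker => hnb (hlink a ha hker).1⟩

end family

end Pool.Agent.Helper84
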