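import Pool.Agent.Helper8.H.Main2
import Pool.Agent.Helper8.H.EndDim
import Pool.Agent.Helper8.H.HCond2
import Pool.Agent.Helper7.SmallG

/-!
The theorem in all degrees for products of abelian varieties of real type of relative dimensions
one and two and of abelian varieties with complex multiplication.
-/

set_option linter.unusedSectionVars false

namespace Pool.Agent.Helper8

open Module NumberField LieAlgebra
open Pool.Agent.Helper7
open Pool.Agent.GPC
open Pool.Agent.Helper84 (EndK hN_of hA_of2)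

attribute [local instance 100] LieRing.ofAssociativeRing

lemma isDRB_rho {κ : Type} [Fintype κ] [DecidableEq κ] {ϖ : ℂ} {P : PData κ ϖ} {K : Type}
    [Field K] [NumberField K] (F : FS P K) (x : K) : IsDRB P P (F.ρ x) := by
  cases F with
  | inl F => exact F.hρ x
  | inr F => exact F.1.hρ x

variable {I : Type} [Fintype I] (A : I → AbVar) (n : I → ℕ) (K : I → Type)
  [∀ i, Field (K i)] [∀ i, NumberField (K i)]

theorem main_H (hT : ∀ i, NotProportional (A i)) (S U T : Finset I)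
    (hST : ∀ i, i ∈ S ∨ i ∈ U ∨ i ∈ T) (hS : ∀ i ∈ S, IsRMType (A i) (K i))
    (hU : ∀ i ∈ U, IsRelTwoType (A i) (K i)) (hC : ∀ i ∈ T, IsCMType (A i) (K i))
    (h : OddMultiplicityFree K ∨ LowDimCM A n K T ∨ PrimeDimCM A n T)
    (hc : U = ∅ ∨ RelTwoCond A n K S U)
    (k : ℕ) (α : Form A n (2 * k)) : IsGrothendieck A n k α ↔ IsDivisorial A n k α := by
  classical
  refine ⟨?_, isGrothendieck_of_isDivisorial A n k α⟩
  rintro ⟨hα1, hα2⟩
  -- all factors of real type
  have hR : ∀ i, i ∈ S ∨ i ∈ U → IsRealType (A i) (K i) := by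
    rintro i (hi | hi)
    · obtain ⟨h1, ⟨R⟩⟩ := hS i hi
      exact ⟨h1, ⟨⟨R.ρ, R.one, R.mul, R.add, R.endo, R.rosati, R.centralizer⟩⟩⟩
    · exact (hU i hi).1
  have hdeg : ∀ i, (i ∈ S → finrank ℚ (K i) = (A i).g) ∧
      (i ∈ U → 2 * finrank ℚ (K i) = (A i).g) := by
    intro i
    refine ⟨fun hi => ?_, fun hi => (hU i hi).2.1⟩
    obtain ⟨h1, ⟨R⟩⟩ := hS i hi
    exact R.degree
  have hpos : ∀ i, 0 < finrank ℚ (K i) := fun i => finrank_pos
  have hNT : ∀ i, ¬ (i ∈ S ∨ i ∈ U) → i ∈ T := fun i hi => by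
    rcases hST i with h1 | h1 | h1
    · exact absurd (Or.inl h1) hi
    · exact absurd (Or.inr h1) hi
    · exact h1
  have hF : ∀ i, ∃ F : FS (pData (A i)) (K i), (F.isLeft ↔ (i ∈ S ∨ i ∈ U)) ∧
      ((i ∈ S ∨ i ∈ U) → finrank ℚ (K i) * F.rk = 2 * (A i).g) := by
    intro i
    by_cases hi : i ∈ S ∨ i ∈ U
    · obtain ⟨F, hF⟩ := nonempty_RF (A i) (K i) (Classical.choice (hR i hi).2)
      exact ⟨.inl F, ⟨fun _ => hi, fun _ => rfl⟩, fun _ => hF⟩
    · obtain ⟨h1, ⟨C⟩⟩ := hC i (hNT i hi)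
      exact ⟨.inr ⟨cmFac (A i) (K i) C (hT i), fun h => h⟩,
        ⟨fun h => by simp at h, fun h => absurd h hi⟩, fun h => absurd h hi⟩
  choose F hFl hFr using hF
  have e2 : ∀ f r g : ℕ, 0 < f → f * r = 2 * g → f = g → r = 2 := by
    intro f r g h1 h2 h3
    subst h3
    exact Nat.eq_of_mul_eq_mul_left h1 (by rw [h2]; ring)
  have e4 : ∀ f r g : ℕ, 0 < f → f * r = 2 * g → 2 * f = g → r = 4 := by
    intro f r g h1 h2 h3
    subst h3
    exact Nat.eq_of_mul_eq_mul_left h1 (by rw [h2]; ring)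
  have hrkS : ∀ i ∈ S, (F i).rk = 2 := by
    intro i hi
    exact e2 _ _ _ (hpos i) (hFr i (Or.inl hi)) ((hdeg i).1 hi)
  have hrkU : ∀ i ∈ U, (F i).rk = 4 := by
    intro i hi
    exact e4 _ _ _ (hpos i) (hFr i (Or.inr hi)) ((hdeg i).2 hi)
  have hB : ∀ v : Fin (2 * k) → HW (fun i => Fin (A i).g ⊕ Fin (A i).g) n,
      (∀ r, IsRatP n (fun i => pData (A i)) (v r)) →
      ∃ q : ℚ, (α : MultilinearMap ℂ
        (fun _ : Fin (2 * k) => HW (fun i => Fin (A i).g ⊕ Fin (A i).g) n) ℂ) v =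
          (2 * Real.pi * Complex.I) ^ k * q := by
    intro v hv
    apply hα2
    intro r i m
    exact (mem_pData_Q _ _).mp (hv r i m)
  have hA : ∀ v : Fin (2 * k) → HW (fun i => Fin (A i).g ⊕ Fin (A i).g) n,
      (∀ r i m j, IsAlgebraic ℚ (v r i m j)) → IsAlgebraic ℚ ((α : MultilinearMap ℂ
        (fun _ : Fin (2 * k) => HW (fun i => Fin (A i).g ⊕ Fin (A i).g) n) ℂ) v) := hα1
  have hϖ := Complex.two_pi_I_ne_zero
  have hrad : HasTrivialRadical ℂ (LL n (fun i => pData (A i)) F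
      (α : MultilinearMap ℂ
        (fun _ : Fin (2 * k) => HW (fun i => Fin (A i).g ⊕ Fin (A i).g) n) ℂ)) :=
    LL_trivialRadical n _ F _ hϖ hB hA
  have hk : IsKilling ℂ (LL n (fun i => pData (A i)) F
      (α : MultilinearMap ℂ
        (fun _ : Fin (2 * k) => HW (fun i => Fin (A i).g ⊕ Fin (A i).g) n) ℂ)) := inferInstance
  obtain ⟨p⟩ := exists_principal (LL n (fun i => pData (A i)) F
      (α : MultilinearMap ℂ
        (fun _ : Fin (2 * k) => HW (fun i => Fin (A i).g ⊕ Fin (A i).g) n) ℂ))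
  have hSU : ∀ i, i ∈ S → i ∉ U := by
    intro i h1 h2
    have h3 := hrkS i h1
    rw [hrkU i h2] at h3
    omega
  -- endomorphisms and homomorphisms
  have hg : ∀ i, (i ∈ S ∨ i ∈ U) → 0 < (A i).g := by
    rintro i (hi | hi)
    · rw [← (hdeg i).1 hi]; exact hpos i
    · rw [← (hdeg i).2 hi]; have := hpos i; omega
  have hFρ : ∀ i, ∀ x, IsDRB (pData (A i)) (pData (A i)) ((F i).ρ x) := fun i x =>
    isDRB_rho (F i) x
  have hEU : ∀ i ∈ U, EndK (fun i => pData (A i)) F i := by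
    intro i hi
    exact (endo_cases (A i) (hg i (Or.inr hi)) (K i) (F i).ρ (hFρ i) _ (hU i hi).2.2).2.1 le_rfl
  have hUne : ∀ i, (F i).isLeft → (F i).rk = 4 → i ∈ U := by
    intro i hi h4
    rcases (hFl i).mp hi with h1 | h1
    · rw [hrkS i h1] at h4; omega
    · exact h1
  have hSne : ∀ i, (F i).isLeft → (F i).rk = 2 → i ∈ S := by
    intro i hi h4
    rcases (hFl i).mp hi with h1 | h1
    · exact h1
    · rw [hrkU i h1] at h4; omega
  have hfr : ∀ s : Emb K, (F s.1).isLeft → finrank ℂ (Vs n (fun i => pData (A i)) F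
      (α : MultilinearMap ℂ
        (fun _ : Fin (2 * k) => HW (fun i => Fin (A i).g ⊕ Fin (A i).g) n) ℂ) s) =
        (F s.1).rk := fun s hs => finrank_Vs s hs
  have hre : ∀ i, (F i).isLeft → ∀ σ : K i →+* ℂ, ComplexEmbedding.conjugate σ = σ := by
    intro i hi σ
    have := (hR i ((hFl i).mp hi)).1
    exact ComplexEmbedding.isReal_iff.mp (IsTotallyReal.complexEmbedding_isReal σ)
  have hpl4 : ∀ s : Emb K, IsPl n (fun i => pData (A i)) F (α : MultilinearMap ℂ
      (fun _ : Fin (2 * k) => HW (fun i => Fin (A i).g ⊕ Fin (A i).g) n) ℂ) s 4 → s.1 ∈ U := by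
    intro s hs
    refine hUne s.1 hs.1 ?_
    rw [← hfr s hs.1]
    exact hs.2
  have hn0 : ∀ a : At n K, n a.1 ≠ 0 := fun a h0 => by
    have := a.2.1.2
    omega
  have hpair : RelTwoCond A n K S U → (∀ i j, i ≠ j → (F i).isLeft → (F j).isLeft → n i ≠ 0 →
      n j ≠ 0 → ∀ g, IsDRB (pData (A i)) (pData (A j)) g → g = 0) := by
    intro hc i j hij hi hj h1 h2 g hg
    apply LinearMap.ext
    intro v
    have h3 := (isDRB_iff (A i) (A j) g).mp hg
    exact hc.hom_zero i j ((hFl i).mp hi) ((hFl j).mp hj) h1 h2 hij g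
      ⟨g.isLinear, h3.1, h3.2, hom_fil (A i) (A j) g g.isLinear h3.1 h3.2⟩ v
  have hlink : RelTwoCond A n K S U → (∀ i, (F i).isLeft → (F i).rk = 4 → n i ≠ 0 → n i ≤ 2 ∧
      ∀ j, (F j).isLeft → (F j).rk = 2 → n j ≠ 0 →
        IsEmpty (K i →+* K j) ∨ (EndK (fun i => pData (A i)) F j ∧ IsEmpty (K i ≃+* K j)) ∨
          (n i ≤ 1 ∧ ((n j ≤ 2 ∧ EndK (fun i => pData (A i)) F j) ∨
          (n j ≤ 1 ∧ ∃ g0 : Module.End ℂ (Fin (A j).g ⊕ Fin (A j).g → ℂ),
            ∀ g, IsDRB (pData (A j)) (pData (A j)) g →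
              ∃ x y : K j, ∀ v, g v = (F j).ρ x v + g0 ((F j).ρ y v))))) := by
    intro hc i hi h4 hn
    have hiU := hUne i hi h4
    refine ⟨hc.mult i hiU, fun j hj h2 hnj => ?_⟩
    have hjS := hSne j hj h2
    rcases hc.link i hiU j hjS hn hnj with h1 | ⟨h1, h5⟩ | ⟨h1, d, hd, h5⟩
    · exact Or.inl h1
    · exact Or.inr (Or.inl ⟨(endo_cases (A j) (hg j (Or.inl hjS)) (K j) (F j).ρ (hFρ j) _
        h1).2.1 ((hdeg j).1 hjS).ge, h5⟩)
    · right
      right
      refine ⟨h1, ?_⟩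
      obtain ⟨h6, h7, h8⟩ := endo_cases (A j) (hg j (Or.inl hjS)) (K j) (F j).ρ (hFρ j) d hd
      have h9 := (hdeg j).1 hjS
      have h10 := hg j (Or.inl hjS)
      rw [← h9] at h5 h10
      have hle2 : n j ≤ 2 := by
        by_contra hcon
        have h11 : 3 * d ≤ n j * d := Nat.mul_le_mul_right d (by omega)
        omega
      rcases Nat.lt_or_ge (n j) 2 with h12 | h12
      · right
        have h13 : n j = 1 := by omega
        rw [h13, one_mul] at h5
        exact ⟨h13.le, h8 h5⟩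
      · left
        have h13 : n j = 2 := le_antisymm hle2 h12
        rw [h13] at h5
        exact ⟨hle2, h7 (by omega)⟩
  have h1 := abstract_of_span n (fun i => pData (A i)) hϖ α hB hα1
    (family_H2 α hk (fun s hs hn => Vs_irr n _ F _ hϖ hB hA s hs hn) p (fun s hs hn => ?_)
      (fun a b hab ha hb => ?_) (fun b hb => ?_) (fun q T' Φ hev hΦ hT' => ?_))
  · exact isDivisorial_of_span A n k α h1
  · rcases (hFl s.1).mp hs with h3 | h3
    · exact Or.inl ⟨hs, by rw [hfr s hs]; exact hrkS _ h3⟩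
    · exact Or.inr ⟨hs, by rw [hfr s hs]; exact hrkU _ h3⟩
  · rcases hc with hc | hc
    · have := hpl4 _ ha
      rw [hc] at this
      exact absurd this (Finset.notMem_empty _)
    · exact hN_of n _ F _ hϖ hB hA (fun i h1 h2 _ => hEU i (hUne i h1 h2)) (hpair hc) _ _
        (hn0 a) (hn0 b) hab ha hb
  · rcases hc with hc | hc
    · have := hpl4 _ hb
      rw [hc] at this
      exact absurd this (Finset.notMem_empty _)
    · exact hA_of2 n _ F _ hϖ hB hA hk p (fun i h1 h2 _ => hEU i (hUne i h1 h2)) (hpair hc)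
        (hlink hc) b hb
  · refine small_fft n _ F _ (fun i => i ∉ U) hϖ hB hA hk p (fun s hs hl => ?_) hre
      (relS_noExotic A F _ hB hA (S ∪ U) T (fun i => ?_) (fun i => ?_) (fun i hi => ?_) hC h)
      hev hΦ (fun r hr hrU => ?_)
    · rw [hfr s hl]
      exact hrkS _ (((hFl s.1).mp hl).resolve_right hs)
    · rcases hST i with h1 | h1 | h1
      · exact Or.inl (Finset.mem_union_left _ h1)
      · exact Or.inl (Finset.mem_union_right _ h1)
      · exact Or.inr h1
    · rw [hFl, Finset.mem_union]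
    · exact (hR i (Finset.mem_union.mp hi)).1
    · have hl : (F (q r).1).isLeft := (hFl _).mpr (Or.inr hrU)
      exact hT' r hr ⟨hl, by rw [hfr (pl n (q r)) hl]; exact hrkU _ hrU⟩

end Pool.Agent.Helper8
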