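import Pool.Agent.Helper8.H.PeelAll
import Pool.Agent.Helper7.J4

/-!
The symmetries of a family with their multipliers; the statement about small labels.
-/

set_option linter.unusedSectionVars false

namespace Pool.Agent.Helper8

open Module NumberField LieAlgebra
open Pool.Agent.Helper7

attribute [local instance 100] LieRing.ofAssociativeRing

section family

variable {I : Type} [Fintype I] [DecidableEq I] (n : I → ℕ)
  {κ : I → Type} [∀ i, Fintype (κ i)] [∀ i, DecidableEq (κ i)] {ϖ : ℂ}
  (P : ∀ i, PData (κ i) ϖ)
  {k : ℕ} (α : MultilinearMap ℂ (fun _ : Fin (2 * k) => HW κ n) ℂ)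

/-- the symmetries with their multipliers -/
def symG : Set (Module.End ℂ (HW κ n) × ℂ) := {Y | ∃ X, IsInv n P α X ∧ Y = (lift n X.1, X.2)}

lemma invF_symG : invF (symG n P α) = invB n P α := by
  ext β
  constructor
  · intro h X hX u v
    exact h _ ⟨X, hX, rfl⟩ u v
  · rintro h _ ⟨X, hX, rfl⟩ u v
    exact h X hX u v

end family

end Pool.Agent.Helper8
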