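import Pool.Agent.Helper8.H.Triple
import Pool.Agent.Helper8.H.Family

/-!
The data for the labels with a space of dimension four.
-/

set_option linter.unusedSectionVars false

namespace Pool.Agent.Helper8

open Module NumberField LieAlgebra
open Pool.Agent.Helper7
open Pool.Agent.GPC (Emb IsOdd IsOddModule translate)
open Pool.Agent.Helper84 (iso4 iso2)

attribute [local instance 100] LieRing.ofAssociativeRing

section family

variable {I : Type} [Fintype I] [DecidableEq I] (n : I → ℕ)
  {κ : I → Type} [∀ i, Fintype (κ i)] [∀ i, DecidableEq (κ i)] {ϖ : ℂ}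
  (P : ∀ i, PData (κ i) ϖ)
  {K : I → Type} [∀ i, Field (K i)] [∀ i, NumberField (K i)]
  (F : ∀ i, FS (P i) (K i))
  {k : ℕ} (α : MultilinearMap ℂ (fun _ : Fin (2 * k) => HW κ n) ℂ)

lemma outS_inS (t : At n K) (x : Vs n P F α (pl n t)) : outS n P F α t (inS n P F α t x) = x := by
  apply Vs_ext n P F α (pl n t)
  rw [outS_apply, inS_apply]
  have h1 : (slotL n t.1 t.2.1 ((x : MM κ) t.1)) t.1 t.2.1 = (x : MM κ) t.1 :=
    prL_slotL n t.1 t.2.1 _
  rw [h1]
  exact Vs_proj n P F α (pl n t) x

lemma outS_EE (t : At n K) (u : HW κ n) : outS n P F α t (EE n P F t u) = outS n P F α t u := by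
  rw [EE_eq n P F α, outS_inS]

/-- places of real type with a space of dimension `d` -/
def IsPl (s : Emb K) (d : ℕ) : Prop := (F s.1).isLeft ∧ finrank ℂ (Vs n P F α s) = d

/-- invariant pairings vanish -/
def NoPair (s t : Emb K) : Prop := ∀ f : Vs n P F α s → Vs n P F α t → ℂ, ML2 f →
  Inv2 (LL n P F α) f → ∀ x y, f x y = 0

/-- inclusion of the kernels -/
def KerLe (s t : Emb K) : Prop := ∀ x : LL n P F α, Triv (Vs n P F α s) x → Triv (Vs n P F α t) x

/-- the statement of irreducibility -/
def Irr : Prop := ∀ s : Emb K, (F s.1).isLeft → Nontrivial (Vs n P F α s) →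
    LieModule.IsIrreducible ℂ (LL n P F α) (Vs n P F α s)

variable {n P F α} in
lemma IsPl.nt {s : Emb K} {d : ℕ} (h : IsPl n P F α s (d + 1)) : Nontrivial (Vs n P F α s) :=
  Module.finrank_pos_iff.mp (by rw [h.2]; omega)

variable {n P F α}

lemma IsPl.str (hirr : Irr n P F α) (p : Principal (LL n P F α)) {s : Emb K}
    (h : IsPl n P F α s 2 ∨ IsPl n P F α s 4) :
    ∃ m, 0 < m ∧ Nonempty (Str p.h p.f (Vs n P F α s) m) := by
  have hl : (F s.1).isLeft := h.elim (fun h => h.1) (fun h => h.1)
  have hnt : Nontrivial (Vs n P F α s) := h.elim (fun h => h.nt) (fun h => h.nt)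
  have := hirr s hl hnt
  exact exists_str (omV_symp n P F α s hl) (h.imp (fun h => h.2) (fun h => h.2))

theorem exists_big (hk : IsKilling ℂ (LL n P F α)) (hirr : Irr n P F α)
    (p : Principal (LL n P F α))
    (hdim : ∀ s : Emb K, (F s.1).isLeft → Nontrivial (Vs n P F α s) →
      IsPl n P F α s 2 ∨ IsPl n P F α s 4)
    (b : At n K) (hb : IsPl n P F α (pl n b) 4) (hn : n b.1 ≤ 1)
    (hN : ∀ a : At n K, pl n a ≠ pl n b → IsPl n P F α (pl n a) 4 →
      NoPair n P F α (pl n b) (pl n a))
    (hA : ∀ S : Finset (At n K), (∀ a ∈ S, IsPl n P F α (pl n a) 2 ∧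
      KerLe n P F α (pl n b) (pl n a)) → S.card ≤ 2) :
    Nonempty (Big (symG n P α) (EE n P F) b) := by
  classical
  obtain ⟨I0, J0, s, hI⟩ := exists_split (LL n P F α) (Vs n P F α (pl n b))
  obtain ⟨q⟩ := s.exists_parts p
  have hirrb := hirr _ hb.1 hb.nt
  have hωb := omV_symp n P F α (pl n b) hb.1
  obtain ⟨A⟩ := exists_adapted4 (p := p) hωb hb.2
  obtain ⟨XH, hXH, eH, mH, cH⟩ := perfect_lift n P F α hk q.h1
  obtain ⟨XF, hXF, eF, mF, cF⟩ := perfect_lift n P F α hk q.f1
  -- the action at the big place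
  have actH : ∀ x : Vs n P F α (pl n b), ⁅q.h1, x⁆ = ⁅p.h, x⁆ := by
    intro x
    exact q.h1_act x ((hI _).mp q.h0I x)
  have actF : ∀ x : Vs n P F α (pl n b), ⁅q.f1, x⁆ = ⁅p.f, x⁆ := by
    intro x
    exact q.f1_act x ((hI _).mp q.f0I x)
  have liftH : ∀ (t : At n K) (ht : (F t.1).isLeft) (x : Vs n P F α (pl n t)),
      lift n XH.1 (inS n P F α t x) = inS n P F α t ⁅q.h1, x⁆ := by
    intro t ht x
    rw [lift_in n P F α XH hXH t ht, ← eH, mH, zero_div, zero_smul, add_zero]
  have liftF : ∀ (t : At n K) (ht : (F t.1).isLeft) (x : Vs n P F α (pl n t)),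
      lift n XF.1 (inS n P F α t x) = inS n P F α t ⁅q.f1, x⁆ := by
    intro t ht x
    rw [lift_in n P F α XF hXF t ht, ← eF, mF, zero_div, zero_smul, add_zero]
  -- linked atoms
  obtain ⟨A1, hA1⟩ : ∃ A1 : Finset (At n K), A1 = Finset.univ.filter (fun a =>
      IsPl n P F α (pl n a) 2 ∧ KerLe n P F α (pl n b) (pl n a)) := ⟨_, rfl⟩
  have memA : ∀ a, a ∈ A1 ↔ (IsPl n P F α (pl n a) 2 ∧ KerLe n P F α (pl n b) (pl n a)) := by
    intro a; rw [hA1, Finset.mem_filter]; simp
  have hc2 : ∀ a : At n K, ∃ c : Fin 2 → HW κ n, a ∈ A1 →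
      (∀ w, ∃ x : Fin 2 → ℂ, EE n P F a w = ∑ j, x j • c j) ∧
      (∀ j, lift n XH.1 (c j) = (sg j : ℂ) • c j) := by
    intro a
    by_cases ha : a ∈ A1
    · have ha' := (memA a).mp ha
      have hirra := hirr _ ha'.1.1 ha'.1.nt
      have hωa := omV_symp n P F α (pl n a) ha'.1.1
      obtain ⟨B⟩ := exists_adapted2 (p := p) hωa ha'.1.2
      refine ⟨fun j => inS n P F α a (B.b j), fun _ => ⟨fun w => ?_, fun j => ?_⟩⟩
      · refine ⟨fun j => B.b.repr (outS n P F α a w) j, ?_⟩
        rw [EE_eq n P F α]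
        conv_lhs => rw [← B.b.sum_repr (outS n P F α a w)]
        rw [map_sum]
        exact Finset.sum_congr rfl fun j _ => map_smul _ _ _
      · have h3 : ⁅q.h1, B.b j⁆ = ⁅p.h, B.b j⁆ :=
          q.h1_act (B.b j) (ha'.2 q.h0 ((hI _).mp q.h0I) (B.b j))
        rw [liftH a ha'.1.1, h3, B.h_b, map_smul]
        congr 1
        fin_cases j <;> simp [sg, wt2]
    · exact ⟨0, fun h => absurd h ha⟩
  choose c2 hc2 using hc2
  -- atoms on which the triple acts trivially
  have htriv : ∀ a : At n K, a ≠ b → a ∉ A1 → ∀ w, EE n P F a (lift n XH.1 w) = 0 := by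
    intro a hab haA w
    by_cases hl : (F a.1).isLeft
    · rw [EE_eq n P F α, out_lift n P F α XH hXH a hl, mH, zero_div, zero_smul, add_zero, ← eH]
      by_cases hnt : Nontrivial (Vs n P F α (pl n a))
      · have hd := hdim (pl n a) hl hnt
        have hirra := hirr _ hl hnt
        have hωa := omV_symp n P F α (pl n a) hl
        obtain ⟨m, hm, ⟨St⟩⟩ := IsPl.str hirr p hd
        rcases q.act_or s hωa hm St with h1 | h1
        · rw [h1.1, map_zero]
        · exfalso
          have hker : KerLe n P F α (pl n b) (pl n a) := fun x hx => h1.1 x ((hI x).mpr hx)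
          rcases hd with hd | hd
          · exact haA ((memA a).mpr ⟨hd, hker⟩)
          · -- two places of dimension four
            have hne : pl n a ≠ pl n b := by
              intro h
              apply hab
              obtain ⟨i, m, σ⟩ := a
              obtain ⟨j, m', τ⟩ := b
              have h2 : (⟨i, σ⟩ : Emb K) = ⟨j, τ⟩ := h
              obtain ⟨rfl, h3⟩ := Sigma.mk.inj h2
              have h4 := eq_of_heq h3
              subst h4
              have h5 : m = m' := by
                apply Fin.ext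
                have := m.2
                have := m'.2
                have h6 : n i ≤ 1 := hn
                omega
              rw [h5]
            obtain ⟨m', hm', ⟨Sb⟩⟩ := IsPl.str hirr p (Or.inr hb)
            obtain ⟨β, hβ1, hβ2, x, y, hxy⟩ := iso4 p hωb hωa hb.2 hd.2 hker
              (ker_symm hωb hm' hm Sb St hker)
            exact hxy (hN a hne hd β hβ1 hβ2 x y)
      · rw [not_nontrivial_iff_subsingleton] at hnt
        have h2 : ⁅q.h1, outS n P F α a w⁆ = 0 := Subsingleton.elim _ _
        rw [h2, map_zero]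
    · rw [EE_cm n P F a hl, cvS_lift n P F α XH hXH a hl, cH _ hl, zero_mul, zero_smul]
  refine ⟨{ c4 := fun j => inS n P F α b (A.b j)
            hc4 := fun w => ⟨fun j => A.b.repr (outS n P F α b w) j, ?_⟩
            ω := (omV n P F α (pl n b)).compl₁₂ (outS n P F α b) (outS n P F α b)
            hω := ?_
            ωE := fun u v => ?_
            ωalt := fun u v => ?_
            ωc := fun i j => ?_
            H := lift n XH.1
            F := lift n XF.1
            hH := ⟨XH, hXH, by rw [mH]⟩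
            hF := ⟨XF, hXF, by rw [mF]⟩
            H_c := fun j => ?_
            F_c := fun j => ?_
            A1 := A1
            hA1 := hA A1 (fun a ha => (memA a).mp ha)
            c2 := c2
            hc2 := fun a ha w => (hc2 a ha).1 w
            hH2 := fun a ha j => (hc2 a ha).2 j
            h0 := htriv }⟩
  · rw [EE_eq n P F α]
    conv_lhs => rw [← A.b.sum_repr (outS n P F α b w)]
    rw [map_sum]
    exact Finset.sum_congr rfl fun j _ => map_smul _ _ _
  · rw [invF_symG]
    intro X hX u v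
    rw [LinearMap.compl₁₂_apply, LinearMap.compl₁₂_apply, LinearMap.compl₁₂_apply,
      out_lift n P F α X hX b hb.1, out_lift n P F α X hX b hb.1]
    have h1 := hωb.inv (elL n P F α X hX) (outS n P F α b u) (outS n P F α b v)
    simp only [map_add, map_smul, LinearMap.add_apply, LinearMap.smul_apply, smul_eq_mul]
    linear_combination h1
  · rw [LinearMap.compl₁₂_apply, LinearMap.compl₁₂_apply, outS_EE]
  · rw [LinearMap.compl₁₂_apply, LinearMap.compl₁₂_apply]
    exact hωb.alt _ _
  · rw [LinearMap.compl₁₂_apply, outS_inS, outS_inS, A.g_b]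
  · rw [liftH b hb.1, actH, A.h_b, map_smul]
  · rw [liftF b hb.1, actF, A.f_four]
    split_ifs
    · rw [map_zero]
    · rfl

end family

end Pool.Agent.Helper8
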