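import Pool.Agent.Helper8.H.BigData
import Pool.Agent.Helper7.J9

/-!
The dimensions of the eigenspaces.
-/

set_option linter.unusedSectionVars false

namespace Pool.Agent.Helper8

open Module NumberField LieAlgebra
open Pool.Agent.Helper7
open Pool.Agent.GPC (Emb IsOdd IsOddModule translate)

attribute [local instance 100] LieRing.ofAssociativeRing

section family

variable {I : Type} [Fintype I] [DecidableEq I] {n : I → ℕ}
  {κ : I → Type} [∀ i, Fintype (κ i)] [∀ i, DecidableEq (κ i)] {ϖ : ℂ}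
  {P : ∀ i, PData (κ i) ϖ}
  {K : I → Type} [∀ i, Field (K i)] [∀ i, NumberField (K i)]
  {F : ∀ i, FS (P i) (K i)}
  {k : ℕ} {α : MultilinearMap ℂ (fun _ : Fin (2 * k) => HW κ n) ℂ}

/-- the dimension of an eigenspace of real type is the rank -/
theorem finrank_Vs (s : Emb K) (hs : (F s.1).isLeft) :
    finrank ℂ (Vs n P F α s) = (F s.1).rk := by
  obtain ⟨F', hF'⟩ := Sum.isLeft_iff.mp hs
  have hρ : (F s.1).ρ = F'.ρ := by rw [hF']; rfl
  have hrk : (F s.1).rk = F'.r := by rw [hF']; rfl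
  rw [hrk]
  have hli : LinearIndependent ℂ (F'.e s.2) := by
    have h1 := F'.eb.linearIndependent.comp (fun j : Fin F'.r => (s.2, j))
      (fun a b h => (Prod.mk.inj h).2)
    exact h1
  have h1 : finrank ℂ (Submodule.span ℂ (Set.range (F'.e s.2))) = F'.r := by
    rw [finrank_span_eq_card hli, Fintype.card_fin]
  rw [← h1]
  let g : Vs n P F α s →ₗ[ℂ] Submodule.span ℂ (Set.range (F'.e s.2)) :=
    LinearMap.codRestrict _ ((LinearMap.proj s.1 : MM κ →ₗ[ℂ] (κ s.1 → ℂ)) ∘ₗ
      (Vs n P F α s).toSubmodule.subtype) (fun x => by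
        rw [F'.span_e, ← hρ]
        exact ⟨(x : MM κ) s.1, Vs_proj n P F α s x⟩)
  refine LinearEquiv.finrank_eq (LinearEquiv.ofBijective g ⟨?_, ?_⟩)
  · intro x y hxy
    exact Vs_ext n P F α s x y (congrArg Subtype.val hxy)
  · rintro ⟨y, hy⟩
    rw [F'.span_e, ← hρ] at hy
    obtain ⟨w, hw⟩ := hy
    refine ⟨toVs n P F α s w, Subtype.ext ?_⟩
    show ((toVs n P F α s w : Vs n P F α s) : MM κ) s.1 = y
    rw [toVs_apply, hw]

end family

end Pool.Agent.Helper8
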