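import Pool.Agent.Helper7.CMTypes2

/-!
Abelian varieties of real type of relative dimension two.
-/

namespace Pool.Agent.GPC

/-- `dim_ℚ (End(A) ⊗ ℚ) ≤ d`: the space of endomorphisms of `A` (tensor `ℚ`) is spanned by `d`
elements over `ℚ`. -/
def AbVar.EndDimLe (A : AbVar) (d : ℕ) : Prop :=
  ∃ e : Fin d → (A.H1 → A.H1), (∀ l, A.IsEnd (e l)) ∧
    ∀ f, A.IsEnd f → ∃ x : Fin d → ℚ, ∀ v, f v = ∑ l, (x l : ℂ) • e l v

/-- `A` is of real type of relative dimension two: `End(A) ⊗ ℚ` is the totally real field `K`, and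
`dim A = 2 [K : ℚ]`. For instance `K = ℚ` and `A` is an abelian surface with `End(A) = ℤ`. -/
def IsRelTwoType (A : AbVar) (K : Type) [Field K] [NumberField K] : Prop :=
  IsRealType A K ∧ 2 * Module.finrank ℚ K = A.g ∧ A.EndDimLe (Module.finrank ℚ K)

/-- The conditions on the factors `A_i`, `i ∈ U`, of relative dimension two (where factors with
`n_i = 0` are disregarded): there are no non-zero homomorphisms between different `A_i`,
`i ∈ S ∪ U`; one has `n_i ≤ 2` for `i ∈ U`; and for `i ∈ U`, `j ∈ S` either `K_i` does not embed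
into `K_j`, or `dim_ℚ (End(A_j) ⊗ ℚ) ≤ dim A_j` (so that `End(A_j) ⊗ ℚ = K_j`) and `K_j` is not
isomorphic to `K_i`, or `n_i ≤ 1` and `n_j dim_ℚ (End(A_j) ⊗ ℚ) ≤ 2 dim A_j`. -/
structure RelTwoCond {I : Type} (A : I → AbVar) (n : I → ℕ) (K : I → Type) [∀ i, Field (K i)]
    (S U : Finset I) : Prop where
  hom_zero : ∀ i j, (i ∈ S ∨ i ∈ U) → (j ∈ S ∨ j ∈ U) → n i ≠ 0 → n j ≠ 0 → i ≠ j →
    ∀ f, (A i).IsMor (A j) f → ∀ v, f v = 0
  mult : ∀ i ∈ U, n i ≤ 2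
  link : ∀ i ∈ U, ∀ j ∈ S, n i ≠ 0 → n j ≠ 0 → IsEmpty (K i →+* K j) ∨
    ((A j).EndDimLe (A j).g ∧ IsEmpty (K i ≃+* K j)) ∨
    (n i ≤ 1 ∧ ∃ d, (A j).EndDimLe d ∧ n j * d ≤ 2 * (A j).g)

end Pool.Agent.GPC
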