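import Pool.Agent.Helper8.H.BigData

/-!
Decomposition into labelled slot functions, and the conclusion.
-/

set_option linter.unusedSectionVars false

namespace Pool.Agent.Helper8

open Module NumberField LieAlgebra
open Pool.Agent.Helper7
open Pool.Agent.GPC (Emb IsOdd IsOddModule translate)

attribute [local instance 100] LieRing.ofAssociativeRing

/-- from functions to multilinear maps -/
lemma mem_of_PS {W : Type} [AddCommGroup W] [Module ℂ W] {k : ℕ}
    {𝓑 : Set (W →ₗ[ℂ] W →ₗ[ℂ] ℂ)} (M : MultilinearMap ℂ (fun _ : Fin (2 * k) => W) ℂ)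
    (h : (fun v => M v) ∈ PS 𝓑 (Finset.univ : Finset (Fin (2 * k)))) :
    M ∈ Submodule.span ℂ {M | ∃ (π : Equiv.Perm (Fin (2 * k)))
      (β : Fin k → (W →ₗ[ℂ] W →ₗ[ℂ] ℂ)), (∀ a, β a ∈ 𝓑) ∧ M = (prodBilin β).domDomCongr π} := by
  have h1 : ∀ Φ ∈ PS 𝓑 (Finset.univ : Finset (Fin (2 * k))), ∃ M' ∈ Submodule.span ℂ
      {M | ∃ (π : Equiv.Perm (Fin (2 * k))) (β : Fin k → (W →ₗ[ℂ] W →ₗ[ℂ] ℂ)),
        (∀ a, β a ∈ 𝓑) ∧ M = (prodBilin β).domDomCongr π}, ∀ v, M' v = Φ v := by
    intro Φ hΦ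
    refine Submodule.span_induction (p := fun Φ _ => ∃ M' ∈ Submodule.span ℂ
      {M | ∃ (π : Equiv.Perm (Fin (2 * k))) (β : Fin k → (W →ₗ[ℂ] W →ₗ[ℂ] ℂ)),
        (∀ a, β a ∈ 𝓑) ∧ M = (prodBilin β).domDomCongr π}, ∀ v, M' v = Φ v) ?_ ?_ ?_ ?_ hΦ
    · intro Φ hΦ
      obtain ⟨π, β, hβ, he⟩ := PP.exists_perm hΦ
      exact ⟨_, Submodule.subset_span ⟨π, β, hβ, rfl⟩, fun v => (congrFun he v).symm⟩
    · exact ⟨0, Submodule.zero_mem _, fun v => rfl⟩
    · rintro x y _ _ ⟨M1, h1, e1⟩ ⟨M2, h2, e2⟩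
      refine ⟨M1 + M2, Submodule.add_mem _ h1 h2, fun v => ?_⟩
      rw [_root_.add_apply, e1, e2]; rfl
    · rintro c x _ ⟨M1, h1, e1⟩
      refine ⟨c • M1, Submodule.smul_mem _ _ h1, fun v => ?_⟩
      rw [_root_.smul_apply, e1]; rfl
  obtain ⟨M', hM', he⟩ := h1 _ h
  have h2 : M = M' := by
    ext v
    exact (he v).symm
  rw [h2]
  exact hM'

section family

variable {I : Type} [Fintype I] [DecidableEq I] {n : I → ℕ}
  {κ : I → Type} [∀ i, Fintype (κ i)] [∀ i, DecidableEq (κ i)] {ϖ : ℂ}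
  {P : ∀ i, PData (κ i) ϖ}
  {K : I → Type} [∀ i, Field (K i)] [∀ i, NumberField (K i)]
  {F : ∀ i, FS (P i) (K i)}
  {k : ℕ} (α : (HW κ n) [⋀^Fin (2 * k)]→ₗ[ℂ] ℂ)

omit α in
lemma EE_EE (t : At n K) (u : HW κ n) : EE n P F t (EE n P F t u) = EE n P F t u := by
  classical
  have h1 : (slotL n t.1 t.2.1 (proj (F t.1).ρ t.2.2 (u t.1 t.2.1))) t.1 t.2.1 =
      proj (F t.1).ρ t.2.2 (u t.1 t.2.1) := prL_slotL n t.1 t.2.1 _
  rw [EE_apply, EE_apply, h1, ← Module.End.mul_apply, proj_mul_proj, if_pos rfl]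

lemma EE_lift {X : GG κ}
    (hX : IsInv n P (α : MultilinearMap ℂ (fun _ : Fin (2 * k) => HW κ n) ℂ) X) (t : At n K)
    (u : HW κ n) : EE n P F t (lift n X.1 u) = lift n X.1 (EE n P F t u) := by
  rw [EE_apply, EE_apply, lift_slot, lift_apply, IsInv.commP n P F _ hX]

lemma SF_label (a : Fin (2 * k) → At n K) :
    SF (symG n P (α : MultilinearMap ℂ (fun _ : Fin (2 * k) => HW κ n) ℂ)) (EE n P F) a
      Finset.univ (fun v => α (fun r => EE n P F (a r) (v r))) := by
  classical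
  have hupd : ∀ (v : Fin (2 * k) → HW κ n) r x,
      (fun r' => EE n P F (a r') (Function.update v r x r')) =
      Function.update (fun r' => EE n P F (a r') (v r')) r (EE n P F (a r) x) := by
    intro v r x
    funext r'
    by_cases h : r' = r
    · subst h; rw [Function.update_self, Function.update_self]
    · rw [Function.update_of_ne h, Function.update_of_ne h]
  refine ⟨?_, ?_, ?_, ?_, ?_, ?_⟩
  · intro v v' hv
    have : v = v' := funext fun r => hv r (Finset.mem_univ r)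
    rw [this]
  · intro v r _ x y
    rw [hupd, hupd, hupd, map_add, AlternatingMap.map_update_add]
  · intro v r _ c x
    rw [hupd, hupd, map_smul, AlternatingMap.map_update_smul, smul_eq_mul]
  · rintro _ ⟨X, hX, rfl⟩ v
    have h1 := congrArg (fun g => g (fun r => EE n P F (a r) (v r))) hX.form
    simp only [actForm_apply, _root_.smul_apply, smul_eq_mul] at h1
    have h2 : ∀ t, α (fun r' => EE n P F (a r') (Function.update v t (lift n X.1 (v t)) r')) =
        (α : MultilinearMap ℂ (fun _ : Fin (2 * k) => HW κ n) ℂ)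
          (Function.update (fun r => EE n P F (a r) (v r)) t
            (lift n X.1 (EE n P F (a t) (v t)))) := by
      intro t
      rw [hupd, EE_lift α hX]
      rfl
    simp only [h2]
    rw [h1, Finset.card_univ, Fintype.card_fin]
    push_cast
    show 2 * ((k : ℂ) * X.2 * α (fun r => EE n P F (a r) (v r))) = _
    ring
  · intro r _ v
    rw [hupd, EE_EE]
    congr 1
    exact Function.update_eq_self r (fun r' => EE n P F (a r') (v r'))
  · intro r _ s _ hne hq v
    have h1 := α.map_swap (fun r' => EE n P F (a r') (v r')) hne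
    rw [← h1]
    congr 1
    funext t
    rw [Function.comp_apply, Function.comp_apply]
    congr 2
    by_cases ht : t = r
    · subst ht; rw [Equiv.swap_apply_left, hq]
    · by_cases ht' : t = s
      · subst ht'; rw [Equiv.swap_apply_right, hq]
      · rw [Equiv.swap_apply_of_ne_of_ne ht ht']

lemma sum_labels (v : Fin (2 * k) → HW κ n) :
    α v = ∑ a : Fin (2 * k) → At n K, α (fun r => EE n P F (a r) (v r)) := by
  classical
  have h1 : v = fun r => ∑ t : At n K, EE n P F t (v r) := funext fun r =>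
    (sum_EE n P F (v r)).symm
  conv_lhs => rw [h1]
  exact (α : MultilinearMap ℂ (fun _ : Fin (2 * k) => HW κ n) ℂ).map_sum
    (fun r t => EE n P F t (v r))

theorem family_H (Bg : At n K → Prop)
    (hB : ∀ a, Bg a → Nonempty (Big
      (symG n P (α : MultilinearMap ℂ (fun _ : Fin (2 * k) => HW κ n) ℂ)) (EE n P F) a))
    (hsmall : ∀ (q : Fin (2 * k) → At n K) (T : Finset (Fin (2 * k)))
      (Φ : (Fin (2 * k) → HW κ n) → ℂ), Even T.card →
      SF (symG n P (α : MultilinearMap ℂ (fun _ : Fin (2 * k) => HW κ n) ℂ)) (EE n P F) q T Φ →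
      (∀ r ∈ T, ¬ Bg (q r)) →
      Φ ∈ PS (invB n P (α : MultilinearMap ℂ (fun _ : Fin (2 * k) => HW κ n) ℂ)) T) :
    (α : MultilinearMap ℂ (fun _ : Fin (2 * k) => HW κ n) ℂ) ∈ Submodule.span ℂ
      {M | ∃ (π : Equiv.Perm (Fin (2 * k))) (β : Fin k → (HW κ n →ₗ[ℂ] HW κ n →ₗ[ℂ] ℂ)),
      (∀ a, β a ∈ invB n P (α : MultilinearMap ℂ (fun _ : Fin (2 * k) => HW κ n) ℂ)) ∧
        M = (prodBilin β).domDomCongr π} := by
  classical
  apply mem_of_PS
  have h1 : (fun v => (α : MultilinearMap ℂ (fun _ : Fin (2 * k) => HW κ n) ℂ) v) =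
      ∑ a : Fin (2 * k) → At n K, (fun v => α (fun r => EE n P F (a r) (v r))) := by
    funext v
    rw [Finset.sum_apply]
    exact sum_labels α v
  rw [h1]
  refine Submodule.sum_mem _ fun a _ => ?_
  rw [← invF_symG]
  refine peel_all Bg hB (fun T Φ hev hΦ hT => ?_) _ Finset.univ _ rfl ?_ (SF_label α a)
  · rw [invF_symG]
    exact hsmall a T Φ hev hΦ hT
  · rw [Finset.card_univ, Fintype.card_fin]
    exact even_two_mul k

end family

end Pool.Agent.Helper8
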