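import Pool.Agent.Helper8.H.BigData2
import Pool.Agent.Helper8.H.Labels

/-!
Invariant forms on a family with relative dimensions one and two: reduction to the small part.
-/

set_option linter.unusedSectionVars false

namespace Pool.Agent.Helper8

open Module NumberField LieAlgebra
open Pool.Agent.Helper7
open Pool.Agent.GPC (Emb IsOdd IsOddModule translate)

attribute [local instance 100] LieRing.ofAssociativeRing

section family

variable {I : Type} [Fintype I] [DecidableEq I] {n : I → ℕ}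
  {κ : I → Type} [∀ i, Fintype (κ i)] [∀ i, DecidableEq (κ i)] {ϖ : ℂ}
  {P : ∀ i, PData (κ i) ϖ}
  {K : I → Type} [∀ i, Field (K i)] [∀ i, NumberField (K i)]
  {F : ∀ i, FS (P i) (K i)}
  {k : ℕ} (α : (HW κ n) [⋀^Fin (2 * k)]→ₗ[ℂ] ℂ)

theorem family_H2
    (hk : IsKilling ℂ (LL n P F (α : MultilinearMap ℂ (fun _ : Fin (2 * k) => HW κ n) ℂ)))
    (hirr : Irr n P F (α : MultilinearMap ℂ (fun _ : Fin (2 * k) => HW κ n) ℂ))
    (p : Principal (LL n P F (α : MultilinearMap ℂ (fun _ : Fin (2 * k) => HW κ n) ℂ)))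
    (hdim : ∀ s : Emb K, (F s.1).isLeft →
      Nontrivial (Vs n P F (α : MultilinearMap ℂ (fun _ : Fin (2 * k) => HW κ n) ℂ) s) →
      IsPl n P F (α : MultilinearMap ℂ (fun _ : Fin (2 * k) => HW κ n) ℂ) s 2 ∨
      IsPl n P F (α : MultilinearMap ℂ (fun _ : Fin (2 * k) => HW κ n) ℂ) s 4)
    (hN : ∀ a b : At n K, pl n a ≠ pl n b →
      IsPl n P F (α : MultilinearMap ℂ (fun _ : Fin (2 * k) => HW κ n) ℂ) (pl n a) 4 →
      IsPl n P F (α : MultilinearMap ℂ (fun _ : Fin (2 * k) => HW κ n) ℂ) (pl n b) 4 →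
      NoPair n P F (α : MultilinearMap ℂ (fun _ : Fin (2 * k) => HW κ n) ℂ) (pl n a) (pl n b))
    (hA : ∀ b : At n K,
      IsPl n P F (α : MultilinearMap ℂ (fun _ : Fin (2 * k) => HW κ n) ℂ) (pl n b) 4 →
      (n b.1 ≤ 1 ∧ ∀ S : Finset (At n K), (∀ a ∈ S,
        IsPl n P F (α : MultilinearMap ℂ (fun _ : Fin (2 * k) => HW κ n) ℂ) (pl n a) 2 ∧
        KerLe n P F (α : MultilinearMap ℂ (fun _ : Fin (2 * k) => HW κ n) ℂ) (pl n b)
          (pl n a)) → S.card ≤ 2) ∨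
      (n b.1 ≤ 2 ∧ ∀ a : At n K,
        IsPl n P F (α : MultilinearMap ℂ (fun _ : Fin (2 * k) => HW κ n) ℂ) (pl n a) 2 →
        ¬ KerLe n P F (α : MultilinearMap ℂ (fun _ : Fin (2 * k) => HW κ n) ℂ) (pl n b)
          (pl n a)))
    (hsmall : ∀ (q : Fin (2 * k) → At n K) (T : Finset (Fin (2 * k)))
      (Φ : (Fin (2 * k) → HW κ n) → ℂ), Even T.card →
      SF (symG n P (α : MultilinearMap ℂ (fun _ : Fin (2 * k) => HW κ n) ℂ)) (EE n P F) q T Φ →
      (∀ r ∈ T, ¬ IsPl n P F (α : MultilinearMap ℂ (fun _ : Fin (2 * k) => HW κ n) ℂ)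
        (pl n (q r)) 4) →
      Φ ∈ PS (invB n P (α : MultilinearMap ℂ (fun _ : Fin (2 * k) => HW κ n) ℂ)) T) :
    (α : MultilinearMap ℂ (fun _ : Fin (2 * k) => HW κ n) ℂ) ∈ Submodule.span ℂ
      {M | ∃ (π : Equiv.Perm (Fin (2 * k))) (β : Fin k → (HW κ n →ₗ[ℂ] HW κ n →ₗ[ℂ] ℂ)),
      (∀ a, β a ∈ invB n P (α : MultilinearMap ℂ (fun _ : Fin (2 * k) => HW κ n) ℂ)) ∧
        M = (prodBilin β).domDomCongr π} := by
  classical
  apply mem_of_PS
  have h1 : (fun v => (α : MultilinearMap ℂ (fun _ : Fin (2 * k) => HW κ n) ℂ) v) =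
      ∑ a : Fin (2 * k) → At n K, (fun v => α (fun r => EE n P F (a r) (v r))) := by
    funext v
    rw [Finset.sum_apply]
    exact sum_labels α v
  rw [h1]
  refine Submodule.sum_mem _ fun a _ => ?_
  rw [← invF_symG]
  refine peel_all2 (fun b => IsPl n P F
    (α : MultilinearMap ℂ (fun _ : Fin (2 * k) => HW κ n) ℂ) (pl n b) 4)
    (fun b hb => ?_) (fun T Φ hev hΦ hT => ?_) Finset.univ _ ?_ (SF_label α a)
  · rcases hA b hb with ⟨h2, h3⟩ | ⟨h2, h3⟩
    · left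
      exact exists_big hk hirr p hdim b hb h2 (fun s hs h4 => hN _ _ (Ne.symm hs) hb h4) h3
    · right
      obtain ⟨i, m, σ⟩ := b
      obtain ⟨D, h4, h5, h6⟩ := exists_fam hk hirr p hdim i σ m hb
        (fun s hs h4 => hN _ _ (Ne.symm hs) hb h4) h3
      exact ⟨D, h4 m, h5.trans h2, h6⟩
  · rw [invF_symG]
    exact hsmall a T Φ hev hΦ hT
  · rw [Finset.card_univ, Fintype.card_fin]
    exact even_two_mul k

end family

end Pool.Agent.Helper8
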