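import Pool.Agent.Helper7.Frames

/-!
Functions of the slots in a finite set: multilinear, invariant, labelled and alternating in the
slots with equal labels.
-/

set_option linter.unusedSectionVars false

namespace Pool.Agent.Helper8

open Pool.Agent.Helper7 (PP)

variable {R W A : Type*} [DecidableEq R] [AddCommGroup W] [Module ℂ W]

/-- invariant bilinear forms for a set of operators with multipliers -/
def invF (𝒢 : Set (Module.End ℂ W × ℂ)) : Set (W →ₗ[ℂ] W →ₗ[ℂ] ℂ) :=
  {β | ∀ X ∈ 𝒢, ∀ u v, β (X.1 u) v + β u (X.1 v) = X.2 * β u v}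

/-- slot functions -/
structure SF (𝒢 : Set (Module.End ℂ W × ℂ)) (E : A → Module.End ℂ W) (q : R → A)
    (T : Finset R) (Φ : (R → W) → ℂ) : Prop where
  dep : ∀ v v', (∀ r ∈ T, v r = v' r) → Φ v = Φ v'
  add : ∀ v, ∀ r ∈ T, ∀ x y, Φ (Function.update v r (x + y)) =
    Φ (Function.update v r x) + Φ (Function.update v r y)
  smul : ∀ v, ∀ r ∈ T, ∀ (c : ℂ) x, Φ (Function.update v r (c • x)) =
    c * Φ (Function.update v r x)
  inv : ∀ X ∈ 𝒢, ∀ v, 2 * ∑ t ∈ T, Φ (Function.update v t (X.1 (v t))) =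
    T.card * X.2 * Φ v
  lab : ∀ r ∈ T, ∀ v, Φ (Function.update v r (E (q r) (v r))) = Φ v
  alt : ∀ r ∈ T, ∀ s ∈ T, r ≠ s → q r = q s → ∀ v, Φ (v ∘ Equiv.swap r s) = - Φ v

section pp

variable {𝓑 : Set (W →ₗ[ℂ] W →ₗ[ℂ] ℂ)}

lemma PP.dep {T : Finset R} {Φ : (R → W) → ℂ} (h : PP 𝓑 T Φ) :
    ∀ v v', (∀ r ∈ T, v r = v' r) → Φ v = Φ v' := by
  induction h with
  | nil => exact fun _ _ _ => rfl
  | cons r r' β _ _ _ _ _ ih =>
    intro v v' hv
    beta_reduce
    rw [ih v v' (fun x hx => hv x (Finset.mem_insert_of_mem (Finset.mem_insert_of_mem hx))),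
      hv r (Finset.mem_insert_self _ _),
      hv r' (Finset.mem_insert_of_mem (Finset.mem_insert_self _ _))]

lemma PP.mul {S T : Finset R} {g Φ : (R → W) → ℂ} (hg : PP 𝓑 S g) (hΦ : PP 𝓑 T Φ)
    (hd : Disjoint S T) : PP 𝓑 (S ∪ T) (fun v => g v * Φ v) := by
  induction hg with
  | nil =>
    have h1 : (fun v : R → W => (1 : ℂ) * Φ v) = Φ := by funext v; rw [one_mul]
    rw [h1, Finset.empty_union]
    exact hΦ
  | @cons S' g' r r' β hβ hg' hr hr' hne ih =>
    rw [Finset.disjoint_insert_left, Finset.disjoint_insert_left] at hd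
    have h1 := ih hd.2.2
    have h2 := PP.cons r r' β hβ h1 (by rw [Finset.mem_union, not_or]; exact ⟨hr, hd.1⟩)
      (by rw [Finset.mem_union, not_or]; exact ⟨hr', hd.2.1⟩) hne
    rw [Finset.insert_union, Finset.insert_union]
    convert h2 using 2
    ring

/-- spans of products -/
def PS (𝓑 : Set (W →ₗ[ℂ] W →ₗ[ℂ] ℂ)) (T : Finset R) : Submodule ℂ ((R → W) → ℂ) :=
  Submodule.span ℂ {Φ | PP 𝓑 T Φ}

lemma PS.mul {S T : Finset R} {g Φ : (R → W) → ℂ} (hg : g ∈ PS 𝓑 S) (hΦ : Φ ∈ PS 𝓑 T)
    (hd : Disjoint S T) : (fun v => g v * Φ v) ∈ PS 𝓑 (S ∪ T) := by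
  refine Submodule.span_induction (p := fun g _ => (fun v => g v * Φ v) ∈ PS 𝓑 (S ∪ T))
    ?_ ?_ ?_ ?_ hg
  · intro g hg
    refine Submodule.span_induction (p := fun Φ _ => (fun v => g v * Φ v) ∈ PS 𝓑 (S ∪ T))
      ?_ ?_ ?_ ?_ hΦ
    · intro Φ hΦ
      exact Submodule.subset_span (PP.mul hg hΦ hd)
    · have h : (fun v : R → W => g v * (0 : (R → W) → ℂ) v) = 0 := by funext v; simp
      rw [h]; exact Submodule.zero_mem _
    · intro x y _ _ hx hy
      have h : (fun v : R → W => g v * (x + y) v) = (fun v => g v * x v) + (fun v => g v * y v) := by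
        funext v; simp only [Pi.add_apply]; ring
      rw [h]; exact Submodule.add_mem _ hx hy
    · intro c x _ hx
      have h : (fun v : R → W => g v * (c • x) v) = c • (fun v => g v * x v) := by
        funext v; simp only [Pi.smul_apply, smul_eq_mul]; ring
      rw [h]; exact Submodule.smul_mem _ _ hx
  · have h : (fun v : R → W => (0 : (R → W) → ℂ) v * Φ v) = 0 := by funext v; simp
    rw [h]; exact Submodule.zero_mem _
  · intro x y _ _ hx hy
    have h : (fun v : R → W => (x + y) v * Φ v) = (fun v => x v * Φ v) + (fun v => y v * Φ v) := by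
      funext v; simp only [Pi.add_apply]; ring
    rw [h]; exact Submodule.add_mem _ hx hy
  · intro c x _ hx
    have h : (fun v : R → W => (c • x) v * Φ v) = c • (fun v => x v * Φ v) := by
      funext v; simp only [Pi.smul_apply, smul_eq_mul]; ring
    rw [h]; exact Submodule.smul_mem _ _ hx

lemma PP.inv {𝒢 : Set (Module.End ℂ W × ℂ)} {T : Finset R} {Φ : (R → W) → ℂ}
    (h : PP (invF 𝒢) T Φ) (X : Module.End ℂ W × ℂ) (hX : X ∈ 𝒢) (v : R → W) :
    2 * ∑ t ∈ T, Φ (Function.update v t (X.1 (v t))) = T.card * X.2 * Φ v := by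
  induction h with
  | nil => simp
  | @cons T' Φ' r r' β hβ hΦ hr hr' hne ih =>
    rw [Finset.sum_insert (by rw [Finset.mem_insert, not_or]; exact ⟨hne, hr⟩),
      Finset.sum_insert hr', Finset.card_insert_of_notMem (by
        rw [Finset.mem_insert, not_or]; exact ⟨hne, hr⟩), Finset.card_insert_of_notMem hr']
    have e1 : β (Function.update v r (X.1 (v r)) r) (Function.update v r (X.1 (v r)) r') *
        Φ' (Function.update v r (X.1 (v r))) = β (X.1 (v r)) (v r') * Φ' v := by
      rw [Function.update_self, Function.update_of_ne (Ne.symm hne)]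
      congr 1
      refine PP.dep hΦ _ _ fun x hx => ?_
      rw [Function.update_of_ne]
      rintro rfl; exact hr hx
    have e2 : β (Function.update v r' (X.1 (v r')) r) (Function.update v r' (X.1 (v r')) r') *
        Φ' (Function.update v r' (X.1 (v r'))) = β (v r) (X.1 (v r')) * Φ' v := by
      rw [Function.update_self, Function.update_of_ne hne]
      congr 1
      refine PP.dep hΦ _ _ fun x hx => ?_
      rw [Function.update_of_ne]
      rintro rfl; exact hr' hx
    have e3 : ∑ t ∈ T', β (Function.update v t (X.1 (v t)) r)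
        (Function.update v t (X.1 (v t)) r') * Φ' (Function.update v t (X.1 (v t))) =
        β (v r) (v r') * ∑ t ∈ T', Φ' (Function.update v t (X.1 (v t))) := by
      rw [Finset.mul_sum]
      refine Finset.sum_congr rfl fun t ht => ?_
      have h1 : r ≠ t := by rintro rfl; exact hr ht
      have h2 : r' ≠ t := by rintro rfl; exact hr' ht
      rw [Function.update_of_ne h1, Function.update_of_ne h2]
    beta_reduce
    rw [e1, e2, e3]
    have h4 := hβ X hX (v r) (v r')
    push_cast
    linear_combination (2 * Φ' v) * h4 + (β (v r) (v r')) * ih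

lemma PS.inv {𝒢 : Set (Module.End ℂ W × ℂ)} {T : Finset R} {Φ : (R → W) → ℂ}
    (h : Φ ∈ PS (invF 𝒢) T) (X : Module.End ℂ W × ℂ) (hX : X ∈ 𝒢) (v : R → W) :
    2 * ∑ t ∈ T, Φ (Function.update v t (X.1 (v t))) = T.card * X.2 * Φ v := by
  refine Submodule.span_induction (p := fun Φ _ =>
    2 * ∑ t ∈ T, Φ (Function.update v t (X.1 (v t))) = T.card * X.2 * Φ v) ?_ ?_ ?_ ?_ h
  · exact fun Φ hΦ => PP.inv hΦ X hX v
  · simp
  · intro x y _ _ hx hy
    simp only [Pi.add_apply, Finset.sum_add_distrib]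
    linear_combination hx + hy
  · intro c x _ hx
    simp only [Pi.smul_apply, smul_eq_mul, ← Finset.mul_sum]
    linear_combination c * hx

end pp

section factor

variable {𝒢 : Set (Module.End ℂ W × ℂ)} {E : A → Module.End ℂ W} {q : R → A} {T : Finset R}
  {Φ : (R → W) → ℂ}

lemma piecewise_update (S : Finset R) (x v : R → W) (t : R) (ht : t ∉ S) (w : W) :
    S.piecewise x (Function.update v t w) = Function.update (S.piecewise x v) t w := by
  funext r
  by_cases hr : r = t
  · subst hr
    rw [Function.update_self, Finset.piecewise_eq_of_notMem _ _ _ ht, Function.update_self]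
  · rw [Function.update_of_ne hr]
    by_cases hrS : r ∈ S
    · rw [Finset.piecewise_eq_of_mem _ _ _ hrS, Finset.piecewise_eq_of_mem _ _ _ hrS]
    · rw [Finset.piecewise_eq_of_notMem _ _ _ hrS, Finset.piecewise_eq_of_notMem _ _ _ hrS,
        Function.update_of_ne hr]

lemma piecewise_update' (S : Finset R) (x v : R → W) (t : R) (ht : t ∈ S) (w : W) :
    S.piecewise x (Function.update v t w) = S.piecewise x v := by
  funext r
  by_cases hrS : r ∈ S
  · rw [Finset.piecewise_eq_of_mem _ _ _ hrS, Finset.piecewise_eq_of_mem _ _ _ hrS]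
  · rw [Finset.piecewise_eq_of_notMem _ _ _ hrS, Finset.piecewise_eq_of_notMem _ _ _ hrS,
      Function.update_of_ne]
    rintro rfl; exact hrS ht

/-- substitution in the slots of a subset: everything except the invariance -/
structure SF0 (E : A → Module.End ℂ W) (q : R → A)
    (T : Finset R) (Φ : (R → W) → ℂ) : Prop where
  dep : ∀ v v', (∀ r ∈ T, v r = v' r) → Φ v = Φ v'
  add : ∀ v, ∀ r ∈ T, ∀ x y, Φ (Function.update v r (x + y)) =
    Φ (Function.update v r x) + Φ (Function.update v r y)
  smul : ∀ v, ∀ r ∈ T, ∀ (c : ℂ) x, Φ (Function.update v r (c • x)) =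
    c * Φ (Function.update v r x)
  lab : ∀ r ∈ T, ∀ v, Φ (Function.update v r (E (q r) (v r))) = Φ v
  alt : ∀ r ∈ T, ∀ s ∈ T, r ≠ s → q r = q s → ∀ v, Φ (v ∘ Equiv.swap r s) = - Φ v

lemma SF.toSF0 (h : SF 𝒢 E q T Φ) : SF0 E q T Φ := ⟨h.dep, h.add, h.smul, h.lab, h.alt⟩

lemma SF0.zero (h : SF0 E q T Φ) (v : R → W) (r : R) (hr : r ∈ T) (hv : v r = 0) : Φ v = 0 := by
  have h1 := h.smul v r hr 0 0
  rw [zero_smul, zero_mul] at h1
  rw [← h1]
  congr 1
  funext t
  by_cases ht : t = r
  · subst ht; rw [Function.update_self, hv]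
  · rw [Function.update_of_ne ht]

lemma SF0.sum (h : SF0 E q T Φ) (v : R → W) (r : R) (hr : r ∈ T) {ι : Type*} (s : Finset ι)
    (c : ι → ℂ) (x : ι → W) : Φ (Function.update v r (∑ j ∈ s, c j • x j)) =
    ∑ j ∈ s, c j * Φ (Function.update v r (x j)) := by
  classical
  induction s using Finset.induction_on with
  | empty =>
    rw [Finset.sum_empty, Finset.sum_empty]
    exact h.zero _ r hr (Function.update_self _ _ _)
  | insert a s ha ih => rw [Finset.sum_insert ha, Finset.sum_insert ha, h.add _ _ hr, h.smul _ _ hr,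
      ih]

lemma SF0.eq_zero_of_eq (h : SF0 E q T Φ) (v : R → W) (r s : R) (hr : r ∈ T) (hs : s ∈ T)
    (hne : r ≠ s) (hq : q r = q s) (hv : v r = v s) : Φ v = 0 := by
  have h1 := h.alt r hr s hs hne hq v
  have h2 : v ∘ Equiv.swap r s = v := by
    funext t
    show v (Equiv.swap r s t) = v t
    by_cases ht : t = r
    · subst ht; rw [Equiv.swap_apply_left, hv]
    · by_cases ht' : t = s
      · subst ht'; rw [Equiv.swap_apply_right, hv]
      · rw [Equiv.swap_apply_of_ne_of_ne ht ht']
  rw [h2] at h1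
  have h3 : (2 : ℂ) * Φ v = 0 := by linear_combination h1
  exact (mul_eq_zero.mp h3).resolve_left two_ne_zero

lemma SF0.sub_slots (h : SF0 E q T Φ) (S : Finset R) (x : R → W) :
    SF0 E q (T \ S) (fun v => Φ (S.piecewise x v)) where
  dep v v' hv := by
    refine h.dep _ _ fun r hr => ?_
    by_cases hrS : r ∈ S
    · rw [Finset.piecewise_eq_of_mem _ _ _ hrS, Finset.piecewise_eq_of_mem _ _ _ hrS]
    · rw [Finset.piecewise_eq_of_notMem _ _ _ hrS, Finset.piecewise_eq_of_notMem _ _ _ hrS]
      exact hv r (Finset.mem_sdiff.mpr ⟨hr, hrS⟩)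
  add v r hr a b := by
    rw [Finset.mem_sdiff] at hr
    simp only [piecewise_update S x v r hr.2]
    exact h.add _ r hr.1 a b
  smul v r hr c a := by
    rw [Finset.mem_sdiff] at hr
    simp only [piecewise_update S x v r hr.2]
    exact h.smul _ r hr.1 c a
  lab r hr v := by
    rw [Finset.mem_sdiff] at hr
    have h1 := h.lab r hr.1 (S.piecewise x v)
    rw [Finset.piecewise_eq_of_notMem _ _ _ hr.2] at h1
    simp only [piecewise_update S x v r hr.2]
    exact h1
  alt r hr s hs hne hq v := by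
    rw [Finset.mem_sdiff] at hr hs
    have h1 := h.alt r hr.1 s hs.1 hne hq (S.piecewise x v)
    have h2 : (S.piecewise x v) ∘ Equiv.swap r s = S.piecewise x (v ∘ Equiv.swap r s) := by
      funext t
      by_cases ht : t = r
      · subst ht
        rw [Function.comp_apply, Equiv.swap_apply_left,
          Finset.piecewise_eq_of_notMem _ _ _ hs.2, Finset.piecewise_eq_of_notMem _ _ _ hr.2,
          Function.comp_apply, Equiv.swap_apply_left]
      · by_cases ht' : t = s
        · subst ht'
          rw [Function.comp_apply, Equiv.swap_apply_right,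
            Finset.piecewise_eq_of_notMem _ _ _ hs.2, Finset.piecewise_eq_of_notMem _ _ _ hr.2,
            Function.comp_apply, Equiv.swap_apply_right]
        · rw [Function.comp_apply, Equiv.swap_apply_of_ne_of_ne ht ht']
          by_cases htS : t ∈ S
          · rw [Finset.piecewise_eq_of_mem _ _ _ htS, Finset.piecewise_eq_of_mem _ _ _ htS]
          · rw [Finset.piecewise_eq_of_notMem _ _ _ htS, Finset.piecewise_eq_of_notMem _ _ _ htS,
              Function.comp_apply, Equiv.swap_apply_of_ne_of_ne ht ht']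
    rw [h2] at h1
    exact h1

/-- if a slot function is a product of an invariant of the slots in `S` with a function of the
others then the second factor is again a slot function -/
lemma SF.factor (h : SF 𝒢 E q T Φ) (S : Finset R) (hS : S ⊆ T) (x : R → W) (g : (R → W) → ℂ)
    (hg : g ∈ PS (invF 𝒢) S) (hg1 : ∀ v, g (S.piecewise x v) = 1)
    (hΦ : ∀ v, Φ v = g v * Φ (S.piecewise x v)) :
    SF 𝒢 E q (T \ S) (fun v => Φ (S.piecewise x v)) where
  dep := (h.toSF0.sub_slots S x).dep
  add := (h.toSF0.sub_slots S x).add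
  smul := (h.toSF0.sub_slots S x).smul
  lab := (h.toSF0.sub_slots S x).lab
  alt := (h.toSF0.sub_slots S x).alt
  inv X hX v := by
    have h1 := h.inv X hX (S.piecewise x v)
    have h2 := PS.inv hg X hX (S.piecewise x v)
    rw [hg1] at h2
    have hsplit : ∑ t ∈ T, Φ (Function.update (S.piecewise x v) t (X.1 (S.piecewise x v t))) =
        ∑ t ∈ T \ S, Φ (S.piecewise x (Function.update v t (X.1 (v t)))) +
        (∑ t ∈ S, g (Function.update (S.piecewise x v) t (X.1 (S.piecewise x v t)))) *
          Φ (S.piecewise x v) := by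
      rw [← Finset.sum_sdiff hS]
      congr 1
      · refine Finset.sum_congr rfl fun t ht => ?_
        rw [Finset.mem_sdiff] at ht
        rw [piecewise_update S x v t ht.2, Finset.piecewise_eq_of_notMem _ _ _ ht.2]
      · rw [Finset.sum_mul]
        refine Finset.sum_congr rfl fun t ht => ?_
        rw [hΦ, piecewise_update' S x _ t ht]
        congr 2
        funext r
        by_cases hrS : r ∈ S
        · rw [Finset.piecewise_eq_of_mem _ _ _ hrS, Finset.piecewise_eq_of_mem _ _ _ hrS]
        · rw [Finset.piecewise_eq_of_notMem _ _ _ hrS]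
    rw [hsplit] at h1
    have hcard : ((T \ S).card : ℂ) = T.card - S.card := by
      rw [Finset.card_sdiff_of_subset hS, Nat.cast_sub (Finset.card_le_card hS)]
    rw [hcard]
    linear_combination h1 - (Φ (S.piecewise x v)) * h2

lemma SF.mem_of_factor (S : Finset R) (hS : S ⊆ T) (x : R → W) (g : (R → W) → ℂ)
    (hg : g ∈ PS (invF 𝒢) S) (hΦ : ∀ v, Φ v = g v * Φ (S.piecewise x v))
    (h' : (fun v => Φ (S.piecewise x v)) ∈ PS (invF 𝒢) (T \ S)) : Φ ∈ PS (invF 𝒢) T := by
  have h1 := PS.mul hg h' Finset.disjoint_sdiff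
  rw [Finset.union_sdiff_of_subset hS] at h1
  have h2 : Φ = fun v => g v * Φ (S.piecewise x v) := funext hΦ
  rw [h2]
  exact h1

end factor

end Pool.Agent.Helper8
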