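import Pool.Agent.Helper8.H.Peel4

/-!
Peeling off all labels with spaces of dimension four.
-/

set_option linter.unusedSectionVars false

namespace Pool.Agent.Helper8

open Pool.Agent.Helper7 (PP)

variable {R W A : Type*} [DecidableEq R] [AddCommGroup W] [Module ℂ W]
variable {𝒢 : Set (Module.End ℂ W × ℂ)} {E : A → Module.End ℂ W} {q : R → A} [DecidableEq A]

lemma card_four {S : Finset R} (h : S.card = 4) : ∃ r s u x : R, r ≠ s ∧ r ≠ u ∧ r ≠ x ∧ s ≠ u ∧
    s ≠ x ∧ u ≠ x ∧ S = {r, s, u, x} := by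
  obtain ⟨r, t, hr, rfl, ht⟩ := Finset.card_eq_succ.mp h
  obtain ⟨s, u, x, hsu, hsx, hux, rfl⟩ := Finset.card_eq_three.mp ht
  simp only [Finset.mem_insert, Finset.mem_singleton, not_or] at hr
  exact ⟨r, s, u, x, hr.1, hr.2.1, hr.2.2, hsu, hsx, hux, rfl⟩

theorem peel_all (Bg : A → Prop) (hB : ∀ a, Bg a → Nonempty (Big 𝒢 E a))
    (hsmall : ∀ (T : Finset R) (Φ : (R → W) → ℂ), Even T.card → SF 𝒢 E q T Φ →
      (∀ r ∈ T, ¬ Bg (q r)) → Φ ∈ PS (invF 𝒢) T) :
    ∀ (N : ℕ) (T : Finset R) (Φ : (R → W) → ℂ), T.card = N → Even T.card → SF 𝒢 E q T Φ →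
      Φ ∈ PS (invF 𝒢) T := by
  intro N
  induction N using Nat.strong_induction_on with
  | _ N ih =>
    intro T Φ hN heven h
    by_cases hall : ∀ r ∈ T, ¬ Bg (q r)
    · exact hsmall T Φ heven h hall
    push Not at hall
    obtain ⟨r0, hr0, hb⟩ := hall
    obtain ⟨B⟩ := hB _ hb
    obtain ⟨S, hS⟩ : ∃ S, S = T.filter (fun r => q r = q r0) := ⟨_, rfl⟩
    have hST : S ⊆ T := by rw [hS]; exact Finset.filter_subset _ _
    have hSq : ∀ r ∈ S, q r = q r0 := by
      intro r hr; rw [hS, Finset.mem_filter] at hr; exact hr.2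
    have hSq' : ∀ r ∈ T, r ∉ S → q r ≠ q r0 := by
      intro r hr hrS hq
      exact hrS (by rw [hS, Finset.mem_filter]; exact ⟨hr, hq⟩)
    have hr0S : r0 ∈ S := by rw [hS, Finset.mem_filter]; exact ⟨hr0, rfl⟩
    have hpos : 0 < S.card := Finset.card_pos.mpr ⟨r0, hr0S⟩
    have hzero : (∀ v, Φ v = 0) → Φ ∈ PS (invF 𝒢) T := by
      intro h0
      have h1 : Φ = 0 := funext h0
      rw [h1]; exact Submodule.zero_mem _
    have hlt : (T \ S).card < N := by
      rw [← hN, Finset.card_sdiff_of_subset hST]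
      have := Finset.card_le_card hST
      omega
    have hev : Even S.card → Even (T \ S).card := by
      intro h1
      rw [Finset.card_sdiff_of_subset hST]
      exact (Nat.even_sub (Finset.card_le_card hST)).mpr ⟨fun _ => h1, fun _ => heven⟩
    -- the reduction step
    have hred : ∀ (y : R → Fin 4) (g : (R → W) → ℂ), Even S.card → g ∈ PS (invF 𝒢) S →
        (∀ v, g (B.ins S y v) = 1) → (∀ v, Φ v = g v * Φ (B.ins S y v)) →
        Φ ∈ PS (invF 𝒢) T := by
      intro y g he hg h1 h2
      have h3 := h.factor S hST (fun r => B.c4 (y r)) g hg h1 h2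
      exact SF.mem_of_factor S hST (fun r => B.c4 (y r)) g hg h2
        (ih _ hlt _ _ rfl (hev he) h3)
    rcases Nat.lt_or_ge 4 S.card with h5 | h5
    · exact hzero (B.peel5 h hST hSq h5)
    have hcases : S.card = 1 ∨ S.card = 2 ∨ S.card = 3 ∨ S.card = 4 := by omega
    rcases hcases with hc | hc | hc | hc
    · obtain ⟨r, hr⟩ := Finset.card_eq_one.mp hc
      exact hzero (B.peel1 h hST hSq hSq' r hr)
    · obtain ⟨r, s, hrs, hS2⟩ := Finset.card_eq_two.mp hc
      have hr : r ∈ S := by rw [hS2]; simp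
      have hs : s ∈ S := by rw [hS2]; simp
      refine hred (y2 r 0 3) (fun v => B.ω (v r) (v s)) (by rw [hc]; decide) ?_ (fun v => ?_)
        (fun v => B.peel2 h hST hSq hSq' r s hrs hS2 v)
      · apply Submodule.subset_span
        have h1 := PP.cons r s B.ω B.hω (PP.nil (R := R) (𝓑 := invF 𝒢)) (by simp) (by simp) hrs
        have h4 : (fun v : R → W => B.ω (v r) (v s) * 1) = fun v => B.ω (v r) (v s) := by
          funext v; ring
        rw [h4] at h1
        rw [hS2]
        exact h1
      · have e1 : B.ins S (y2 r 0 3) v r = B.c4 0 := by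
          unfold Big.ins
          rw [Finset.piecewise_eq_of_mem _ _ _ hr]
          unfold y2
          rw [if_pos rfl]
        have e2 : B.ins S (y2 r 0 3) v s = B.c4 3 := by
          unfold Big.ins
          rw [Finset.piecewise_eq_of_mem _ _ _ hs]
          unfold y2
          rw [if_neg (Ne.symm hrs)]
        rw [e1, e2, B.ωc]
        have h6 : g4 0 3 = 1 := by decide
        rw [h6]; simp
    · obtain ⟨r, s, u, hrs, hru, hsu, hS3⟩ := Finset.card_eq_three.mp hc
      exact hzero (B.peel3 h hST hSq hSq' r s u hrs hru hsu hS3)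
    · obtain ⟨r, s, u, x, hrs, hru, hrx, hsu, hsx, hux, hS4⟩ := card_four hc
      have hr : r ∈ S := by rw [hS4]; simp
      have hs : s ∈ S := by rw [hS4]; simp
      have hu : u ∈ S := by rw [hS4]; simp
      have hx : x ∈ S := by rw [hS4]; simp
      refine hred (y4 r s u 0 1 2 3) (B.gg r s u x) (by rw [hc]; decide) ?_ (fun v => ?_)
        (fun v => B.peel4 h hST hSq r s u x hrs hru hrx hsu hsx hux hS4 v)
      · have h1 := B.gg_mem r s u x hrs hru hrx hsu hsx hux
        rw [hS4]
        exact h1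
      · have e1 : B.ins S (y4 r s u 0 1 2 3) v r = B.c4 0 := by
          unfold Big.ins
          rw [Finset.piecewise_eq_of_mem _ _ _ hr]
          unfold y4
          rw [if_pos rfl]
        have e2 : B.ins S (y4 r s u 0 1 2 3) v s = B.c4 1 := by
          unfold Big.ins
          rw [Finset.piecewise_eq_of_mem _ _ _ hs]
          unfold y4
          rw [if_neg (Ne.symm hrs), if_pos rfl]
        have e3 : B.ins S (y4 r s u 0 1 2 3) v u = B.c4 2 := by
          unfold Big.ins
          rw [Finset.piecewise_eq_of_mem _ _ _ hu]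
          unfold y4
          rw [if_neg (Ne.symm hru), if_neg (Ne.symm hsu), if_pos rfl]
        have e4 : B.ins S (y4 r s u 0 1 2 3) v x = B.c4 3 := by
          unfold Big.ins
          rw [Finset.piecewise_eq_of_mem _ _ _ hx]
          unfold y4
          rw [if_neg (Ne.symm hrx), if_neg (Ne.symm hsx), if_neg (Ne.symm hux)]
        unfold Big.gg
        rw [e1, e2, e3, e4, B.ωc, B.ωc, B.ωc, B.ωc, B.ωc, B.ωc]
        have g01 : g4 0 1 = 0 := by decide
        have g02 : g4 0 2 = 0 := by decide
        have g03 : g4 0 3 = 1 := by decide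
        have g12 : g4 1 2 = -1 := by decide
        have g13 : g4 1 3 = 0 := by decide
        have g23 : g4 2 3 = 0 := by decide
        rw [g01, g02, g03, g12, g13, g23]
        push_cast; ring

end Pool.Agent.Helper8
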