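import Pool.Agent.Helper8.H.Quad
import Pool.Agent.Helper8.H.PeelAll

/-!
Peeling off all labels with spaces of dimension four, with pairs of isomorphic labels.
-/

set_option linter.unusedSectionVars false

namespace Pool.Agent.Helper8

open Pool.Agent.Helper7 (PP)

variable {R W A : Type*} [DecidableEq R] [AddCommGroup W] [Module ℂ W]
variable {𝒢 : Set (Module.End ℂ W × ℂ)} {E : A → Module.End ℂ W} {q : R → A} [DecidableEq A]

/-- the step for labels in a set of at most two isomorphic labels -/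
theorem Fam4.step {D : Finset A} (B : Fam4 𝒢 E D) (hD : D.card ≤ 2) (T : Finset R)
    (Φ : (R → W) → ℂ) (heven : Even T.card) (h : SF 𝒢 E q T Φ) (r0 : R) (hr0 : r0 ∈ T)
    (hb : q r0 ∈ D)
    (ih : ∀ (T' : Finset R) (Φ : (R → W) → ℂ), T' ⊆ T → T'.card < T.card → Even T'.card →
      SF 𝒢 E q T' Φ → Φ ∈ PS (invF 𝒢) T') : Φ ∈ PS (invF 𝒢) T := by
  by_cases h3 : ∃ a ∈ D, 3 ≤ (T.filter (fun r => q r = a)).card
  · obtain ⟨a, ha, h3⟩ := h3
    obtain ⟨U, hU, hUc⟩ := Finset.exists_subset_card_eq h3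
    obtain ⟨r, s, u, hrs, hru, hsu, rfl⟩ := Finset.card_eq_three.mp hUc
    have hr := Finset.mem_filter.mp (hU (by simp : r ∈ ({r, s, u} : Finset R)))
    have hs := Finset.mem_filter.mp (hU (by simp : s ∈ ({r, s, u} : Finset R)))
    have hu := Finset.mem_filter.mp (hU (by simp : u ∈ ({r, s, u} : Finset R)))
    refine (B.lab a ha).mem_of_con h r s u hr.1 hs.1 hu.1 hrs hru hsu hr.2 hs.2 hu.2 ?_
    have hsub : ({r, s} : Finset R) ⊆ T := by
      intro t ht
      rcases Finset.mem_insert.mp ht with rfl | ht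
      · exact hr.1
      · rw [Finset.mem_singleton] at ht
        rw [ht]; exact hs.1
    have hc2 : ({r, s} : Finset R).card = 2 := Finset.card_pair hrs
    have hle := Finset.card_le_card hsub
    refine ih _ _ Finset.sdiff_subset ?_ ?_ ((B.lab a ha).con_sf h r s hr.1 hs.1 hrs hr.2 hs.2)
    · rw [Finset.card_sdiff_of_subset hsub]
      omega
    · rw [Finset.card_sdiff_of_subset hsub]
      exact (Nat.even_sub hle).mpr ⟨fun _ => by rw [hc2]; decide, fun _ => heven⟩
  push Not at h3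
  obtain ⟨S, hS⟩ : ∃ S, S = T.filter (fun r => q r ∈ D) := ⟨_, rfl⟩
  have hST : S ⊆ T := by rw [hS]; exact Finset.filter_subset _ _
  have hSq : ∀ r ∈ S, q r ∈ D := by
    intro r hr; rw [hS, Finset.mem_filter] at hr; exact hr.2
  have hSq' : ∀ r ∈ T, r ∉ S → q r ∉ D := by
    intro r hr hrS hq
    exact hrS (by rw [hS, Finset.mem_filter]; exact ⟨hr, hq⟩)
  have hr0S : r0 ∈ S := by rw [hS, Finset.mem_filter]; exact ⟨hr0, hb⟩
  have hpos : 0 < S.card := Finset.card_pos.mpr ⟨r0, hr0S⟩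
  have hfib : ∀ a ∈ D, (S.filter (fun r => q r = a)).card ≤ 2 := by
    intro a ha
    refine le_trans (Finset.card_le_card ?_) (Nat.le_of_lt_succ (h3 a ha))
    exact Finset.filter_subset_filter _ hST
  have hcard : S.card = ∑ a ∈ D, (S.filter (fun r => q r = a)).card :=
    Finset.card_eq_sum_card_fiberwise (fun r hr => hSq r hr)
  have hcard4 : S.card ≤ 4 := by
    rw [hcard]
    refine (Finset.sum_le_card_nsmul D _ 2 hfib).trans ?_
    rw [smul_eq_mul]; omega
  have hzero : (∀ v, Φ v = 0) → Φ ∈ PS (invF 𝒢) T := by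
    intro h0
    have h1 : Φ = 0 := funext h0
    rw [h1]; exact Submodule.zero_mem _
  have hlt : (T \ S).card < T.card := by
    rw [Finset.card_sdiff_of_subset hST]
    have := Finset.card_le_card hST
    omega
  have hev : Even S.card → Even (T \ S).card := by
    intro h1
    rw [Finset.card_sdiff_of_subset hST]
    exact (Nat.even_sub (Finset.card_le_card hST)).mpr ⟨fun _ => h1, fun _ => heven⟩
  have hcases : S.card = 1 ∨ S.card = 2 ∨ S.card = 3 ∨ S.card = 4 := by omega
  rcases hcases with hc | hc | hc | hc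
  · exact hzero (B.odd_zero h hST hSq hSq' (by rw [hc]; decide))
  · obtain ⟨r, s, hrs, hS2⟩ := Finset.card_eq_two.mp hc
    have hr : r ∈ S := by rw [hS2]; simp
    have hs : s ∈ S := by rw [hS2]; simp
    obtain ⟨g, hg⟩ : ∃ g : (R → W) → ℂ, g = fun v => B.ω (q r) (q s) (v r) (v s) := ⟨_, rfl⟩
    have hgm : g ∈ PS (invF 𝒢) S := by
      rw [hg]
      apply Submodule.subset_span
      have h1 := PP.cons r s (B.ω (q r) (q s)) (B.hω _ (hSq r hr) _ (hSq s hs))
        (PP.nil (R := R) (𝓑 := invF 𝒢)) (by simp) (by simp) hrs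
      have h4 : (fun v : R → W => B.ω (q r) (q s) (v r) (v s) * 1) =
          fun v => B.ω (q r) (q s) (v r) (v s) := by
        funext v; ring
      rw [h4] at h1
      rw [hS2]
      exact h1
    have hΦ : ∀ v, Φ v = g v * Φ (B.ins q S (y2 r 0 3) v) := by
      intro v
      rw [hg]
      exact B.pair h hST hSq hSq' r s hrs hS2 v
    have hg1 : ∀ v, g (B.ins q S (y2 r 0 3) v) = 1 := by
      intro v
      have e1 : B.ins q S (y2 r 0 3) v r = B.c4 (q r) 0 := by
        unfold Fam4.ins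
        rw [Finset.piecewise_eq_of_mem _ _ _ hr]
        unfold y2
        rw [if_pos rfl]
      have e2 : B.ins q S (y2 r 0 3) v s = B.c4 (q s) 3 := by
        unfold Fam4.ins
        rw [Finset.piecewise_eq_of_mem _ _ _ hs]
        unfold y2
        rw [if_neg (Ne.symm hrs)]
      rw [hg]
      show B.ω (q r) (q s) (B.ins q S (y2 r 0 3) v r) (B.ins q S (y2 r 0 3) v s) = 1
      rw [e1, e2, B.ωc _ (hSq r hr) _ (hSq s hs)]
      have h6 : g4 0 3 = 1 := by decide
      rw [h6]; simp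
    have h3 := h.factor S hST (fun r' => B.c4 (q r') (y2 r 0 3 r')) g hgm hg1 hΦ
    exact SF.mem_of_factor S hST (fun r' => B.c4 (q r') (y2 r 0 3 r')) g hgm hΦ
      (ih _ _ Finset.sdiff_subset hlt (hev (by rw [hc]; decide)) h3)
  · exact hzero (B.odd_zero h hST hSq hSq' (by rw [hc]; decide))
  · -- four slots: two labels with two slots each
    have hfull : ∀ a ∈ D, (S.filter (fun r => q r = a)).card = 2 ∧ D.card = 2 := by
      intro a ha
      have h1 : ∑ a ∈ D, (S.filter (fun r => q r = a)).card = 4 := by rw [← hcard, hc]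
      have h2 := Finset.add_sum_erase D (fun a => (S.filter (fun r => q r = a)).card) ha
      have h4 : ∑ a ∈ D.erase a, (S.filter (fun r => q r = a)).card ≤ (D.erase a).card • 2 :=
        Finset.sum_le_card_nsmul _ _ 2 (fun a ha => hfib a (Finset.mem_of_mem_erase ha))
      have h5 := hfib a ha
      rw [Finset.card_erase_of_mem ha, smul_eq_mul] at h4
      have h6 : 0 < D.card := Finset.card_pos.mpr ⟨a, ha⟩
      rw [h1] at h2
      constructor <;> omega
    obtain ⟨a, a', haa, hD2⟩ := Finset.card_eq_two.mp (hfull _ hb).2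
    have ha : a ∈ D := by rw [hD2]; simp
    have ha' : a' ∈ D := by rw [hD2]; simp
    obtain ⟨r, s, hrs, h1⟩ := Finset.card_eq_two.mp (hfull a ha).1
    obtain ⟨u, x, hux, h2⟩ := Finset.card_eq_two.mp (hfull a' ha').1
    have hr := Finset.mem_filter.mp (by rw [h1]; simp : r ∈ S.filter (fun r => q r = a))
    have hs := Finset.mem_filter.mp (by rw [h1]; simp : s ∈ S.filter (fun r => q r = a))
    have hu := Finset.mem_filter.mp (by rw [h2]; simp : u ∈ S.filter (fun r => q r = a'))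
    have hx := Finset.mem_filter.mp (by rw [h2]; simp : x ∈ S.filter (fun r => q r = a'))
    have hne : ∀ t t' : R, q t = a → q t' = a' → t ≠ t' := by
      intro t t' h1 h2 h3
      rw [h3, h2] at h1
      exact haa h1.symm
    have hru := hne r u hr.2 hu.2
    have hrx := hne r x hr.2 hx.2
    have hsu := hne s u hs.2 hu.2
    have hsx := hne s x hs.2 hx.2
    have hS4 : S = {r, s, u, x} := by
      ext t
      constructor
      · intro ht
        have h4 := hSq t ht
        rw [hD2, Finset.mem_insert, Finset.mem_singleton] at h4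
        rcases h4 with h4 | h4
        · have h5 : t ∈ S.filter (fun r => q r = a) := Finset.mem_filter.mpr ⟨ht, h4⟩
          rw [h1] at h5
          simp only [Finset.mem_insert, Finset.mem_singleton] at h5 ⊢
          tauto
        · have h5 : t ∈ S.filter (fun r => q r = a') := Finset.mem_filter.mpr ⟨ht, h4⟩
          rw [h2] at h5
          simp only [Finset.mem_insert, Finset.mem_singleton] at h5 ⊢
          tauto
      · intro ht
        simp only [Finset.mem_insert, Finset.mem_singleton] at ht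
        rcases ht with rfl | rfl | rfl | rfl
        · exact hr.1
        · exact hs.1
        · exact hu.1
        · exact hx.1
    have hq1 : q r = q s := hr.2.trans hs.2.symm
    have hq2 : q u = q x := hu.2.trans hx.2.symm
    have hqr := hSq r hr.1
    have hqs := hSq s hs.1
    have hqu := hSq u hu.1
    have hqx := hSq x hx.1
    have hquad := fun v => B.quad h hST hSq hSq' r s u x hrs hru hrx hsu hsx hux hS4 hq1 hq2 v
    obtain ⟨m1, m2⟩ := B.g1_mem r s u x hrs hru hrx hsu hsx hux hqr hqs hqu hqx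
    rw [← hS4] at m1 m2
    have ev : ∀ i j k l v, B.g1 q r s u x (B.ins q S (y4 r s u i j k l) v) =
        (g4 i j : ℂ) * g4 k l ∧ B.g2 q r s u x (B.ins q S (y4 r s u i j k l) v) =
        (cr i j k l : ℂ) := by
      intro i j k l v
      have e1 : B.ins q S (y4 r s u i j k l) v r = B.c4 (q r) i := by
        unfold Fam4.ins
        rw [Finset.piecewise_eq_of_mem _ _ _ hr.1]
        unfold y4
        rw [if_pos rfl]
      have e2 : B.ins q S (y4 r s u i j k l) v s = B.c4 (q s) j := by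
        unfold Fam4.ins
        rw [Finset.piecewise_eq_of_mem _ _ _ hs.1]
        unfold y4
        rw [if_neg (Ne.symm hrs), if_pos rfl]
      have e3 : B.ins q S (y4 r s u i j k l) v u = B.c4 (q u) k := by
        unfold Fam4.ins
        rw [Finset.piecewise_eq_of_mem _ _ _ hu.1]
        unfold y4
        rw [if_neg (Ne.symm hru), if_neg (Ne.symm hsu), if_pos rfl]
      have e4 : B.ins q S (y4 r s u i j k l) v x = B.c4 (q x) l := by
        unfold Fam4.ins
        rw [Finset.piecewise_eq_of_mem _ _ _ hx.1]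
        unfold y4
        rw [if_neg (Ne.symm hrx), if_neg (Ne.symm hsx), if_neg (Ne.symm hux)]
      unfold Fam4.g1 Fam4.g2
      rw [e1, e2, e3, e4, B.ωc _ hqr _ hqu, B.ωc _ hqs _ hqx,
        B.ωc _ hqr _ hqx, B.ωc _ hqs _ hqu, B.ωc _ hqr _ hqs, B.ωc _ hqu _ hqx, cr]
      push_cast
      exact ⟨rfl, rfl⟩
    have c0 : cr 0 1 2 3 = 1 ∧ g4 0 1 = 0 ∧ cr 0 3 0 3 = 1 ∧ g4 0 3 = 1 := by decide
    obtain ⟨c1, c2, c3, c4⟩ := c0
    have A1 : ∀ v, (B.g2 q r s u x - B.g1 q r s u x) (B.ins q S (y4 r s u 0 1 2 3) v) = 1 := by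
      intro v
      rw [Pi.sub_apply, (ev 0 1 2 3 v).1, (ev 0 1 2 3 v).2, c1, c2]; simp
    have A2 : ∀ v, B.g1 q r s u x (B.ins q S (y4 r s u 0 1 2 3) v) = 0 := by
      intro v
      rw [(ev 0 1 2 3 v).1, c2]; simp
    have A3 : ∀ v, B.g1 q r s u x (B.ins q S (y4 r s u 0 3 0 3) v) = 1 := by
      intro v
      rw [(ev 0 3 0 3 v).1, c4]; simp
    have A4 : ∀ v, (B.g2 q r s u x - B.g1 q r s u x) (B.ins q S (y4 r s u 0 3 0 3) v) = 0 := by
      intro v
      rw [Pi.sub_apply, (ev 0 3 0 3 v).1, (ev 0 3 0 3 v).2, c3, c4]; simp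
    have m3 : B.g2 q r s u x - B.g1 q r s u x ∈ PS (invF 𝒢) S := Submodule.sub_mem _ m2 m1
    have F1 := h.factor_two S hST (fun r' => B.c4 (q r') (y4 r s u 0 1 2 3 r'))
      (fun r' => B.c4 (q r') (y4 r s u 0 3 0 3 r')) _ _ m3 m1 A1 A2 hquad
    have F2 := h.factor_two S hST (fun r' => B.c4 (q r') (y4 r s u 0 3 0 3 r'))
      (fun r' => B.c4 (q r') (y4 r s u 0 1 2 3 r')) _ _ m1 m3 A3 A4
      (fun v => by rw [hquad v, Pi.sub_apply]; unfold Fam4.ins; ring)
    have I1 := ih _ _ Finset.sdiff_subset hlt (hev (by rw [hc]; decide)) F1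
    have I2 := ih _ _ Finset.sdiff_subset hlt (hev (by rw [hc]; decide)) F2
    have hT : S ∪ (T \ S) = T := Finset.union_sdiff_of_subset hST
    have M1 := PS.mul m3 I1 (Finset.disjoint_sdiff)
    have M2 := PS.mul m1 I2 (Finset.disjoint_sdiff)
    rw [hT] at M1 M2
    have hsum := Submodule.add_mem _ M1 M2
    convert hsum using 1
    funext v
    exact hquad v

theorem peel_fam (Bg : A → Prop) (T0 : Finset R → Prop) (hT0 : ∀ T T', T' ⊆ T → T0 T → T0 T')
    (hB : ∀ a, Bg a → ∃ D : Finset A, a ∈ D ∧ D.card ≤ 2 ∧ Nonempty (Fam4 𝒢 E D))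
    (hsmall : ∀ (T : Finset R) (Φ : (R → W) → ℂ), Even T.card → SF 𝒢 E q T Φ → T0 T →
      (∀ r ∈ T, ¬ Bg (q r)) → Φ ∈ PS (invF 𝒢) T) :
    ∀ (N : ℕ) (T : Finset R) (Φ : (R → W) → ℂ), T.card = N → Even T.card → SF 𝒢 E q T Φ → T0 T →
      Φ ∈ PS (invF 𝒢) T := by
  intro N
  induction N using Nat.strong_induction_on with
  | _ N ih =>
    intro T Φ hN heven h h0
    by_cases hall : ∀ r ∈ T, ¬ Bg (q r)
    · exact hsmall T Φ heven h h0 hall
    · push Not at hall
      obtain ⟨r0, hr0, hb⟩ := hall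
      obtain ⟨D, hD, hD2, ⟨B⟩⟩ := hB _ hb
      exact B.step hD2 T Φ heven h r0 hr0 hD
        (fun T' Φ' hs h1 h2 h3 => ih T'.card (by omega) T' Φ' rfl h2 h3 (hT0 T T' hs h0))

theorem peel_all2 (Bg : A → Prop)
    (hB : ∀ a, Bg a → Nonempty (Big 𝒢 E a) ∨
      ∃ D : Finset A, a ∈ D ∧ D.card ≤ 2 ∧ Nonempty (Fam4 𝒢 E D))
    (hsmall : ∀ (T : Finset R) (Φ : (R → W) → ℂ), Even T.card → SF 𝒢 E q T Φ →
      (∀ r ∈ T, ¬ Bg (q r)) → Φ ∈ PS (invF 𝒢) T)
    (T : Finset R) (Φ : (R → W) → ℂ) (heven : Even T.card) (h : SF 𝒢 E q T Φ) :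
    Φ ∈ PS (invF 𝒢) T := by
  classical
  refine peel_all (fun a => Bg a ∧ Nonempty (Big 𝒢 E a)) (fun a ha => ha.2)
    (fun T Φ hev hΦ hT => ?_) _ T Φ rfl heven h
  refine peel_fam (fun a => Bg a ∧ ¬ Nonempty (Big 𝒢 E a))
    (fun T => ∀ r ∈ T, ¬ (Bg (q r) ∧ Nonempty (Big 𝒢 E (q r))))
    (fun T T' hs h0 r hr => h0 r (hs hr))
    (fun a ha => (hB a ha.1).resolve_left ha.2) (fun T Φ hev hΦ h0 hT => ?_) _ T Φ rfl hev hΦ hT
  refine hsmall T Φ hev hΦ fun r hr hb => ?_
  by_cases hn : Nonempty (Big 𝒢 E (q r))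
  · exact h0 r hr ⟨hb, hn⟩
  · exact hT r hr ⟨hb, hn⟩

end Pool.Agent.Helper8
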