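import Pool.Agent.Helper8.H.BigData
import Pool.Agent.Helper8.H.PeelAll2
import Pool.Agent.Helper8.Lie.P1111
import Pool.Agent.Helper8.Lie.P22
import Pool.Agent.Helper8.Lie.PMixed2

/-!
The data for the labels with a space of dimension four, with multiplicity.
-/

set_option linter.unusedSectionVars false

namespace Pool.Agent.Helper8

open Module NumberField LieAlgebra
open Pool.Agent.Helper7
open Pool.Agent.GPC (Emb IsOdd IsOddModule translate)
open Pool.Agent.Helper84 (iso4 iso2)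

attribute [local instance 100] LieRing.ofAssociativeRing

section family

variable {I : Type} [Fintype I] [DecidableEq I] {n : I → ℕ}
  {κ : I → Type} [∀ i, Fintype (κ i)] [∀ i, DecidableEq (κ i)] {ϖ : ℂ}
  {P : ∀ i, PData (κ i) ϖ}
  {K : I → Type} [∀ i, Field (K i)] [∀ i, NumberField (K i)]
  {F : ∀ i, FS (P i) (K i)}
  {k : ℕ} {α : MultilinearMap ℂ (fun _ : Fin (2 * k) => HW κ n) ℂ}

theorem exists_fam (hk : IsKilling ℂ (LL n P F α)) (hirr : Irr n P F α)
    (p : Principal (LL n P F α))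
    (hdim : ∀ s : Emb K, (F s.1).isLeft → Nontrivial (Vs n P F α s) →
      IsPl n P F α s 2 ∨ IsPl n P F α s 4)
    (i : I) (σ : K i →+* ℂ) (m0 : Fin (n i)) (hb : IsPl n P F α ⟨i, σ⟩ 4)
    (hN : ∀ a : At n K, pl n a ≠ ⟨i, σ⟩ → IsPl n P F α (pl n a) 4 →
      NoPair n P F α ⟨i, σ⟩ (pl n a))
    (hA : ∀ a : At n K, IsPl n P F α (pl n a) 2 → ¬ KerLe n P F α ⟨i, σ⟩ (pl n a)) :
    ∃ D : Finset (At n K), (∀ m, (⟨i, m, σ⟩ : At n K) ∈ D) ∧ D.card ≤ n i ∧
      Nonempty (Fam4 (symG n P α) (EE n P F) D) := by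
  classical
  obtain ⟨I0, J0, s, hI⟩ := exists_split (LL n P F α) (Vs n P F α ⟨i, σ⟩)
  obtain ⟨q⟩ := s.exists_parts p
  have hirrb := hirr _ hb.1 hb.nt
  have hωb := omV_symp n P F α ⟨i, σ⟩ hb.1
  obtain ⟨A⟩ := exists_adapted4 (p := p) hωb hb.2
  obtain ⟨XH, hXH, eH, mH, cH⟩ := perfect_lift n P F α hk q.h1
  obtain ⟨XF, hXF, eF, mF, cF⟩ := perfect_lift n P F α hk q.f1
  -- the action at the big place
  have actH : ∀ x : Vs n P F α ⟨i, σ⟩, ⁅q.h1, x⁆ = ⁅p.h, x⁆ := by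
    intro x
    exact q.h1_act x ((hI _).mp q.h0I x)
  have actF : ∀ x : Vs n P F α ⟨i, σ⟩, ⁅q.f1, x⁆ = ⁅p.f, x⁆ := by
    intro x
    exact q.f1_act x ((hI _).mp q.f0I x)
  have liftH : ∀ (t : At n K) (ht : (F t.1).isLeft) (x : Vs n P F α (pl n t)),
      lift n XH.1 (inS n P F α t x) = inS n P F α t ⁅q.h1, x⁆ := by
    intro t ht x
    rw [lift_in n P F α XH hXH t ht, ← eH, mH, zero_div, zero_smul, add_zero]
  have liftF : ∀ (t : At n K) (ht : (F t.1).isLeft) (x : Vs n P F α (pl n t)),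
      lift n XF.1 (inS n P F α t x) = inS n P F α t ⁅q.f1, x⁆ := by
    intro t ht x
    rw [lift_in n P F α XF hXF t ht, ← eF, mF, zero_div, zero_smul, add_zero]
  -- atoms on which the triple acts trivially
  have htriv0 : ∀ a : At n K, pl n a ≠ ⟨i, σ⟩ → (F a.1).isLeft →
      Nontrivial (Vs n P F α (pl n a)) → ¬ KerLe n P F α ⟨i, σ⟩ (pl n a) := by
    intro a hne hl hnt hker
    have hd := hdim (pl n a) hl hnt
    have hirra := hirr _ hl hnt
    have hωa := omV_symp n P F α (pl n a) hl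
    obtain ⟨m, hm, ⟨St⟩⟩ := IsPl.str hirr p hd
    rcases hd with hd | hd
    · exact hA a hd hker
    · obtain ⟨m', hm', ⟨Sb⟩⟩ := IsPl.str hirr p (Or.inr hb)
      obtain ⟨β, hβ1, hβ2, x, y, hxy⟩ := iso4 p hωb hωa hb.2 hd.2 hker
        (ker_symm hωb hm' hm Sb St hker)
      exact hxy (hN a hne hd β hβ1 hβ2 x y)
  have htriv : ∀ (a : At n K), pl n a ≠ ⟨i, σ⟩ → ∀ w, EE n P F a (lift n XH.1 w) = 0 ∧
      EE n P F a (lift n XF.1 w) = 0 := by
    intro a hab w
    by_cases hl : (F a.1).isLeft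
    · rw [EE_eq n P F α, EE_eq n P F α, out_lift n P F α XH hXH a hl, mH, zero_div, zero_smul,
        add_zero, ← eH, out_lift n P F α XF hXF a hl, mF, zero_div, zero_smul, add_zero, ← eF]
      by_cases hnt : Nontrivial (Vs n P F α (pl n a))
      · have hd := hdim (pl n a) hl hnt
        have hirra := hirr _ hl hnt
        have hωa := omV_symp n P F α (pl n a) hl
        obtain ⟨m, hm, ⟨St⟩⟩ := IsPl.str hirr p hd
        rcases q.act_or s hωa hm St with h1 | h1
        · rw [h1.1, h1.2, map_zero]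
          exact ⟨rfl, rfl⟩
        · exfalso
          exact htriv0 a hab hl hnt (fun x hx => h1.1 x ((hI x).mpr hx))
      · rw [not_nontrivial_iff_subsingleton] at hnt
        have h2 : ⁅q.h1, outS n P F α a w⁆ = 0 := Subsingleton.elim _ _
        have h3 : ⁅q.f1, outS n P F α a w⁆ = 0 := Subsingleton.elim _ _
        rw [h2, h3, map_zero]
        exact ⟨rfl, rfl⟩
    · rw [EE_cm n P F a hl, EE_cm n P F a hl, cvS_lift n P F α XH hXH a hl, cH _ hl, zero_mul,
        zero_smul, cvS_lift n P F α XF hXF a hl, cF _ hl, zero_mul, zero_smul]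
      exact ⟨rfl, rfl⟩
  -- the index of an atom
  obtain ⟨mu, hmu⟩ : ∃ mu : At n K → Fin (n i), ∀ m, mu ⟨i, m, σ⟩ = m := by
    refine ⟨fun a => if h : ∃ m, a = ⟨i, m, σ⟩ then h.choose else m0, fun m => ?_⟩
    have h : ∃ m', (⟨i, m, σ⟩ : At n K) = ⟨i, m', σ⟩ := ⟨m, rfl⟩
    show (if h : ∃ m', (⟨i, m, σ⟩ : At n K) = ⟨i, m', σ⟩ then h.choose else m0) = m
    rw [dif_pos h]
    have h1 := h.choose_spec
    generalize h.choose = m' at h1
    simp only [Sigma.mk.injEq, heq_eq_eq, true_and, Prod.mk.injEq, and_true] at h1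
    exact h1.symm
  have hD : ∀ a ∈ Finset.univ.image (fun m : Fin (n i) => (⟨i, m, σ⟩ : At n K)),
      ∃ m, a = ⟨i, m, σ⟩ := by
    intro a ha
    obtain ⟨m, _, hm⟩ := Finset.mem_image.mp ha
    exact ⟨m, hm.symm⟩
  have hD' : ∀ a : At n K, a ∉ Finset.univ.image (fun m : Fin (n i) => (⟨i, m, σ⟩ : At n K)) →
      pl n a ≠ ⟨i, σ⟩ := by
    intro a ha hpl
    apply ha
    obtain ⟨j, m, τ⟩ := a
    have h2 : (⟨j, τ⟩ : Emb K) = ⟨i, σ⟩ := hpl
    obtain ⟨rfl, h3⟩ := Sigma.mk.inj h2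
    have h4 := eq_of_heq h3
    subst h4
    exact Finset.mem_image.mpr ⟨m, Finset.mem_univ _, rfl⟩
  refine ⟨Finset.univ.image (fun m : Fin (n i) => (⟨i, m, σ⟩ : At n K)),
    fun m => Finset.mem_image.mpr ⟨m, Finset.mem_univ _, rfl⟩, Finset.card_image_le.trans
    (by rw [Finset.card_univ, Fintype.card_fin]), ?_⟩
  refine ⟨{ c4 := fun a j => inS n P F α (⟨i, mu a, σ⟩ : At n K) (A.b j)
            hc4 := fun a ha w => ?_
            ω := fun a a' => (omV n P F α ⟨i, σ⟩).compl₁₂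
              (outS n P F α (⟨i, mu a, σ⟩ : At n K)) (outS n P F α (⟨i, mu a', σ⟩ : At n K))
            hω := fun a ha a' ha' => ?_
            ωE := fun a ha a' ha' u v => ?_
            ωalt := fun a ha a' ha' u v => ?_
            ωc := fun a ha a' ha' j l => ?_
            H := lift n XH.1
            F := lift n XF.1
            hH := ⟨XH, hXH, by rw [mH]⟩
            hF := ⟨XF, hXF, by rw [mF]⟩
            H_c := fun a ha j => ?_
            F_c := fun a ha j => ?_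
            h0 := fun a ha w => (htriv a (hD' a ha) w).1
            h1 := fun a ha w => (htriv a (hD' a ha) w).2 }⟩
  · obtain ⟨m, rfl⟩ := hD a ha
    rw [hmu]
    refine ⟨fun j => A.b.repr (outS n P F α (⟨i, m, σ⟩ : At n K) w) j, ?_⟩
    rw [EE_eq n P F α]
    conv_lhs => rw [← A.b.sum_repr (outS n P F α (⟨i, m, σ⟩ : At n K) w)]
    rw [map_sum]
    exact Finset.sum_congr rfl fun j _ => map_smul _ _ _
  · rw [invF_symG]
    intro X hX u v
    rw [LinearMap.compl₁₂_apply, LinearMap.compl₁₂_apply, LinearMap.compl₁₂_apply,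
      out_lift n P F α X hX (⟨i, mu a, σ⟩ : At n K) hb.1,
      out_lift n P F α X hX (⟨i, mu a', σ⟩ : At n K) hb.1]
    have h1 := hωb.inv (elL n P F α X hX) (outS n P F α (⟨i, mu a, σ⟩ : At n K) u)
      (outS n P F α (⟨i, mu a', σ⟩ : At n K) v)
    simp only [map_add, map_smul, LinearMap.add_apply, LinearMap.smul_apply, smul_eq_mul]
    linear_combination h1
  · obtain ⟨m, rfl⟩ := hD a ha
    rw [LinearMap.compl₁₂_apply, LinearMap.compl₁₂_apply, hmu, outS_EE]
  · rw [LinearMap.compl₁₂_apply, LinearMap.compl₁₂_apply]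
    exact hωb.alt _ _
  · have e1 : outS n P F α (⟨i, mu a, σ⟩ : At n K)
        (inS n P F α (⟨i, mu a, σ⟩ : At n K) (A.b j)) = A.b j :=
      outS_inS (n := n) (P := P) (F := F) (α := α) (⟨i, mu a, σ⟩ : At n K) (A.b j)
    have e2 : outS n P F α (⟨i, mu a', σ⟩ : At n K)
        (inS n P F α (⟨i, mu a', σ⟩ : At n K) (A.b l)) = A.b l :=
      outS_inS (n := n) (P := P) (F := F) (α := α) (⟨i, mu a', σ⟩ : At n K) (A.b l)
    rw [LinearMap.compl₁₂_apply, e1, e2, A.g_b]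
  · have h1 : ⁅q.h1, A.b j⁆ = (wt4 j : ℂ) • A.b j := by rw [actH, A.h_b]
    exact (liftH (⟨i, mu a, σ⟩ : At n K) hb.1 (A.b j)).trans (by
      erw [h1]; rw [map_smul])
  · have h1 : ⁅q.f1, A.b j⁆ = if j = 3 then 0 else A.b (j + 1) := by rw [actF, A.f_four]
    exact (liftF (⟨i, mu a, σ⟩ : At n K) hb.1 (A.b j)).trans (by
      erw [h1]
      split_ifs
      · rw [map_zero]
      · rfl)

end family

end Pool.Agent.Helper8
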