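import Pool.Agent.Helper8.Lie.Coord
import Pool.Agent.Helper8.Lie.Classify

/-!
Two commuting ideals with sum `L` cannot both act non-trivially on a symplectic module on which the
principal triple acts irreducibly.
-/

open Module LieAlgebra LieModule

namespace Pool.Agent.Helper8

section
variable {L : Type*} [LieRing L] [LieAlgebra ℂ L]

/-- a basis consisting of a string for a triple -/
structure Str (h f : L) (V : Type*) [AddCommGroup V] [Module ℂ V] [LieRingModule L V]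
    (m : ℕ) where
  b : Basis (Fin (m + 1)) ℂ V
  h_b : ∀ j : Fin (m + 1), ⁅h, b j⁆ = ((m : ℂ) - 2 * (j : ℕ)) • b j
  f_b : ∀ j : Fin m, ⁅f, b j.castSucc⁆ = b j.succ

variable {V : Type*} [AddCommGroup V] [Module ℂ V] [LieRingModule L V] [LieModule ℂ L V]

lemma Str.repr_eq_zero {h f : L} {m : ℕ} (S : Str h f V m) {μ : ℂ} {w : V} (hw : ⁅h, w⁆ = μ • w)
    (j : Fin (m + 1)) (hj : (m : ℂ) - 2 * (j : ℕ) ≠ μ) : S.b.repr w j = 0 := by
  have h1 : ⁅h, w⁆ = ∑ i, (S.b.repr w i * ((m : ℂ) - 2 * (i : ℕ))) • S.b i := by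
    conv_lhs => rw [← S.b.sum_repr w]
    rw [lie_sum]
    refine Finset.sum_congr rfl fun i _ => ?_
    rw [lie_smul, S.h_b, smul_smul]
  have h2 : S.b.repr ⁅h, w⁆ j = S.b.repr w j * ((m : ℂ) - 2 * (j : ℕ)) := by
    rw [h1, map_sum, Finsupp.finsetSum_apply, Finset.sum_eq_single j]
    · rw [map_smul, Finsupp.smul_apply, Basis.repr_self, Finsupp.single_eq_same, smul_eq_mul,
        mul_one]
    · intro i _ hi
      rw [map_smul, Finsupp.smul_apply, Basis.repr_self, Finsupp.single_eq_of_ne (Ne.symm hi),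
        smul_zero]
    · intro h; exact absurd (Finset.mem_univ _) h
  rw [hw, map_smul, Finsupp.smul_apply, smul_eq_mul] at h2
  have h3 : S.b.repr w j * ((m : ℂ) - 2 * (j : ℕ) - μ) = 0 := by linear_combination -h2
  exact (mul_eq_zero.mp h3).resolve_right (sub_ne_zero.mpr hj)

lemma Str.eq_smul {h f : L} {m : ℕ} (S : Str h f V m) {w : V} (i : Fin (m + 1))
    (hw : ⁅h, w⁆ = ((m : ℂ) - 2 * (i : ℕ)) • w) : ∃ c : ℂ, w = c • S.b i := by
  refine ⟨S.b.repr w i, ?_⟩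
  conv_lhs => rw [← S.b.sum_repr w]
  rw [Finset.sum_eq_single i]
  · intro j _ hj
    rw [S.repr_eq_zero hw j, zero_smul]
    intro h1
    apply hj
    have h2 : ((j : ℕ) : ℂ) = ((i : ℕ) : ℂ) := by linear_combination -h1 / 2
    exact Fin.ext (by exact_mod_cast h2)
  · intro h; exact absurd (Finset.mem_univ _) h

lemma Str.eq_zero {h f : L} {m : ℕ} (S : Str h f V m) {μ : ℂ} {w : V} (hw : ⁅h, w⁆ = μ • w)
    (hμ : ∀ j : ℕ, j ≤ m → (m : ℂ) - 2 * j ≠ μ) : w = 0 := by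
  rw [← S.b.sum_repr w]
  refine Finset.sum_eq_zero fun j _ => ?_
  rw [S.repr_eq_zero hw j (hμ j (by omega)), zero_smul]

/-- decomposition of a Lie algebra into two commuting parts -/
structure Split (I J : Submodule ℂ L) : Prop where
  comm : ∀ x ∈ I, ∀ y ∈ J, ⁅x, y⁆ = 0
  lieI : ∀ (x : L), ∀ y ∈ I, ⁅x, y⁆ ∈ I
  lieJ : ∀ (x : L), ∀ y ∈ J, ⁅x, y⁆ ∈ J
  sup : ∀ x, ∃ a ∈ I, ∃ b ∈ J, x = a + b
  dis : ∀ x ∈ I, x ∈ J → x = 0

lemma Split.symm {I J : Submodule ℂ L} (s : Split I J) : Split J I where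
  comm x hx y hy := by rw [← lie_skew, s.comm y hy x hx, neg_zero]
  lieI := s.lieJ
  lieJ := s.lieI
  sup x := by
    obtain ⟨a, ha, b, hb, h⟩ := s.sup x
    exact ⟨b, hb, a, ha, by rw [h, add_comm]⟩
  dis x hx hx' := s.dis x hx' hx

lemma Split.unique {I J : Submodule ℂ L} (s : Split I J) {a a' b b' : L} (ha : a ∈ I) (ha' : a' ∈ I)
    (hb : b ∈ J) (hb' : b' ∈ J) (h : a + b = a' + b') : a = a' ∧ b = b' := by
  have h1 : a - a' = b' - b := by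
    have : a - a' = (a + b) - b - a' := by abel
    rw [this, h]; abel
  have h2 : a - a' = 0 := s.dis _ (Submodule.sub_mem _ ha ha') (by
    rw [h1]; exact Submodule.sub_mem _ hb' hb)
  have h3 := sub_eq_zero.mp h2
  refine ⟨h3, ?_⟩
  rw [h3] at h
  exact add_left_cancel h

/-- the components of a principal triple -/
structure Parts (p : Principal L) (I J : Submodule ℂ L) where
  h0 : L
  h1 : L
  e0 : L
  e1 : L
  f0 : L
  f1 : L
  h0I : h0 ∈ I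
  h1J : h1 ∈ J
  e0I : e0 ∈ I
  e1J : e1 ∈ J
  f0I : f0 ∈ I
  f1J : f1 ∈ J
  hh : p.h = h0 + h1
  he : p.e = e0 + e1
  hf : p.f = f0 + f1

lemma Split.exists_parts {I J : Submodule ℂ L} (s : Split I J) (p : Principal L) :
    Nonempty (Parts p I J) := by
  obtain ⟨h0, h0I, h1, h1J, hh⟩ := s.sup p.h
  obtain ⟨e0, e0I, e1, e1J, he⟩ := s.sup p.e
  obtain ⟨f0, f0I, f1, f1J, hf⟩ := s.sup p.f
  exact ⟨⟨h0, h1, e0, e1, f0, f1, h0I, h1J, e0I, e1J, f0I, f1J, hh, he, hf⟩⟩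

/-- exchanging the two parts -/
def Parts.symm {p : Principal L} {I J : Submodule ℂ L} (q : Parts p I J) : Parts p J I where
  h0 := q.h1
  h1 := q.h0
  e0 := q.e1
  e1 := q.e0
  f0 := q.f1
  f1 := q.f0
  h0I := q.h1J
  h1J := q.h0I
  e0I := q.e1J
  e1J := q.e0I
  f0I := q.f1J
  f1J := q.f0I
  hh := by rw [q.hh, add_comm]
  he := by rw [q.he, add_comm]
  hf := by rw [q.hf, add_comm]

section parts
variable {p : Principal L} {I J : Submodule ℂ L} (s : Split I J) (q : Parts p I J)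
include s

lemma Parts.rel : (⁅q.e0, q.f0⁆ = q.h0 ∧ ⁅q.e1, q.f1⁆ = q.h1) ∧
    (⁅q.h0, q.e0⁆ = (2 : ℂ) • q.e0 ∧ ⁅q.h1, q.e1⁆ = (2 : ℂ) • q.e1) ∧
    (⁅q.h0, q.f0⁆ = (-2 : ℂ) • q.f0 ∧ ⁅q.h1, q.f1⁆ = (-2 : ℂ) • q.f1) := by
  have h1 := p.ef
  have h2 := p.he
  have h3 := p.hf
  rw [q.he, q.hf, q.hh, add_lie, lie_add, lie_add, s.comm _ q.e0I _ q.f1J, add_zero,
    s.symm.comm _ q.e1J _ q.f0I, zero_add] at h1
  rw [q.he, q.hh, add_lie, lie_add, lie_add, s.comm _ q.h0I _ q.e1J, add_zero,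
    s.symm.comm _ q.h1J _ q.e0I, zero_add, smul_add] at h2
  rw [q.hf, q.hh, add_lie, lie_add, lie_add, s.comm _ q.h0I _ q.f1J, add_zero,
    s.symm.comm _ q.h1J _ q.f0I, zero_add, smul_add] at h3
  exact ⟨s.unique (s.lieI _ _ q.f0I) q.h0I (s.lieJ _ _ q.f1J) q.h1J h1,
    s.unique (s.lieI _ _ q.e0I) (Submodule.smul_mem _ _ q.e0I) (s.lieJ _ _ q.e1J)
      (Submodule.smul_mem _ _ q.e1J) h2,
    s.unique (s.lieI _ _ q.f0I) (Submodule.smul_mem _ _ q.f0I) (s.lieJ _ _ q.f1J)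
      (Submodule.smul_mem _ _ q.f1J) h3⟩

/-- if the first part of `f` kills the top vector then the first ideal acts trivially -/
lemma Parts.trivial_of {m : ℕ} (S : Str p.h p.f V m) {ω : V →ₗ[ℂ] V →ₗ[ℂ] ℂ}
    (hω : Symp L ω) (h : ⁅q.f0, S.b 0⁆ = 0) : ∀ x ∈ I, ∀ v : V, ⁅x, v⁆ = 0 := by
  obtain ⟨⟨r1, r1'⟩, ⟨r2, r2'⟩, ⟨r3, r3'⟩⟩ := q.rel s
  have c := s.comm
  obtain ⟨b, hb⟩ : ∃ b, b = S.b := ⟨_, rfl⟩
  have hS_h : ∀ j : Fin (m + 1), ⁅p.h, b j⁆ = ((m : ℂ) - 2 * (j : ℕ)) • b j := by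
    rw [hb]; exact S.h_b
  have hS_f : ∀ j : Fin m, ⁅p.f, b j.castSucc⁆ = b j.succ := by
    rw [hb]; exact S.f_b
  have hS_0 : ∀ (μ : ℂ) (w : V), ⁅p.h, w⁆ = μ • w → (∀ j : ℕ, j ≤ m → (m : ℂ) - 2 * j ≠ μ) →
    w = 0 := fun μ w => S.eq_zero
  have hS_1 : ∀ (i : Fin (m + 1)) (w : V), ⁅p.h, w⁆ = ((m : ℂ) - 2 * (i : ℕ)) • w →
      ∃ c : ℂ, w = c • b i := by
    intro i w; rw [hb]; exact S.eq_smul i
  rw [← hb] at h
  -- the first parts kill the top vector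
  have he0 : ⁅q.e0, b 0⁆ = 0 := by
    have h1 : ⁅p.h, ⁅q.e0, b 0⁆⁆ = ((m : ℂ) + 2) • ⁅q.e0, b 0⁆ := by
      rw [leibniz_lie, hS_h]
      have h2 : ⁅p.h, q.e0⁆ = (2 : ℂ) • q.e0 := by
        rw [q.hh, add_lie, r2, s.symm.comm _ q.h1J _ q.e0I, add_zero]
      rw [h2, smul_lie, lie_smul, ← add_smul]
      congr 1
      simp
      ring
    refine hS_0 _ _ h1 (fun j _ hj => ?_)
    have h3 : ((j : ℂ) + 1) = 0 := by linear_combination -hj / 2
    have h4 : ((j + 1 : ℕ) : ℂ) = 0 := by push_cast; exact h3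
    exact absurd (by exact_mod_cast h4) (Nat.succ_ne_zero j)
  have hh0 : ⁅q.h0, b 0⁆ = 0 := by
    rw [← r1, lie_lie, h, he0, lie_zero, lie_zero, sub_zero]
  -- the first parts kill the basis
  have hall : ∀ j : ℕ, ∀ hj : j < m + 1, ⁅q.f0, b ⟨j, hj⟩⁆ = 0 ∧ ⁅q.e0, b ⟨j, hj⟩⁆ = 0 ∧
      ⁅q.h0, b ⟨j, hj⟩⁆ = 0 := by
    intro j
    induction j with
    | zero => exact fun hj => ⟨h, he0, hh0⟩
    | succ j ih =>
      intro hj
      obtain ⟨i1, i2, i3⟩ := ih (by omega)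
      have hb : b ⟨j + 1, hj⟩ = ⁅q.f1, b ⟨j, by omega⟩⁆ := by
        have h5 := hS_f ⟨j, by omega⟩
        have h6 : (⟨j, by omega⟩ : Fin m).castSucc = ⟨j, by omega⟩ := rfl
        have h7 : (⟨j, by omega⟩ : Fin m).succ = ⟨j + 1, hj⟩ := rfl
        rw [h6, h7, q.hf, add_lie, i1, zero_add] at h5
        exact h5.symm
      rw [hb]
      refine ⟨?_, ?_, ?_⟩
      · rw [leibniz_lie, c _ q.f0I _ q.f1J, zero_lie, i1, lie_zero, add_zero]
      · rw [leibniz_lie, c _ q.e0I _ q.f1J, zero_lie, i2, lie_zero, add_zero]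
      · rw [leibniz_lie, c _ q.h0I _ q.f1J, zero_lie, i3, lie_zero, add_zero]
  have ext : ∀ u : L, (∀ j, ⁅u, b j⁆ = 0) → ∀ v : V, ⁅u, v⁆ = 0 := by
    intro u hu v
    rw [← b.sum_repr v, lie_sum]
    exact Finset.sum_eq_zero fun j _ => by rw [lie_smul, hu, smul_zero]
  have kh := ext q.h0 (fun j => (hall j j.2).2.2)
  have kf := ext q.f0 (fun j => (hall j j.2).1)
  -- the elements of the ideal act by scalars
  intro x hx
  have hx0 : ⁅p.h, ⁅x, b 0⁆⁆ = ((m : ℂ) - 2 * ((0 : Fin (m + 1)) : ℕ)) • ⁅x, b 0⁆ := by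
    rw [q.hh, add_lie, kh, zero_add, leibniz_lie, s.symm.comm _ q.h1J _ hx, zero_lie, zero_add]
    have h5 := hS_h 0
    rw [q.hh, add_lie, kh, zero_add] at h5
    rw [h5, lie_smul]
  obtain ⟨l, hl⟩ := hS_1 0 _ hx0
  have hlj : ∀ j : ℕ, ∀ hj : j < m + 1, ⁅x, b ⟨j, hj⟩⁆ = l • b ⟨j, hj⟩ := by
    intro j
    induction j with
    | zero => exact fun hj => hl
    | succ j ih =>
      intro hj
      have h8 := ih (by omega)
      have hb : b ⟨j + 1, hj⟩ = ⁅q.f1, b ⟨j, by omega⟩⁆ := by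
        have h5 := hS_f ⟨j, by omega⟩
        have h6 : (⟨j, by omega⟩ : Fin m).castSucc = ⟨j, by omega⟩ := rfl
        have h7 : (⟨j, by omega⟩ : Fin m).succ = ⟨j + 1, hj⟩ := rfl
        rw [h6, h7, q.hf, add_lie, kf, zero_add] at h5
        exact h5.symm
      rw [hb, leibniz_lie, c _ hx _ q.f1J, zero_lie, zero_add, h8, lie_smul]
  have hlv : ∀ v : V, ⁅x, v⁆ = l • v := by
    intro v
    conv_lhs => rw [← b.sum_repr v]
    conv_rhs => rw [← b.sum_repr v]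
    rw [lie_sum, Finset.smul_sum]
    refine Finset.sum_congr rfl fun j _ => ?_
    rw [lie_smul, hlj j j.2, smul_comm]
  -- the scalar vanishes
  have hl0 : l = 0 := by
    by_contra hne
    have h9 : ∀ u v : V, ω u v = 0 := by
      intro u v
      have h10 := hω.inv x u v
      rw [hlv, hlv, map_smul, map_smul, LinearMap.smul_apply, smul_eq_mul] at h10
      have h11 : (2 * l) * ω u v = 0 := by linear_combination h10
      exact (mul_eq_zero.mp h11).resolve_left (mul_ne_zero two_ne_zero hne)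
    exact b.ne_zero 0 (hω.nd _ (h9 _))
  intro v
  rw [hlv, hl0, zero_smul]

/-- one of two commuting ideals with sum `L` acts trivially -/
theorem Split.cases {m : ℕ} (hm : 0 < m) (S : Str p.h p.f V m) {ω : V →ₗ[ℂ] V →ₗ[ℂ] ℂ}
    (hω : Symp L ω) :
    (∀ x ∈ I, ∀ v : V, ⁅x, v⁆ = 0) ∨ (∀ x ∈ J, ∀ v : V, ⁅x, v⁆ = 0) := by
  obtain ⟨q⟩ := s.exists_parts p
  obtain ⟨⟨r1, r1'⟩, ⟨r2, r2'⟩, ⟨r3, r3'⟩⟩ := q.rel s
  by_cases h0 : ⁅q.f0, S.b 0⁆ = 0
  · exact Or.inl (q.trivial_of s S hω h0)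
  by_cases h1 : ⁅q.f1, S.b 0⁆ = 0
  · exact Or.inr (q.symm.trivial_of s.symm S hω h1)
  exfalso
  obtain ⟨b, hb⟩ : ∃ b, b = S.b := ⟨_, rfl⟩
  have hS_h : ∀ j : Fin (m + 1), ⁅p.h, b j⁆ = ((m : ℂ) - 2 * (j : ℕ)) • b j := by
    rw [hb]; exact S.h_b
  have hS_1 : ∀ (i : Fin (m + 1)) (w : V), ⁅p.h, w⁆ = ((m : ℂ) - 2 * (i : ℕ)) • w →
      ∃ c : ℂ, w = c • b i := by
    intro i w; rw [hb]; exact S.eq_smul i
  rw [← hb] at h0 h1
  have hne : b 0 ≠ 0 := b.ne_zero 0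
  have hz : ((0 : Fin (m + 1)) : ℕ) = 0 := rfl
  -- the top vector is an eigenvector of both parts of `h`
  obtain ⟨c0, hc0⟩ := hS_1 0 ⁅q.h0, b 0⁆ (by
    rw [leibniz_lie, hS_h, lie_smul, q.hh, add_lie, lie_self, s.symm.comm _ q.h1J _ q.h0I,
      add_zero, zero_lie, zero_add])
  -- both images of the top vector have the second weight
  obtain ⟨c1, hc1⟩ := hS_1 ⟨1, by omega⟩ ⁅q.f0, b 0⁆ (by
    have h2 : ⁅p.h, q.f0⁆ = (-2 : ℂ) • q.f0 := by
      rw [q.hh, add_lie, r3, s.symm.comm _ q.h1J _ q.f0I, add_zero]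
    rw [leibniz_lie, hS_h, lie_smul, h2, smul_lie, ← add_smul]
    congr 1
    simp
    ring)
  obtain ⟨c2, hc2⟩ := hS_1 ⟨1, by omega⟩ ⁅q.f1, b 0⁆ (by
    have h2 : ⁅p.h, q.f1⁆ = (-2 : ℂ) • q.f1 := by
      rw [q.hh, add_lie, r3', s.comm _ q.h0I _ q.f1J, zero_add]
    rw [leibniz_lie, hS_h, lie_smul, h2, smul_lie, ← add_smul]
    congr 1
    simp
    ring)
  have hc1' : c1 ≠ 0 := by
    rintro rfl
    rw [zero_smul] at hc1
    exact h0 hc1
  have hc2' : c2 ≠ 0 := by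
    rintro rfl
    rw [zero_smul] at hc2
    exact h1 hc2
  -- the first part of `h` has different eigenvalues on them
  have e1 : ⁅q.h0, ⁅q.f0, b 0⁆⁆ = (c0 - 2) • ⁅q.f0, b 0⁆ := by
    rw [leibniz_lie, r3, hc0, lie_smul, smul_lie, ← add_smul]
    congr 1; ring
  have e2 : ⁅q.h0, ⁅q.f1, b 0⁆⁆ = c0 • ⁅q.f1, b 0⁆ := by
    rw [leibniz_lie, s.comm _ q.h0I _ q.f1J, zero_lie, zero_add, hc0, lie_smul]
  rw [hc1, lie_smul] at e1
  rw [hc2, lie_smul] at e2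
  have e3 : ⁅q.h0, b ⟨1, by omega⟩⁆ = (c0 - 2) • b ⟨1, by omega⟩ := by
    have := congrArg (fun w => c1⁻¹ • w) e1
    simp only [smul_smul] at this
    rw [inv_mul_cancel₀ hc1', one_smul] at this
    rw [this]
    congr 1
    field_simp
  have e4 : ⁅q.h0, b ⟨1, by omega⟩⁆ = c0 • b ⟨1, by omega⟩ := by
    have := congrArg (fun w => c2⁻¹ • w) e2
    simp only [smul_smul] at this
    rw [inv_mul_cancel₀ hc2', one_smul] at this
    rw [this]
    congr 1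
    field_simp
  rw [e3] at e4
  have e5 : (c0 - 2 - c0) • b (⟨1, by omega⟩ : Fin (m + 1)) = 0 := by
    rw [sub_smul, e4, sub_self]
  rcases smul_eq_zero.mp e5 with h | h
  · have : (2 : ℂ) = 0 := by linear_combination -h
    exact two_ne_zero this
  · exact b.ne_zero _ h

end parts

end

end Pool.Agent.Helper8
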