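import Pool.Agent.Helper8.H.Peel4
import Pool.Agent.Helper8.Lie.Frames9
import Pool.Agent.Helper8.Lie.Semisimple
import Pool.Agent.Helper8.Lie.TopLevel

/-!
Contraction of two slots with a label with a space of dimension four; reduction to at most two
slots for every such label.
-/

set_option linter.unusedSectionVars false

namespace Pool.Agent.Helper8

open Pool.Agent.Helper7 (PP)

variable {R W A : Type*} [DecidableEq R] [AddCommGroup W] [Module ℂ W]

/-- permutation of the slots -/
lemma PP.perm {𝓑 : Set (W →ₗ[ℂ] W →ₗ[ℂ] ℂ)} {T : Finset R} {Φ : (R → W) → ℂ} (h : PP 𝓑 T Φ)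
    (π : Equiv.Perm R) : PP 𝓑 (T.image π) (fun v => Φ (v ∘ π)) := by
  induction h with
  | nil => exact PP.nil
  | @cons T Φ r r' β hβ hΦ hr hr' hne ih =>
    rw [Finset.image_insert, Finset.image_insert]
    exact PP.cons (π r) (π r') β hβ ih
      (fun h => hr (by
        obtain ⟨x, hx, he⟩ := Finset.mem_image.mp h
        rw [← π.injective he]; exact hx))
      (fun h => hr' (by
        obtain ⟨x, hx, he⟩ := Finset.mem_image.mp h
        rw [← π.injective he]; exact hx))
      (fun h => hne (π.injective h))

lemma PS.swap {𝓑 : Set (W →ₗ[ℂ] W →ₗ[ℂ] ℂ)} {T : Finset R} {Φ : (R → W) → ℂ} (h : Φ ∈ PS 𝓑 T)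
    (r s : R) (hr : r ∈ T) (hs : s ∈ T) : (fun v => Φ (v ∘ Equiv.swap r s)) ∈ PS 𝓑 T := by
  have hT : T.image (Equiv.swap r s) = T := by
    ext x
    rw [Finset.mem_image]
    constructor
    · rintro ⟨y, hy, rfl⟩
      by_cases h1 : y = r
      · subst h1; rw [Equiv.swap_apply_left]; exact hs
      · by_cases h2 : y = s
        · subst h2; rw [Equiv.swap_apply_right]; exact hr
        · rw [Equiv.swap_apply_of_ne_of_ne h1 h2]; exact hy
    · intro hx
      refine ⟨Equiv.swap r s x, ?_, Equiv.swap_apply_self _ _ _⟩
      by_cases h1 : x = r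
      · subst h1; rw [Equiv.swap_apply_left]; exact hs
      · by_cases h2 : x = s
        · subst h2; rw [Equiv.swap_apply_right]; exact hr
        · rw [Equiv.swap_apply_of_ne_of_ne h1 h2]; exact hx
  refine Submodule.span_induction (p := fun Φ _ => (fun v => Φ (v ∘ Equiv.swap r s)) ∈ PS 𝓑 T)
    ?_ ?_ ?_ ?_ h
  · intro Φ hΦ
    apply Submodule.subset_span
    have h1 := PP.perm hΦ (Equiv.swap r s)
    rw [hT] at h1
    exact h1
  · exact Submodule.zero_mem _
  · intro x y _ _ hx hy
    exact Submodule.add_mem _ hx hy
  · intro c x _ hx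
    exact Submodule.smul_mem _ c hx

/-- data for a label with a symplectic space of dimension four -/
structure Lab4 (𝒢 : Set (Module.End ℂ W × ℂ)) (E : A → Module.End ℂ W) (b : A) where
  c4 : Fin 4 → W
  hc4 : ∀ w, ∃ x : Fin 4 → ℂ, E b w = ∑ j, x j • c4 j
  ω : W →ₗ[ℂ] W →ₗ[ℂ] ℂ
  hω : ω ∈ invF 𝒢
  ωE : ∀ u v, ω (E b u) v = ω u v
  ωalt : ∀ u v, ω u v = - ω v u
  ωc : ∀ i j, ω (c4 i) (c4 j) = (g4 i j : ℂ)

variable {𝒢 : Set (Module.End ℂ W × ℂ)} {E : A → Module.End ℂ W} {q : R → A}
  {T : Finset R} {Φ : (R → W) → ℂ} {b : A}

/-- forget the rest -/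
def Big.toLab4 (B : Big 𝒢 E b) : Lab4 𝒢 E b := ⟨B.c4, B.hc4, B.ω, B.hω, B.ωE, B.ωalt, B.ωc⟩

namespace Lab4

variable (B : Lab4 𝒢 E b)

lemma ωE' (u v : W) : B.ω u (E b v) = B.ω u v := by
  rw [B.ωalt, B.ωE, ← B.ωalt]

/-- contraction of two slots -/
def con (r s : R) (Φ : (R → W) → ℂ) (v : R → W) : ℂ :=
  Φ (Function.update (Function.update v r (B.c4 0)) s (B.c4 3)) -
    Φ (Function.update (Function.update v r (B.c4 1)) s (B.c4 2))

lemma exists_matrix (X : Module.End ℂ W × ℂ) (hX : X ∈ 𝒢) : ∃ M : Fin 4 → Fin 4 → ℂ,
    (∀ a, E b (X.1 (B.c4 a)) = ∑ j, M j a • B.c4 j) ∧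
    M 0 0 + M 3 3 = X.2 ∧ M 1 1 + M 2 2 = X.2 ∧ M 2 0 + M 3 1 = 0 ∧ M 3 2 - M 1 0 = 0 ∧
    M 0 1 - M 2 3 = 0 ∧ M 0 2 + M 1 3 = 0 := by
  choose M hM using fun a => B.hc4 (X.1 (B.c4 a))
  refine ⟨fun j a => M a j, hM, ?_⟩
  have h1 : ∀ a c, (∑ j, M a j * (g4 j c : ℂ)) + ∑ j, M c j * (g4 a j : ℂ) =
      X.2 * (g4 a c : ℂ) := by
    intro a c
    have h2 := B.hω X hX (B.c4 a) (B.c4 c)
    rw [← B.ωE, ← B.ωE' (B.c4 a), hM, hM, map_sum, map_sum, LinearMap.sum_apply, B.ωc] at h2
    simp only [map_smul, LinearMap.smul_apply, B.ωc, smul_eq_mul] at h2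
    exact h2
  have h03 := h1 0 3
  have h12 := h1 1 2
  have h01 := h1 0 1
  have h02 := h1 0 2
  have h13 := h1 1 3
  have h23 := h1 2 3
  simp [Fin.sum_univ_four, g4] at h03 h12 h01 h02 h13 h23
  refine ⟨?_, ?_, ?_, ?_, ?_, ?_⟩
  · linear_combination h03
  · linear_combination -h12
  · linear_combination h01
  · linear_combination h02
  · linear_combination h13
  · linear_combination h23

variable (h : SF 𝒢 E q T Φ)
include h

lemma con_sf (r s : R) (hr : r ∈ T) (hs : s ∈ T) (hrs : r ≠ s) (hqr : q r = b) (hqs : q s = b) :
    SF 𝒢 E q (T \ {r, s}) (B.con r s Φ) := by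
  have hpw : ∀ (i j : Fin 4) (v : R → W),
      Function.update (Function.update v r (B.c4 i)) s (B.c4 j) =
      ({r, s} : Finset R).piecewise (fun t => if t = r then B.c4 i else B.c4 j) v := by
    intro i j v
    funext t
    by_cases ht : t = s
    · subst ht
      rw [Function.update_self, Finset.piecewise_eq_of_mem _ _ _ (by simp),
        if_neg (Ne.symm hrs)]
    · rw [Function.update_of_ne ht]
      by_cases ht' : t = r
      · subst ht'
        rw [Function.update_self, Finset.piecewise_eq_of_mem _ _ _ (by simp), if_pos rfl]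
      · rw [Function.update_of_ne ht', Finset.piecewise_eq_of_notMem]
        simp [ht, ht']
  have h1 := h.toSF0.sub_slots {r, s} (fun t => if t = r then B.c4 0 else B.c4 3)
  have h2 := h.toSF0.sub_slots {r, s} (fun t => if t = r then B.c4 1 else B.c4 2)
  simp only [← hpw] at h1 h2
  have hST : ({r, s} : Finset R) ⊆ T := by
    intro t ht
    rw [Finset.mem_insert, Finset.mem_singleton] at ht
    rcases ht with rfl | rfl
    · exact hr
    · exact hs
  refine ⟨?_, ?_, ?_, ?_, ?_, ?_⟩
  · intro v v' hv
    unfold con
    rw [h1.dep v v' hv, h2.dep v v' hv]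
  · intro v t ht x y
    unfold con
    rw [h1.add v t ht x y, h2.add v t ht x y]
    ring
  · intro v t ht c x
    unfold con
    rw [h1.smul v t ht c x, h2.smul v t ht c x]
    ring
  · intro X hX v
    obtain ⟨M, hM, m1, m2, m3, m4, m5, m6⟩ := B.exists_matrix X hX
    obtain ⟨f, hf⟩ : ∃ f : Fin 4 → Fin 4 → ℂ, f = fun i j =>
      Φ (Function.update (Function.update v r (B.c4 i)) s (B.c4 j)) := ⟨_, rfl⟩
    have hf' : ∀ i j, Φ (Function.update (Function.update v r (B.c4 i)) s (B.c4 j)) = f i j := by
      intro i j; rw [hf]
    have halt : ∀ i j, f i j = - f j i := by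
      intro i j
      have h3 := h.alt r hr s hs hrs (by rw [hqr, hqs])
        (Function.update (Function.update v r (B.c4 j)) s (B.c4 i))
      have h4 : (Function.update (Function.update v r (B.c4 j)) s (B.c4 i)) ∘ Equiv.swap r s =
          Function.update (Function.update v r (B.c4 i)) s (B.c4 j) := by
        funext t
        rw [Function.comp_apply]
        by_cases ht : t = s
        · subst ht
          rw [Equiv.swap_apply_right, Function.update_of_ne hrs, Function.update_self,
            Function.update_self]
        · rw [Function.update_of_ne ht]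
          by_cases ht' : t = r
          · subst ht'
            rw [Equiv.swap_apply_left, Function.update_self, Function.update_self]
          · rw [Equiv.swap_apply_of_ne_of_ne ht' ht, Function.update_of_ne ht,
              Function.update_of_ne ht', Function.update_of_ne ht']
      rw [h4, hf', hf'] at h3
      exact h3
    have key : ∀ i j, 2 * ∑ t ∈ T \ {r, s}, Φ (Function.update (Function.update
        (Function.update v t (X.1 (v t))) r (B.c4 i)) s (B.c4 j)) +
        2 * (∑ l, M l i * f l j + ∑ l, M l j * f i l) = T.card * X.2 * f i j := by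
      intro i j
      have h3 := h.inv X hX (Function.update (Function.update v r (B.c4 i)) s (B.c4 j))
      rw [← Finset.sum_sdiff hST, Finset.sum_pair hrs, hf'] at h3
      have h4 : ∑ t ∈ T \ {r, s}, Φ (Function.update (Function.update (Function.update v r
          (B.c4 i)) s (B.c4 j)) t (X.1 (Function.update (Function.update v r
          (B.c4 i)) s (B.c4 j) t))) = ∑ t ∈ T \ {r, s}, Φ (Function.update (Function.update
        (Function.update v t (X.1 (v t))) r (B.c4 i)) s (B.c4 j)) := by
        refine Finset.sum_congr rfl fun t ht => ?_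
        rw [Finset.mem_sdiff, Finset.mem_insert, Finset.mem_singleton, not_or] at ht
        have hts := ht.2.2
        have htr := ht.2.1
        rw [Function.update_of_ne hts, Function.update_of_ne htr,
          Function.update_comm (Ne.symm hts), Function.update_comm (Ne.symm htr)]
      have h5 : Φ (Function.update (Function.update (Function.update v r
          (B.c4 i)) s (B.c4 j)) r (X.1 (Function.update (Function.update v r
          (B.c4 i)) s (B.c4 j) r))) = ∑ l, M l i * f l j := by
        rw [Function.update_of_ne hrs, Function.update_self, Function.update_comm hrs,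
          Function.update_idem]
        have h6 := h.lab r hr (Function.update (Function.update v s (B.c4 j)) r (X.1 (B.c4 i)))
        rw [Function.update_self, Function.update_idem, hqr, hM, h.toSF0.sum _ r hr] at h6
        rw [← h6]
        refine Finset.sum_congr rfl fun l _ => ?_
        rw [Function.update_comm (Ne.symm hrs), hf']
      have h7 : Φ (Function.update (Function.update (Function.update v r
          (B.c4 i)) s (B.c4 j)) s (X.1 (Function.update (Function.update v r
          (B.c4 i)) s (B.c4 j) s))) = ∑ l, M l j * f i l := by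
        rw [Function.update_self, Function.update_idem]
        have h6 := h.lab s hs (Function.update (Function.update v r (B.c4 i)) s (X.1 (B.c4 j)))
        rw [Function.update_self, Function.update_idem, hqs, hM, h.toSF0.sum _ s hs] at h6
        rw [← h6]
        refine Finset.sum_congr rfl fun l _ => ?_
        rw [hf']
      rw [h4, h5, h7] at h3
      linear_combination h3
    have k03 := key 0 3
    have k12 := key 1 2
    simp only [Fin.sum_univ_four] at k03 k12
    have z0 : f 0 0 = 0 := by linear_combination (1/2) * halt 0 0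
    have z1 : f 1 1 = 0 := by linear_combination (1/2) * halt 1 1
    have z2 : f 2 2 = 0 := by linear_combination (1/2) * halt 2 2
    have z3 : f 3 3 = 0 := by linear_combination (1/2) * halt 3 3
    have hcard : ((T \ {r, s}).card : ℂ) = T.card - 2 := by
      rw [Finset.card_sdiff_of_subset hST, Finset.card_pair hrs, Nat.cast_sub]
      · norm_num
      · rw [← Finset.card_pair hrs]; exact Finset.card_le_card hST
    unfold con
    rw [Finset.sum_sub_distrib, hf', hf', hcard]
    linear_combination k03 - k12 - 2 * (f 0 3) * m1 + 2 * (f 1 2) * m2 - 2 * (f 2 3) * m3 +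
      2 * (f 1 3) * m4 + 2 * (f 0 2) * m5 - 2 * (f 0 1) * m6 + 2 * M 3 1 * halt 3 2 +
      2 * M 0 2 * halt 1 0 - 2 * M 3 0 * z3 - 2 * M 0 3 * z0 + 2 * M 2 1 * z2 + 2 * M 1 2 * z1
  · intro t ht v
    unfold con
    rw [h1.lab t ht v, h2.lab t ht v]
  · intro t ht t' ht' hne hq v
    unfold con
    rw [h1.alt t ht t' ht' hne hq v, h2.alt t ht t' ht' hne hq v]
    ring

/-- three slots -/
lemma three (r s u : R) (hr : r ∈ T) (hs : s ∈ T) (hu : u ∈ T) (hrs : r ≠ s) (hru : r ≠ u)
    (hsu : s ≠ u) (hqr : q r = b) (hqs : q s = b) (hqu : q u = b) (v : R → W) :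
    Φ v = B.ω (v r) (v s) * B.con r s Φ v -
      B.ω (v r) (v u) * B.con r s Φ (v ∘ Equiv.swap s u) +
      B.ω (v s) (v u) * B.con r s Φ (v ∘ Equiv.swap r u) := by
  -- the contraction as a function of a vector
  obtain ⟨Λ, hΛ⟩ : ∃ Λ : (R → W) → W → ℂ, Λ = fun v z =>
    Φ (Function.update (Function.update (Function.update v r (B.c4 0)) s (B.c4 3)) u z) -
    Φ (Function.update (Function.update (Function.update v r (B.c4 1)) s (B.c4 2)) u z) := ⟨_, rfl⟩
  have hΛ' : ∀ v z, Λ v z =
    Φ (Function.update (Function.update (Function.update v r (B.c4 0)) s (B.c4 3)) u z) -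
    Φ (Function.update (Function.update (Function.update v r (B.c4 1)) s (B.c4 2)) u z) := by
    intro v z; rw [hΛ]
  have e1 : B.con r s Φ v = Λ v (v u) := by
    rw [hΛ']
    unfold con
    have h1 : ∀ x y, Function.update (Function.update (Function.update v r x) s y) u (v u) =
        Function.update (Function.update v r x) s y := by
      intro x y
      rw [Function.update_eq_iff]
      refine ⟨?_, fun _ _ => rfl⟩
      rw [Function.update_of_ne (Ne.symm hsu), Function.update_of_ne (Ne.symm hru)]
    rw [h1, h1]
  have e2 : B.con r s Φ (v ∘ Equiv.swap s u) = Λ v (v s) := by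
    rw [hΛ']
    unfold con
    have h1 : ∀ x y, Function.update (Function.update (v ∘ Equiv.swap s u) r x) s y =
        Function.update (Function.update (Function.update v r x) s y) u (v s) := by
      intro x y
      funext t
      by_cases htu : t = u
      · subst htu
        rw [Function.update_of_ne (Ne.symm hsu), Function.update_of_ne (Ne.symm hru),
          Function.update_self, Function.comp_apply, Equiv.swap_apply_right]
      · rw [Function.update_of_ne htu]
        by_cases hts : t = s
        · subst hts; rw [Function.update_self, Function.update_self]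
        · rw [Function.update_of_ne hts, Function.update_of_ne hts]
          by_cases htr : t = r
          · subst htr; rw [Function.update_self, Function.update_self]
          · rw [Function.update_of_ne htr, Function.update_of_ne htr, Function.comp_apply,
              Equiv.swap_apply_of_ne_of_ne hts htu]
    rw [h1, h1]
  have e3 : B.con r s Φ (v ∘ Equiv.swap r u) = Λ v (v r) := by
    rw [hΛ']
    unfold con
    have h1 : ∀ x y, Function.update (Function.update (v ∘ Equiv.swap r u) r x) s y =
        Function.update (Function.update (Function.update v r x) s y) u (v r) := by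
      intro x y
      funext t
      by_cases htu : t = u
      · subst htu
        rw [Function.update_of_ne (Ne.symm hsu), Function.update_of_ne (Ne.symm hru),
          Function.update_self, Function.comp_apply, Equiv.swap_apply_right]
      · rw [Function.update_of_ne htu]
        by_cases hts : t = s
        · subst hts; rw [Function.update_self, Function.update_self]
        · rw [Function.update_of_ne hts, Function.update_of_ne hts]
          by_cases htr : t = r
          · subst htr; rw [Function.update_self, Function.update_self]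
          · rw [Function.update_of_ne htr, Function.update_of_ne htr, Function.comp_apply,
              Equiv.swap_apply_of_ne_of_ne htr htu]
    rw [h1, h1]
  rw [e1, e2, e3]
  -- linearity of the contraction
  have hΛE : ∀ v z, Λ v (E b z) = Λ v z := by
    intro v z
    rw [hΛ', hΛ']
    have h1 : ∀ w, Φ (Function.update w u (E b z)) = Φ (Function.update w u z) := by
      intro w
      have h2 := h.lab u hu (Function.update w u z)
      rw [Function.update_self, Function.update_idem, hqu] at h2
      exact h2
    rw [h1, h1]
  have hΛs : ∀ v (a : Fin 4 → ℂ), Λ v (∑ j, a j • B.c4 j) = ∑ j, a j * Λ v (B.c4 j) := by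
    intro v a
    rw [hΛ', h.toSF0.sum _ u hu, h.toSF0.sum _ u hu, ← Finset.sum_sub_distrib]
    refine Finset.sum_congr rfl fun j _ => ?_
    rw [hΛ']; ring
  have hΛu : ∀ v t w z, t = r ∨ t = s ∨ t = u → Λ (Function.update v t w) z = Λ v z := by
    intro v t w z ht
    rw [hΛ', hΛ']
    have h1 : ∀ x y, Function.update (Function.update (Function.update (Function.update v t w) r x)
        s y) u z = Function.update (Function.update (Function.update v r x) s y) u z := by
      intro x y
      funext t'
      by_cases htu : t' = u
      · subst htu; rw [Function.update_self, Function.update_self]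
      · rw [Function.update_of_ne htu, Function.update_of_ne htu]
        by_cases hts : t' = s
        · subst hts; rw [Function.update_self, Function.update_self]
        · rw [Function.update_of_ne hts, Function.update_of_ne hts]
          by_cases htr : t' = r
          · subst htr; rw [Function.update_self, Function.update_self]
          · rw [Function.update_of_ne htr, Function.update_of_ne htr, Function.update_of_ne]
            rintro rfl
            rcases ht with h2 | h2 | h2
            · exact htr h2
            · exact hts h2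
            · exact htu h2
    rw [h1, h1]
  rw [← sub_eq_zero]
  refine ext_slots (fun v => Φ v - (B.ω (v r) (v s) * Λ v (v u) - B.ω (v r) (v u) * Λ v (v s) +
    B.ω (v s) (v u) * Λ v (v r))) (fun _ => B.c4) {r, s, u} (fun t ht v w => ?_)
    (fun v hv => ?_) v
  · have ht' : t = r ∨ t = s ∨ t = u := by
      rw [Finset.mem_insert, Finset.mem_insert, Finset.mem_singleton] at ht
      exact ht
    have htT : t ∈ T := by rcases ht' with rfl | rfl | rfl <;> assumption
    have hqt : q t = b := by rcases ht' with rfl | rfl | rfl <;> assumption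
    obtain ⟨a, ha⟩ := B.hc4 w
    refine ⟨a, ?_⟩
    have f1 : Φ (Function.update v t w) = ∑ j, a j * Φ (Function.update v t (B.c4 j)) := by
      have h1 := h.lab t htT (Function.update v t w)
      rw [Function.update_self, Function.update_idem, hqt, ha, h.toSF0.sum _ t htT] at h1
      exact h1.symm
    have k1 : ∀ z, B.ω w z = ∑ j, a j * B.ω (B.c4 j) z := by
      intro z
      rw [← B.ωE, ha, map_sum, LinearMap.sum_apply]
      refine Finset.sum_congr rfl fun j _ => ?_
      rw [map_smul, LinearMap.smul_apply, smul_eq_mul]
    have k2 : ∀ z, B.ω z w = ∑ j, a j * B.ω z (B.c4 j) := by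
      intro z
      rw [← B.ωE', ha, map_sum]
      refine Finset.sum_congr rfl fun j _ => ?_
      rw [map_smul, smul_eq_mul]
    have k3 : ∀ v, Λ v w = ∑ j, a j * Λ v (B.c4 j) := by
      intro v
      rw [← hΛE, ha, hΛs]
    simp only [hΛu _ _ _ _ ht']
    rw [f1]
    rcases ht' with rfl | rfl | rfl
    · simp only [Function.update_self, Function.update_of_ne (Ne.symm hrs),
        Function.update_of_ne (Ne.symm hru)]
      rw [k1, k1, k3]
      simp only [Finset.sum_mul, Finset.mul_sum, ← Finset.sum_sub_distrib,
        ← Finset.sum_add_distrib]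
      exact Finset.sum_congr rfl fun _ _ => by ring
    · simp only [Function.update_self, Function.update_of_ne hrs,
        Function.update_of_ne (Ne.symm hsu)]
      rw [k1, k2, k3]
      simp only [Finset.sum_mul, Finset.mul_sum, ← Finset.sum_sub_distrib,
        ← Finset.sum_add_distrib]
      exact Finset.sum_congr rfl fun _ _ => by ring
    · simp only [Function.update_self, Function.update_of_ne hru,
        Function.update_of_ne hsu]
      rw [k2, k2, k3]
      simp only [Finset.sum_mul, Finset.mul_sum, ← Finset.sum_sub_distrib,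
        ← Finset.sum_add_distrib]
      exact Finset.sum_congr rfl fun _ _ => by ring
  · obtain ⟨i, hi⟩ := hv r (by simp)
    obtain ⟨j, hj⟩ := hv s (by simp)
    obtain ⟨l, hl⟩ := hv u (by simp)
    obtain ⟨f, hf⟩ : ∃ f : Fin 4 → Fin 4 → Fin 4 → ℂ, f = fun i j l => Φ (Function.update
      (Function.update (Function.update v r (B.c4 i)) s (B.c4 j)) u (B.c4 l)) := ⟨_, rfl⟩
    have hf' : ∀ i j l, Φ (Function.update
      (Function.update (Function.update v r (B.c4 i)) s (B.c4 j)) u (B.c4 l)) = f i j l := by
      intro i j l; rw [hf]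
    have hv' : Φ v = f i j l := by
      rw [← hf', ← hi, ← hj, ← hl, Function.update_eq_self, Function.update_eq_self,
        Function.update_eq_self]
    have a1 : ∀ i j l, f j i l = - f i j l := by
      intro i j l
      have h3 := h.alt r hr s hs hrs (by rw [hqr, hqs]) (Function.update
        (Function.update (Function.update v r (B.c4 i)) s (B.c4 j)) u (B.c4 l))
      rw [hf'] at h3
      rw [← h3, ← hf']
      congr 1
      funext t
      rw [Function.comp_apply]
      by_cases htu : t = u
      · subst htu
        rw [Equiv.swap_apply_of_ne_of_ne (Ne.symm hru) (Ne.symm hsu), Function.update_self,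
          Function.update_self]
      · rw [Function.update_of_ne htu]
        by_cases hts : t = s
        · subst hts
          rw [Equiv.swap_apply_right, Function.update_self, Function.update_of_ne hru,
            Function.update_of_ne hrs, Function.update_self]
        · rw [Function.update_of_ne hts]
          by_cases htr : t = r
          · subst htr
            rw [Equiv.swap_apply_left, Function.update_self, Function.update_of_ne hsu,
              Function.update_self]
          · rw [Function.update_of_ne htr, Equiv.swap_apply_of_ne_of_ne htr hts,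
              Function.update_of_ne htu, Function.update_of_ne hts, Function.update_of_ne htr]
    have a2 : ∀ i j l, f i l j = - f i j l := by
      intro i j l
      have h3 := h.alt s hs u hu hsu (by rw [hqs, hqu]) (Function.update
        (Function.update (Function.update v r (B.c4 i)) s (B.c4 j)) u (B.c4 l))
      rw [hf'] at h3
      rw [← h3, ← hf']
      congr 1
      funext t
      rw [Function.comp_apply]
      by_cases htu : t = u
      · subst htu
        rw [Equiv.swap_apply_right, Function.update_self, Function.update_of_ne hsu,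
          Function.update_self]
      · rw [Function.update_of_ne htu]
        by_cases hts : t = s
        · subst hts
          rw [Equiv.swap_apply_left, Function.update_self, Function.update_self]
        · rw [Function.update_of_ne hts]
          by_cases htr : t = r
          · subst htr
            rw [Equiv.swap_apply_of_ne_of_ne hrs hru, Function.update_self,
              Function.update_of_ne hru, Function.update_of_ne hrs, Function.update_self]
          · rw [Function.update_of_ne htr, Equiv.swap_apply_of_ne_of_ne hts htu,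
              Function.update_of_ne htu, Function.update_of_ne hts, Function.update_of_ne htr]
    have hΛf : ∀ l, Λ v (B.c4 l) = f 0 3 l - f 1 2 l := by
      intro l; rw [hΛ', hf', hf']
    rw [hv', hi, hj, hl, hΛf, hΛf, hΛf, B.ωc, B.ωc, B.ωc]
    refine sorted3 (fun i j l => f i j l - ((g4 i j : ℂ) * (f 0 3 l - f 1 2 l) -
      (g4 i l : ℂ) * (f 0 3 j - f 1 2 j) + (g4 j l : ℂ) * (f 0 3 i - f 1 2 i)))
      (fun i j l => ?_) (fun i j l => ?_) (fun i j l hij hjl => ?_) i j l
    · rw [a1 i j l, g4_alt j i]
      push_cast; ring
    · rw [a2 i j l, g4_alt l j]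
      push_cast; ring
    · have g01 : g4 0 1 = 0 := by decide
      have g02 : g4 0 2 = 0 := by decide
      have g03 : g4 0 3 = 1 := by decide
      have g12 : g4 1 2 = -1 := by decide
      have g13 : g4 1 3 = 0 := by decide
      have g23 : g4 2 3 = 0 := by decide
      have z1 : ∀ i l, f i i l = 0 := fun i l => by linear_combination (1/2) * a1 i i l
      have z2 : ∀ i l, f i l l = 0 := fun i l => by linear_combination (1/2) * a2 i l l
      rcases fin4_sorted3 i j l hij hjl with ⟨rfl, rfl, rfl⟩ | ⟨rfl, rfl, rfl⟩ |
        ⟨rfl, rfl, rfl⟩ | ⟨rfl, rfl, rfl⟩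
      · rw [g01, g02, g12]
        have b1 : f 0 3 0 = 0 := by rw [a2 0 0 3, z1, neg_zero]
        have b2 : f 1 2 0 = f 0 1 2 := by
          rw [a2 1 0 2, a1 0 1 2]; ring
        rw [b1, b2]; push_cast; ring
      · rw [g01, g03, g13]
        have b1 : f 0 3 1 = - f 0 1 3 := a2 0 1 3
        have b2 : f 1 2 1 = 0 := by rw [a2 1 1 2, z1, neg_zero]
        rw [b1, b2]; push_cast; ring
      · rw [g02, g03, g23]
        have b1 : f 0 3 2 = - f 0 2 3 := a2 0 2 3
        have b2 : f 1 2 2 = 0 := z2 1 2
        rw [b1, b2]; push_cast; ring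
      · rw [g12, g13, g23]
        have b1 : f 0 3 3 = 0 := z2 0 3
        rw [b1]; push_cast; ring

/-- reduction for labels with at least three slots -/
lemma mem_of_con (r s u : R) (hr : r ∈ T) (hs : s ∈ T) (hu : u ∈ T) (hrs : r ≠ s) (hru : r ≠ u)
    (hsu : s ≠ u) (hqr : q r = b) (hqs : q s = b) (hqu : q u = b)
    (hc : B.con r s Φ ∈ PS (invF 𝒢) (T \ {r, s})) : Φ ∈ PS (invF 𝒢) T := by
  have hW : (fun v : R → W => B.ω (v r) (v s) * 1) ∈ PS (invF 𝒢) {r, s} :=
    Submodule.subset_span (PP.cons r s B.ω B.hω (PP.nil (R := R) (𝓑 := invF 𝒢)) (by simp)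
      (by simp) hrs)
  have hT : ({r, s} : Finset R) ∪ (T \ {r, s}) = T := by
    rw [Finset.union_sdiff_of_subset]
    intro t ht
    rw [Finset.mem_insert, Finset.mem_singleton] at ht
    rcases ht with rfl | rfl
    · exact hr
    · exact hs
  have h1 := PS.mul hW hc Finset.disjoint_sdiff
  rw [hT] at h1
  have h2 : (fun v : R → W => B.ω (v r) (v s) * 1 * B.con r s Φ v) =
      fun v => B.ω (v r) (v s) * B.con r s Φ v := by funext v; ring
  rw [h2] at h1
  have h3 := PS.swap h1 s u hs hu
  have h4 := PS.swap h1 r u hr hu
  have h5 : Φ = (fun v => B.ω (v r) (v s) * B.con r s Φ v) -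
      (fun v => (fun v => B.ω (v r) (v s) * B.con r s Φ v) (v ∘ Equiv.swap s u)) -
      (fun v => (fun v => B.ω (v r) (v s) * B.con r s Φ v) (v ∘ Equiv.swap r u)) := by
    funext v
    rw [Pi.sub_apply, Pi.sub_apply]
    show Φ v = B.ω (v r) (v s) * B.con r s Φ v -
      B.ω (v (Equiv.swap s u r)) (v (Equiv.swap s u s)) * B.con r s Φ (v ∘ Equiv.swap s u) -
      B.ω (v (Equiv.swap r u r)) (v (Equiv.swap r u s)) * B.con r s Φ (v ∘ Equiv.swap r u)
    rw [Equiv.swap_apply_of_ne_of_ne hrs hru, Equiv.swap_apply_left, Equiv.swap_apply_left,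
      Equiv.swap_apply_of_ne_of_ne (Ne.symm hrs) hsu, B.ωalt (v u) (v s),
      B.three h r s u hr hs hu hrs hru hsu hqr hqs hqu v]
    ring
  rw [h5]
  exact Submodule.sub_mem _ (Submodule.sub_mem _ h1 h3) h4

end Lab4

end Pool.Agent.Helper8
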