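import Pool.Agent.Helper8.H.Weight
import Pool.Agent.Helper8.Lie.FrameDefs

/-!
Peeling off the slots of a label with a space of dimension four.
-/

set_option linter.unusedSectionVars false

namespace Pool.Agent.Helper8

open Pool.Agent.Helper7 (PP)

variable {R W A : Type*} [DecidableEq R] [AddCommGroup W] [Module ℂ W]

/-- data for a label with a space of dimension four -/
structure Big (𝒢 : Set (Module.End ℂ W × ℂ)) (E : A → Module.End ℂ W) (b : A) where
  c4 : Fin 4 → W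
  hc4 : ∀ w, ∃ x : Fin 4 → ℂ, E b w = ∑ j, x j • c4 j
  ω : W →ₗ[ℂ] W →ₗ[ℂ] ℂ
  hω : ω ∈ invF 𝒢
  ωE : ∀ u v, ω (E b u) v = ω u v
  ωalt : ∀ u v, ω u v = - ω v u
  ωc : ∀ i j, ω (c4 i) (c4 j) = (g4 i j : ℂ)
  H : Module.End ℂ W
  F : Module.End ℂ W
  hH : (H, (0 : ℂ)) ∈ 𝒢
  hF : (F, (0 : ℂ)) ∈ 𝒢
  H_c : ∀ j, H (c4 j) = (wt4 j : ℂ) • c4 j
  F_c : ∀ j, F (c4 j) = if j = 3 then 0 else c4 (j + 1)
  A1 : Finset A
  hA1 : A1.card ≤ 2
  c2 : A → Fin 2 → W
  hc2 : ∀ a ∈ A1, ∀ w, ∃ x : Fin 2 → ℂ, E a w = ∑ j, x j • c2 a j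
  hH2 : ∀ a ∈ A1, ∀ j, H (c2 a j) = (sg j : ℂ) • c2 a j
  h0 : ∀ a, a ≠ b → a ∉ A1 → ∀ w, E a (H w) = 0

section peel

variable {𝒢 : Set (Module.End ℂ W × ℂ)} {E : A → Module.End ℂ W} {q : R → A}
  {T : Finset R} {Φ : (R → W) → ℂ} {b : A} (B : Big 𝒢 E b)

lemma Big.ωE' (u v : W) : B.ω u (E b v) = B.ω u v := by
  rw [B.ωalt, B.ωE, ← B.ωalt]

/-- substitution of basis vectors in the slots of a subset -/
def Big.ins (S : Finset R) (y : R → Fin 4) (v : R → W) : R → W :=
  S.piecewise (fun r => B.c4 (y r)) v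

lemma Big.ins_dep (S : Finset R) (y y' : R → Fin 4) (h : ∀ r ∈ S, y r = y' r) (v : R → W) :
    B.ins S y v = B.ins S y' v := by
  funext r
  unfold Big.ins
  by_cases hr : r ∈ S
  · rw [Finset.piecewise_eq_of_mem _ _ _ hr, Finset.piecewise_eq_of_mem _ _ _ hr, h r hr]
  · rw [Finset.piecewise_eq_of_notMem _ _ _ hr, Finset.piecewise_eq_of_notMem _ _ _ hr]

lemma Big.ins_upd (S : Finset R) (y : R → Fin 4) (v : R → W) (r : R) (hr : r ∈ S) (j : Fin 4) :
    Function.update (B.ins S y v) r (B.c4 j) = B.ins S (Function.update y r j) v := by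
  funext t
  unfold Big.ins
  by_cases ht : t = r
  · subst ht
    rw [Function.update_self, Finset.piecewise_eq_of_mem _ _ _ hr, Function.update_self]
  · rw [Function.update_of_ne ht]
    by_cases htS : t ∈ S
    · rw [Finset.piecewise_eq_of_mem _ _ _ htS, Finset.piecewise_eq_of_mem _ _ _ htS,
        Function.update_of_ne ht]
    · rw [Finset.piecewise_eq_of_notMem _ _ _ htS, Finset.piecewise_eq_of_notMem _ _ _ htS]

lemma Big.ins_swap (S : Finset R) (y : R → Fin 4) (v : R → W) (r s : R) (hr : r ∈ S)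
    (hs : s ∈ S) : (B.ins S y v) ∘ Equiv.swap r s = B.ins S (y ∘ Equiv.swap r s) v := by
  funext t
  rw [Function.comp_apply]
  unfold Big.ins
  by_cases ht : t = r
  · subst ht
    rw [Equiv.swap_apply_left, Finset.piecewise_eq_of_mem _ _ _ hs,
      Finset.piecewise_eq_of_mem _ _ _ hr, Function.comp_apply, Equiv.swap_apply_left]
  · by_cases ht' : t = s
    · subst ht'
      rw [Equiv.swap_apply_right, Finset.piecewise_eq_of_mem _ _ _ hs,
        Finset.piecewise_eq_of_mem _ _ _ hr, Function.comp_apply, Equiv.swap_apply_right]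
    · rw [Equiv.swap_apply_of_ne_of_ne ht ht']
      by_cases htS : t ∈ S
      · rw [Finset.piecewise_eq_of_mem _ _ _ htS, Finset.piecewise_eq_of_mem _ _ _ htS,
          Function.comp_apply, Equiv.swap_apply_of_ne_of_ne ht ht']
      · rw [Finset.piecewise_eq_of_notMem _ _ _ htS, Finset.piecewise_eq_of_notMem _ _ _ htS]

variable (h : SF 𝒢 E q T Φ) {S : Finset R} (hST : S ⊆ T) (hSq : ∀ r ∈ S, q r = b)
include B h hST hSq

omit hSq in
lemma Big.id_H (y : R → Fin 4) (v : R → W) :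
    ∑ t ∈ T \ S, Φ (B.ins S y (Function.update v t (B.H (v t)))) =
      ((-∑ r ∈ S, wt4 (y r) : ℤ) : ℂ) * Φ (B.ins S y v) := by
  have h1 := h.inv _ B.hH (B.ins S y v)
  rw [mul_zero, zero_mul] at h1
  have h2 : ∑ t ∈ T, Φ (Function.update (B.ins S y v) t (B.H (B.ins S y v t))) = 0 :=
    (mul_eq_zero.mp h1).resolve_left two_ne_zero
  rw [← Finset.sum_sdiff hST] at h2
  have h3 : ∑ t ∈ T \ S, Φ (Function.update (B.ins S y v) t (B.H (B.ins S y v t))) =
      ∑ t ∈ T \ S, Φ (B.ins S y (Function.update v t (B.H (v t)))) := by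
    refine Finset.sum_congr rfl fun t ht => ?_
    rw [Finset.mem_sdiff] at ht
    unfold Big.ins
    rw [piecewise_update S _ v t ht.2, Finset.piecewise_eq_of_notMem _ _ _ ht.2]
  have h4 : ∑ t ∈ S, Φ (Function.update (B.ins S y v) t (B.H (B.ins S y v t))) =
      ((∑ r ∈ S, wt4 (y r) : ℤ) : ℂ) * Φ (B.ins S y v) := by
    push_cast
    rw [Finset.sum_mul]
    refine Finset.sum_congr rfl fun t ht => ?_
    have h5 : B.ins S y v t = B.c4 (y t) := Finset.piecewise_eq_of_mem _ _ _ ht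
    rw [h5, B.H_c, h.smul _ t (hST ht), ← h5, Function.update_eq_self]
  rw [h3, h4] at h2
  push_cast at h2 ⊢
  linear_combination h2

omit hSq in
lemma Big.id_F (y : R → Fin 4) (v : R → W) :
    ∑ t ∈ T \ S, Φ (B.ins S y (Function.update v t (B.F (v t)))) +
      ∑ r ∈ S, (if y r = 3 then 0 else Φ (B.ins S (Function.update y r (y r + 1)) v)) = 0 := by
  have h1 := h.inv _ B.hF (B.ins S y v)
  rw [mul_zero, zero_mul] at h1
  have h2 : ∑ t ∈ T, Φ (Function.update (B.ins S y v) t (B.F (B.ins S y v t))) = 0 :=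
    (mul_eq_zero.mp h1).resolve_left two_ne_zero
  rw [← Finset.sum_sdiff hST] at h2
  have h3 : ∑ t ∈ T \ S, Φ (Function.update (B.ins S y v) t (B.F (B.ins S y v t))) =
      ∑ t ∈ T \ S, Φ (B.ins S y (Function.update v t (B.F (v t)))) := by
    refine Finset.sum_congr rfl fun t ht => ?_
    rw [Finset.mem_sdiff] at ht
    unfold Big.ins
    rw [piecewise_update S _ v t ht.2, Finset.piecewise_eq_of_notMem _ _ _ ht.2]
  have h4 : ∑ t ∈ S, Φ (Function.update (B.ins S y v) t (B.F (B.ins S y v t))) =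
      ∑ r ∈ S, (if y r = 3 then 0 else Φ (B.ins S (Function.update y r (y r + 1)) v)) := by
    refine Finset.sum_congr rfl fun t ht => ?_
    have h5 : B.ins S y v t = B.c4 (y t) := Finset.piecewise_eq_of_mem _ _ _ ht
    rw [h5, B.F_c]
    split_ifs with h6
    · exact h.toSF0.zero _ t (hST ht) (Function.update_self _ _ _)
    · rw [B.ins_upd S y v t ht]
  rw [h3, h4] at h2
  exact h2

omit hSq in
/-- vanishing for large weights -/
lemma Big.weight_zero [DecidableEq A] (hSq' : ∀ r ∈ T, r ∉ S → q r ≠ b) (y : R → Fin 4)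
    (hy : 2 < |∑ r ∈ S, wt4 (y r)|) (v : R → W) : Φ (B.ins S y v) = 0 := by
  have h1 := h.toSF0.sub_slots S (fun r => B.c4 (y r))
  refine h1.weight_le B.A1 B.H B.c2 B.hc2 B.hH2 (fun t ht hq => ?_) _
    (fun v => B.id_H h hST y v) (fun m hm hcon => ?_) v
  · rw [Finset.mem_sdiff] at ht
    exact B.h0 _ (hSq' t ht.1 ht.2) hq
  · have h2 : m = -∑ r ∈ S, wt4 (y r) := by exact_mod_cast hcon
    rw [h2, abs_neg] at hm
    have h3 : ((B.A1.card : ℕ) : ℤ) ≤ 2 := by exact_mod_cast B.hA1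
    omega

/-- substitutions with a repetition vanish -/
lemma Big.swap_ins (y : R → Fin 4) (v : R → W) (r s : R) (hr : r ∈ S) (hs : s ∈ S)
    (hne : r ≠ s) : Φ (B.ins S (y ∘ Equiv.swap r s) v) = - Φ (B.ins S y v) := by
  rw [← B.ins_swap S y v r s hr hs]
  exact h.alt r (hST hr) s (hST hs) hne (by rw [hSq r hr, hSq s hs]) _

lemma Big.zero_of (h0 : ∀ (y : R → Fin 4) v, Φ (B.ins S y v) = 0) (v : R → W) : Φ v = 0 := by
  refine h.toSF0.ext_on (fun _ => B.c4) S hST (fun t ht w => ?_) (fun v hv => ?_) v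
  · rw [hSq t ht]; exact B.hc4 w
  · have hj : ∀ t, ∃ j : Fin 4, t ∈ S → v t = B.c4 j := by
      intro t
      by_cases ht : t ∈ S
      · obtain ⟨j, hj⟩ := hv t ht
        exact ⟨j, fun _ => hj⟩
      · exact ⟨0, fun h => absurd h ht⟩
    choose y hy using hj
    rw [← h0 y v]
    congr 1
    funext t
    unfold Big.ins
    by_cases ht : t ∈ S
    · rw [Finset.piecewise_eq_of_mem _ _ _ ht, hy t ht]
    · rw [Finset.piecewise_eq_of_notMem _ _ _ ht]

/-- more than four slots -/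
lemma Big.peel5 (hcard : 4 < S.card) (v : R → W) : Φ v = 0 := by
  refine B.zero_of h hST hSq (fun y v => ?_) v
  obtain ⟨r, hr, s, hs, hne, hrs⟩ := Finset.exists_ne_map_eq_of_card_lt_of_maps_to
    (t := (Finset.univ : Finset (Fin 4))) (by simpa using hcard) (f := y)
    (fun a _ => Finset.mem_univ _)
  refine h.toSF0.eq_zero_of_eq _ r s (hST hr) (hST hs) hne (by rw [hSq r hr, hSq s hs]) ?_
  unfold Big.ins
  rw [Finset.piecewise_eq_of_mem _ _ _ hr, Finset.piecewise_eq_of_mem _ _ _ hs, hrs]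

variable [DecidableEq A] (hSq' : ∀ r ∈ T, r ∉ S → q r ≠ b)
include hSq'

/-- one slot -/
lemma Big.peel1 (r : R) (hS : S = {r}) (v : R → W) : Φ v = 0 := by
  refine B.zero_of h hST hSq (fun y v => ?_) v
  have hdep : ∀ y v, Φ (B.ins S y v) = Φ (B.ins S (fun _ => y r) v) := by
    intro y v
    rw [B.ins_dep S y (fun _ => y r) (fun t ht => by
      rw [hS, Finset.mem_singleton] at ht; rw [ht])]
  rw [hdep]
  obtain ⟨f, hf⟩ : ∃ f : Fin 4 → (R → W) → ℂ, f = fun i v => Φ (B.ins S (fun _ => i) v) :=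
    ⟨_, rfl⟩
  have hf' : ∀ i v, Φ (B.ins S (fun _ => i) v) = f i v := by intro i v; rw [hf]
  have k0 : ∀ v, f 0 v = 0 := by
    intro v
    rw [← hf']
    refine B.weight_zero h hST hSq' _ ?_ v
    rw [hS, Finset.sum_singleton]
    decide
  have kF : ∀ i v, i ≠ 3 → (∀ v, f i v = 0) → f (i + 1) v = 0 := by
    intro i v hi h1
    have h2 := B.id_F h hST (fun _ => i) v
    rw [Finset.sum_eq_zero (fun t _ => by rw [hf']; exact h1 _), zero_add, hS,
      Finset.sum_singleton, if_neg hi, ← hS, hdep, Function.update_self, hf'] at h2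
    exact h2
  have k1 : ∀ v, f 1 v = 0 := fun v => kF 0 v (by decide) k0
  have k2 : ∀ v, f 2 v = 0 := fun v => kF 1 v (by decide) k1
  have k3 : ∀ v, f 3 v = 0 := fun v => kF 2 v (by decide) k2
  rw [hf']
  have hfin : ∀ i : Fin 4, i = 0 ∨ i = 1 ∨ i = 2 ∨ i = 3 := by decide
  rcases hfin (y r) with h1 | h1 | h1 | h1 <;> rw [h1]
  · exact k0 v
  · exact k1 v
  · exact k2 v
  · exact k3 v

end peel

end Pool.Agent.Helper8
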