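import Pool.Agent.Helper8.H.Peel
import Pool.Agent.Helper8.Lie.NumRest

/-!
Peeling off two, three or four slots of a label with a space of dimension four.
-/

set_option linter.unusedSectionVars false

namespace Pool.Agent.Helper8

open Pool.Agent.Helper7 (PP)

variable {R W A : Type*} [DecidableEq R] [AddCommGroup W] [Module ℂ W]
variable {𝒢 : Set (Module.End ℂ W × ℂ)} {E : A → Module.End ℂ W} {q : R → A}
  {T : Finset R} {Φ : (R → W) → ℂ} {b : A} (B : Big 𝒢 E b)
variable (h : SF 𝒢 E q T Φ) {S : Finset R} (hST : S ⊆ T) (hSq : ∀ r ∈ S, q r = b)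
variable [DecidableEq A] (hSq' : ∀ r ∈ T, r ∉ S → q r ≠ b)

lemma fin4_sorted3 : ∀ i j k : Fin 4, i < j → j < k →
    (i = 0 ∧ j = 1 ∧ k = 2) ∨ (i = 0 ∧ j = 1 ∧ k = 3) ∨ (i = 0 ∧ j = 2 ∧ k = 3) ∨
    (i = 1 ∧ j = 2 ∧ k = 3) := by decide

lemma fin4_sorted2 : ∀ i j : Fin 4, i < j →
    (i = 0 ∧ j = 1) ∨ (i = 0 ∧ j = 2) ∨ (i = 0 ∧ j = 3) ∨ (i = 1 ∧ j = 2) ∨ (i = 1 ∧ j = 3) ∨
    (i = 2 ∧ j = 3) := by decide

lemma fin4_sorted4 : ∀ i j k l : Fin 4, i < j → j < k → k < l →
    i = 0 ∧ j = 1 ∧ k = 2 ∧ l = 3 := by decide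

/-- a function with three values -/
def y3 (r s : R) (i j k : Fin 4) : R → Fin 4 := fun t => if t = r then i else if t = s then j else k

/-- a function with two values -/
def y2 (r : R) (i j : Fin 4) : R → Fin 4 := fun t => if t = r then i else j

/-- a function with four values -/
def y4 (r s u : R) (i j k l : Fin 4) : R → Fin 4 :=
  fun t => if t = r then i else if t = s then j else if t = u then k else l

include B h hST hSq hSq' in
/-- three slots -/
lemma Big.peel3 (r s u : R) (hrs : r ≠ s) (hru : r ≠ u) (hsu : s ≠ u) (hS : S = {r, s, u})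
    (v : R → W) : Φ v = 0 := by
  have hr : r ∈ S := by rw [hS]; simp
  have hs : s ∈ S := by rw [hS]; simp
  have hu : u ∈ S := by rw [hS]; simp
  have hmem : ∀ t ∈ S, t = r ∨ t = s ∨ t = u := by
    intro t ht; rw [hS] at ht; simpa using ht
  have hsum : ∀ φ : R → ℂ, ∑ t ∈ S, φ t = φ r + (φ s + φ u) := by
    intro φ
    rw [hS, Finset.sum_insert (by simp [hrs, hru]), Finset.sum_pair hsu]
  have hsumZ : ∀ φ : R → ℤ, ∑ t ∈ S, φ t = φ r + (φ s + φ u) := by
    intro φ
    rw [hS, Finset.sum_insert (by simp [hrs, hru]), Finset.sum_pair hsu]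
  obtain ⟨f, hf⟩ : ∃ f : Fin 4 → Fin 4 → Fin 4 → (R → W) → ℂ,
      f = fun i j k v => Φ (B.ins S (y3 r s i j k) v) := ⟨_, rfl⟩
  have hf' : ∀ i j k v, Φ (B.ins S (y3 r s i j k) v) = f i j k v := by intro i j k v; rw [hf]
  have hdep : ∀ y v, Φ (B.ins S y v) = f (y r) (y s) (y u) v := by
    intro y v
    rw [← hf', B.ins_dep S y (y3 r s (y r) (y s) (y u)) (fun t ht => by
      unfold y3
      rcases hmem t ht with rfl | rfl | rfl
      · rw [if_pos rfl]
      · rw [if_neg (Ne.symm hrs), if_pos rfl]
      · rw [if_neg (Ne.symm hru), if_neg (Ne.symm hsu)])]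
  have hyr : ∀ i j k, y3 r s i j k r = i := fun i j k => by unfold y3; rw [if_pos rfl]
  have hys : ∀ i j k, y3 r s i j k s = j := fun i j k => by
    unfold y3; rw [if_neg (Ne.symm hrs), if_pos rfl]
  have hyu : ∀ i j k, y3 r s i j k u = k := fun i j k => by
    unfold y3; rw [if_neg (Ne.symm hru), if_neg (Ne.symm hsu)]
  have a1 : ∀ v i j k, f j i k v = - f i j k v := by
    intro v i j k
    have h1 := B.swap_ins h hST hSq (y3 r s i j k) v r s hr hs hrs
    rw [hdep, hf', Function.comp_apply, Function.comp_apply, Function.comp_apply,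
      Equiv.swap_apply_left, Equiv.swap_apply_right,
      Equiv.swap_apply_of_ne_of_ne (Ne.symm hru) (Ne.symm hsu), hyr, hys, hyu] at h1
    exact h1
  have a2 : ∀ v i j k, f i k j v = - f i j k v := by
    intro v i j k
    have h1 := B.swap_ins h hST hSq (y3 r s i j k) v s u hs hu hsu
    rw [hdep, hf', Function.comp_apply, Function.comp_apply, Function.comp_apply,
      Equiv.swap_apply_left, Equiv.swap_apply_right,
      Equiv.swap_apply_of_ne_of_ne hrs hru, hyr, hys, hyu] at h1
    exact h1
  have z1 : ∀ i k v, f i i k v = 0 := fun i k v => by linear_combination (1/2) * a1 v i i k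
  have z2 : ∀ i k v, f i k k v = 0 := fun i k v => by linear_combination (1/2) * a2 v i k k
  have k0 : ∀ v, f 0 1 2 v = 0 := by
    intro v
    rw [← hf']
    refine B.weight_zero h hST hSq' _ ?_ v
    rw [hsumZ, hyr, hys, hyu]
    decide
  have kF : ∀ i j k v, (∀ v, f i j k v = 0) →
      (if i = 3 then 0 else f (i + 1) j k v) + ((if j = 3 then 0 else f i (j + 1) k v) +
        (if k = 3 then 0 else f i j (k + 1) v)) = 0 := by
    intro i j k v h1
    have h2 := B.id_F h hST (y3 r s i j k) v
    rw [Finset.sum_eq_zero (fun t _ => by rw [hf']; exact h1 _), zero_add, hsum, hyr, hys, hyu,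
      hdep, hdep, hdep] at h2
    simp only [Function.update_self, Function.update_of_ne hrs, Function.update_of_ne hru,
      Function.update_of_ne hsu, Function.update_of_ne (Ne.symm hrs),
      Function.update_of_ne (Ne.symm hru), Function.update_of_ne (Ne.symm hsu), hyr, hys, hyu] at h2
    exact h2
  have k1 : ∀ v, f 0 1 3 v = 0 := by
    intro v
    have h1 := kF 0 1 2 v k0
    have e1 : (0 : Fin 4) + 1 = 1 := by decide
    have e2 : (1 : Fin 4) + 1 = 2 := by decide
    have e3 : (2 : Fin 4) + 1 = 3 := by decide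
    rw [if_neg (by decide), if_neg (by decide), if_neg (by decide), e1, e2, e3, z1, z2] at h1
    linear_combination h1
  have k2 : ∀ v, f 0 2 3 v = 0 := by
    intro v
    have h1 := kF 0 1 3 v k1
    have e1 : (0 : Fin 4) + 1 = 1 := by decide
    have e2 : (1 : Fin 4) + 1 = 2 := by decide
    rw [if_neg (by decide), if_neg (by decide), if_pos rfl, e1, e2, z1] at h1
    linear_combination h1
  have k3 : ∀ v, f 1 2 3 v = 0 := by
    intro v
    have h1 := kF 0 2 3 v k2
    have e1 : (0 : Fin 4) + 1 = 1 := by decide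
    have e3 : (2 : Fin 4) + 1 = 3 := by decide
    rw [if_neg (by decide), if_neg (by decide), if_pos rfl, e1, e3, z2] at h1
    linear_combination h1
  refine B.zero_of h hST hSq (fun y v => ?_) v
  rw [hdep]
  refine sorted3 (fun i j k => f i j k v) (a1 v) (a2 v) (fun i j k hij hjk => ?_) _ _ _
  rcases fin4_sorted3 i j k hij hjk with ⟨rfl, rfl, rfl⟩ | ⟨rfl, rfl, rfl⟩ | ⟨rfl, rfl, rfl⟩ |
    ⟨rfl, rfl, rfl⟩
  · exact k0 v
  · exact k1 v
  · exact k2 v
  · exact k3 v

include B h hST hSq hSq' in
/-- two slots -/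
lemma Big.peel2 (r s : R) (hrs : r ≠ s) (hS : S = {r, s}) (v : R → W) :
    Φ v = B.ω (v r) (v s) * Φ (B.ins S (y2 r 0 3) v) := by
  have hr : r ∈ S := by rw [hS]; simp
  have hs : s ∈ S := by rw [hS]; simp
  have hmem : ∀ t ∈ S, t = r ∨ t = s := by
    intro t ht; rw [hS] at ht; simpa using ht
  have hsum : ∀ φ : R → ℂ, ∑ t ∈ S, φ t = φ r + φ s := by
    intro φ
    rw [hS, Finset.sum_pair hrs]
  have hsumZ : ∀ φ : R → ℤ, ∑ t ∈ S, φ t = φ r + φ s := by
    intro φ
    rw [hS, Finset.sum_pair hrs]
  obtain ⟨f, hf⟩ : ∃ f : Fin 4 → Fin 4 → (R → W) → ℂ,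
      f = fun i j v => Φ (B.ins S (y2 r i j) v) := ⟨_, rfl⟩
  have hf' : ∀ i j v, Φ (B.ins S (y2 r i j) v) = f i j v := by intro i j v; rw [hf]
  have hdep : ∀ y v, Φ (B.ins S y v) = f (y r) (y s) v := by
    intro y v
    rw [← hf', B.ins_dep S y (y2 r (y r) (y s)) (fun t ht => by
      unfold y2
      rcases hmem t ht with rfl | rfl
      · rw [if_pos rfl]
      · rw [if_neg (Ne.symm hrs)])]
  have hyr : ∀ i j, y2 r i j r = i := fun i j => by unfold y2; rw [if_pos rfl]
  have hys : ∀ i j, y2 r i j s = j := fun i j => by unfold y2; rw [if_neg (Ne.symm hrs)]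
  have a1 : ∀ v i j, f j i v = - f i j v := by
    intro v i j
    have h1 := B.swap_ins h hST hSq (y2 r i j) v r s hr hs hrs
    rw [hdep, hf', Function.comp_apply, Function.comp_apply,
      Equiv.swap_apply_left, Equiv.swap_apply_right, hyr, hys] at h1
    exact h1
  have z1 : ∀ i v, f i i v = 0 := fun i v => by linear_combination (1/2) * a1 v i i
  have k01 : ∀ v, f 0 1 v = 0 := by
    intro v
    rw [← hf']
    refine B.weight_zero h hST hSq' _ ?_ v
    rw [hsumZ, hyr, hys]
    decide
  have kF0 : ∀ i j v, ∑ t ∈ T \ S, f i j (Function.update v t (B.F (v t))) +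
      ((if i = 3 then 0 else f (i + 1) j v) + (if j = 3 then 0 else f i (j + 1) v)) = 0 := by
    intro i j v
    have h2 := B.id_F h hST (y2 r i j) v
    rw [hsum, hyr, hys, hdep, hdep] at h2
    simp only [Function.update_self, Function.update_of_ne hrs, 
      Function.update_of_ne (Ne.symm hrs), hyr, hys, hf'] at h2
    exact h2
  have kF : ∀ i j v, (∀ v, f i j v = 0) →
      (if i = 3 then 0 else f (i + 1) j v) + (if j = 3 then 0 else f i (j + 1) v) = 0 := by
    intro i j v h1
    have h2 := kF0 i j v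
    rw [Finset.sum_eq_zero (fun t _ => h1 _), zero_add] at h2
    exact h2
  have e1 : (0 : Fin 4) + 1 = 1 := by decide
  have e2 : (1 : Fin 4) + 1 = 2 := by decide
  have e3 : (2 : Fin 4) + 1 = 3 := by decide
  have k02 : ∀ v, f 0 2 v = 0 := by
    intro v
    have h1 := kF 0 1 v k01
    rw [if_neg (by decide), if_neg (by decide), e1, e2, z1] at h1
    linear_combination h1
  have k12 : ∀ v, f 1 2 v = - f 0 3 v := by
    intro v
    have h1 := kF 0 2 v k02
    rw [if_neg (by decide), if_neg (by decide), e1, e3] at h1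
    linear_combination h1
  have k13 : ∀ v, f 1 3 v = 0 := by
    intro v
    have h1 := kF0 1 2 v
    have h2 := kF0 0 3 v
    rw [if_neg (by decide), if_neg (by decide), e2, e3, z1] at h1
    rw [if_neg (by decide), if_pos rfl, e1] at h2
    have h3 : ∑ t ∈ T \ S, f 1 2 (Function.update v t (B.F (v t))) =
        - ∑ t ∈ T \ S, f 0 3 (Function.update v t (B.F (v t))) := by
      rw [← Finset.sum_neg_distrib]
      exact Finset.sum_congr rfl fun t _ => k12 _
    rw [h3] at h1
    linear_combination (1/2) * h1 + (1/2) * h2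
  have k23 : ∀ v, f 2 3 v = 0 := by
    intro v
    have h1 := kF 1 3 v k13
    rw [if_neg (by decide), if_pos rfl, e2] at h1
    linear_combination h1
  -- all values
  have hall : ∀ i j v, f i j v = (g4 i j : ℂ) * f 0 3 v := by
    intro i j v
    rw [← sub_eq_zero]
    refine sorted2 (fun i j => f i j v - (g4 i j : ℂ) * f 0 3 v) (fun i j => ?_)
      (fun i j hij => ?_) i j
    · have h1 := g4_alt i j
      rw [a1 v i j, h1]
      push_cast; ring
    · have g01 : g4 0 1 = 0 := by decide
      have g02 : g4 0 2 = 0 := by decide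
      have g03 : g4 0 3 = 1 := by decide
      have g12 : g4 1 2 = -1 := by decide
      have g13 : g4 1 3 = 0 := by decide
      have g23 : g4 2 3 = 0 := by decide
      rcases fin4_sorted2 i j hij with ⟨rfl, rfl⟩ | ⟨rfl, rfl⟩ | ⟨rfl, rfl⟩ | ⟨rfl, rfl⟩ |
        ⟨rfl, rfl⟩ | ⟨rfl, rfl⟩
      · rw [k01, g01]; push_cast; ring
      · rw [k02, g02]; push_cast; ring
      · rw [g03]; push_cast; ring
      · rw [k12, g12]; push_cast; ring
      · rw [k13, g13]; push_cast; ring
      · rw [k23, g23]; push_cast; ring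
  -- extension by linearity
  have hb : ∀ (y : R → Fin 4) (v : R → W), Φ (B.ins S y v) =
      B.ω (B.c4 (y r)) (B.c4 (y s)) * Φ (B.ins S (y2 r 0 3) v) := by
    intro y v
    rw [hdep, hall, B.ωc, hf']
  -- the first slot, then the second
  have hstep : ∀ x x' : W, Φ (Function.update (Function.update v r x) s x') =
      B.ω x x' * Φ (B.ins S (y2 r 0 3) v) := by
    intro x x'
    obtain ⟨a, ha⟩ := B.hc4 x
    obtain ⟨a', ha'⟩ := B.hc4 x'
    have e1 : Φ (Function.update (Function.update v r x) s x') =
        Φ (Function.update (Function.update v r (E b x)) s (E b x')) := by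
      have h1 := h.lab s (hST hs) (Function.update (Function.update v r x) s x')
      rw [Function.update_self, Function.update_idem, hSq s hs] at h1
      have h2 := h.lab r (hST hr) (Function.update (Function.update v r x) s (E b x'))
      rw [Function.update_of_ne hrs, Function.update_self, hSq r hr,
        Function.update_comm (Ne.symm hrs), Function.update_idem] at h2
      rw [← h1, ← h2]
    have e2 : B.ω x x' = B.ω (E b x) (E b x') := by rw [B.ωE, B.ωE']
    rw [e1, e2, ha, ha', h.toSF0.sum _ s (hST hs), map_sum, map_sum, Finset.sum_mul]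
    refine Finset.sum_congr rfl fun j' _ => ?_
    rw [Function.update_comm hrs, h.toSF0.sum _ r (hST hr), map_smul]
    simp only [LinearMap.sum_apply, LinearMap.smul_apply, map_smul, smul_eq_mul]
    rw [Finset.mul_sum, Finset.mul_sum, Finset.sum_mul]
    refine Finset.sum_congr rfl fun j _ => ?_
    have h3 : Function.update (Function.update v s (B.c4 j')) r (B.c4 j) =
        B.ins S (y2 r j j') v := by
      funext t
      unfold Big.ins
      by_cases ht : t = r
      · subst ht
        rw [Function.update_self, Finset.piecewise_eq_of_mem _ _ _ hr, hyr]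
      · rw [Function.update_of_ne ht]
        by_cases ht' : t = s
        · subst ht'
          rw [Function.update_self, Finset.piecewise_eq_of_mem _ _ _ hs, hys]
        · rw [Function.update_of_ne ht', Finset.piecewise_eq_of_notMem]
          intro htS
          rcases hmem t htS with h4 | h4
          · exact ht h4
          · exact ht' h4
    rw [h3, hb, hyr, hys]
    ring
  have h5 := hstep (v r) (v s)
  rw [Function.update_eq_self, Function.update_eq_self] at h5
  exact h5

end Pool.Agent.Helper8
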