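import Pool.Agent.Helper8.H.Peel2
import Pool.Agent.Helper8.Lie.Num4

/-!
Peeling off four slots of a label with a space of dimension four.
-/

set_option linter.unusedSectionVars false

namespace Pool.Agent.Helper8

open Pool.Agent.Helper7 (PP)

variable {R W A : Type*} [DecidableEq R] [AddCommGroup W] [Module ℂ W]

/-- vanishing of functions which are linear in some slots from the values on spanning vectors -/
lemma ext_slots {m : ℕ} (Ψ : (R → W) → ℂ) (c : R → Fin m → W) (S : Finset R)
    (hlin : ∀ t ∈ S, ∀ v w, ∃ x : Fin m → ℂ, Ψ (Function.update v t w) =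
      ∑ j, x j * Ψ (Function.update v t (c t j)))
    (h0 : ∀ v, (∀ t ∈ S, ∃ j, v t = c t j) → Ψ v = 0) : ∀ v, Ψ v = 0 := by
  induction S using Finset.induction_on with
  | empty => exact fun v => h0 v fun t ht => absurd ht (Finset.notMem_empty t)
  | insert a S ha ih =>
    refine ih (fun t ht => hlin t (Finset.mem_insert_of_mem ht)) fun v hv => ?_
    obtain ⟨x, hx⟩ := hlin a (Finset.mem_insert_self _ _) v (v a)
    rw [Function.update_eq_self] at hx
    rw [hx]
    refine Finset.sum_eq_zero fun j _ => ?_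
    rw [h0, mul_zero]
    intro t ht
    by_cases hta : t = a
    · subst hta
      exact ⟨j, by rw [Function.update_self]⟩
    · obtain ⟨j', hj'⟩ := hv t ((Finset.mem_insert.mp ht).resolve_left hta)
      exact ⟨j', by rw [Function.update_of_ne hta, hj']⟩

variable {𝒢 : Set (Module.End ℂ W × ℂ)} {E : A → Module.End ℂ W} {q : R → A}
  {T : Finset R} {Φ : (R → W) → ℂ} {b : A} (B : Big 𝒢 E b)

/-- the normalised square of the form on four slots -/
def Big.gg (r s u x : R) (v : R → W) : ℂ :=
  -(B.ω (v r) (v s) * B.ω (v u) (v x) - B.ω (v r) (v u) * B.ω (v s) (v x) +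
    B.ω (v r) (v x) * B.ω (v s) (v u))

lemma Big.gg_mem (r s u x : R) (hrs : r ≠ s) (hru : r ≠ u) (hrx : r ≠ x) (hsu : s ≠ u)
    (hsx : s ≠ x) (hux : u ≠ x) : B.gg r s u x ∈ PS (invF 𝒢) {r, s, u, x} := by
  have h2 : ∀ a c : R, a ≠ c → PP (invF 𝒢) {a, c} (fun v : R → W => B.ω (v a) (v c) * 1) := by
    intro a c hac
    have h1 := PP.cons a c B.ω B.hω (PP.nil (R := R) (𝓑 := invF 𝒢)) (by simp) (by simp) hac
    exact h1
  have key : ∀ a c d e : R, a ≠ c → a ≠ d → a ≠ e → c ≠ d → c ≠ e → d ≠ e →
      ({a, c} ∪ {d, e} : Finset R) = {r, s, u, x} →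
      (fun v : R → W => B.ω (v a) (v c) * B.ω (v d) (v e)) ∈ PS (invF 𝒢) {r, s, u, x} := by
    intro a c d e hac had hae hcd hce hde hS
    apply Submodule.subset_span
    have h3 := PP.mul (h2 a c hac) (h2 d e hde) (by
      rw [Finset.disjoint_insert_left, Finset.disjoint_singleton_left]
      simp [had, hae, hcd, hce])
    rw [hS] at h3
    have h4 : (fun v : R → W => B.ω (v a) (v c) * 1 * (B.ω (v d) (v e) * 1)) =
        fun v => B.ω (v a) (v c) * B.ω (v d) (v e) := by funext v; ring
    rw [h4] at h3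
    exact h3
  have e1 : (B.gg r s u x : (R → W) → ℂ) = -((fun v => B.ω (v r) (v s) * B.ω (v u) (v x)) -
      (fun v => B.ω (v r) (v u) * B.ω (v s) (v x)) +
      (fun v => B.ω (v r) (v x) * B.ω (v s) (v u))) := by
    funext v; rfl
  rw [e1]
  refine Submodule.neg_mem _ (Submodule.add_mem _ (Submodule.sub_mem _ ?_ ?_) ?_)
  · exact key r s u x hrs hru hrx hsu hsx hux (by ext t; simp; tauto)
  · exact key r u s x hru hrs hrx (Ne.symm hsu) hux hsx (by ext t; simp; tauto)
  · exact key r x s u hrx hrs hru (Ne.symm hsx) (Ne.symm hux) hsu (by ext t; simp; tauto)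

lemma sq_g4_a1 (i j k l : Fin 4) : sq g4 j i k l = - sq g4 i j k l := by
  simp only [sq]
  rw [g4_alt j i, g4_alt j k]
  have h1 := g4_alt k j
  rw [h1]; ring

lemma sq_g4_a2 (i j k l : Fin 4) : sq g4 i k j l = - sq g4 i j k l := by
  simp only [sq]
  rw [g4_alt k j]; ring

lemma sq_g4_a3 (i j k l : Fin 4) : sq g4 i j l k = - sq g4 i j k l := by
  simp only [sq]
  rw [g4_alt l k]; ring

variable (h : SF 𝒢 E q T Φ) {S : Finset R} (hST : S ⊆ T) (hSq : ∀ r ∈ S, q r = b)
variable [DecidableEq A] (hSq' : ∀ r ∈ T, r ∉ S → q r ≠ b)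

include B h hST hSq in
/-- four slots -/
lemma Big.peel4 (r s u x : R) (hrs : r ≠ s) (hru : r ≠ u) (hrx : r ≠ x) (hsu : s ≠ u)
    (hsx : s ≠ x) (hux : u ≠ x) (hS : S = {r, s, u, x}) (v : R → W) :
    Φ v = B.gg r s u x v * Φ (B.ins S (y4 r s u 0 1 2 3) v) := by
  have hr : r ∈ S := by rw [hS]; simp
  have hs : s ∈ S := by rw [hS]; simp
  have hu : u ∈ S := by rw [hS]; simp
  have hx : x ∈ S := by rw [hS]; simp
  have hmem : ∀ t ∈ S, t = r ∨ t = s ∨ t = u ∨ t = x := by
    intro t ht; rw [hS] at ht; simpa using ht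
  obtain ⟨f, hf⟩ : ∃ f : Fin 4 → Fin 4 → Fin 4 → Fin 4 → (R → W) → ℂ,
      f = fun i j k l v => Φ (B.ins S (y4 r s u i j k l) v) := ⟨_, rfl⟩
  have hf' : ∀ i j k l v, Φ (B.ins S (y4 r s u i j k l) v) = f i j k l v := by
    intro i j k l v; rw [hf]
  have hdep : ∀ y v, Φ (B.ins S y v) = f (y r) (y s) (y u) (y x) v := by
    intro y v
    rw [← hf', B.ins_dep S y (y4 r s u (y r) (y s) (y u) (y x)) (fun t ht => by
      unfold y4
      rcases hmem t ht with rfl | rfl | rfl | rfl
      · rw [if_pos rfl]
      · rw [if_neg (Ne.symm hrs), if_pos rfl]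
      · rw [if_neg (Ne.symm hru), if_neg (Ne.symm hsu), if_pos rfl]
      · rw [if_neg (Ne.symm hrx), if_neg (Ne.symm hsx), if_neg (Ne.symm hux)])]
  have hyr : ∀ i j k l, y4 r s u i j k l r = i := fun i j k l => by unfold y4; rw [if_pos rfl]
  have hys : ∀ i j k l, y4 r s u i j k l s = j := fun i j k l => by
    unfold y4; rw [if_neg (Ne.symm hrs), if_pos rfl]
  have hyu : ∀ i j k l, y4 r s u i j k l u = k := fun i j k l => by
    unfold y4; rw [if_neg (Ne.symm hru), if_neg (Ne.symm hsu), if_pos rfl]
  have hyx : ∀ i j k l, y4 r s u i j k l x = l := fun i j k l => by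
    unfold y4; rw [if_neg (Ne.symm hrx), if_neg (Ne.symm hsx), if_neg (Ne.symm hux)]
  have a1 : ∀ v i j k l, f j i k l v = - f i j k l v := by
    intro v i j k l
    have h1 := B.swap_ins h hST hSq (y4 r s u i j k l) v r s hr hs hrs
    rw [hdep, hf', Function.comp_apply, Function.comp_apply, Function.comp_apply,
      Function.comp_apply, Equiv.swap_apply_left, Equiv.swap_apply_right,
      Equiv.swap_apply_of_ne_of_ne (Ne.symm hru) (Ne.symm hsu),
      Equiv.swap_apply_of_ne_of_ne (Ne.symm hrx) (Ne.symm hsx), hyr, hys, hyu, hyx] at h1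
    exact h1
  have a2 : ∀ v i j k l, f i k j l v = - f i j k l v := by
    intro v i j k l
    have h1 := B.swap_ins h hST hSq (y4 r s u i j k l) v s u hs hu hsu
    rw [hdep, hf', Function.comp_apply, Function.comp_apply, Function.comp_apply,
      Function.comp_apply, Equiv.swap_apply_left, Equiv.swap_apply_right,
      Equiv.swap_apply_of_ne_of_ne hrs hru,
      Equiv.swap_apply_of_ne_of_ne (Ne.symm hsx) (Ne.symm hux), hyr, hys, hyu, hyx] at h1
    exact h1
  have a3 : ∀ v i j k l, f i j l k v = - f i j k l v := by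
    intro v i j k l
    have h1 := B.swap_ins h hST hSq (y4 r s u i j k l) v u x hu hx hux
    rw [hdep, hf', Function.comp_apply, Function.comp_apply, Function.comp_apply,
      Function.comp_apply, Equiv.swap_apply_left, Equiv.swap_apply_right,
      Equiv.swap_apply_of_ne_of_ne hru hrx,
      Equiv.swap_apply_of_ne_of_ne hsu hsx, hyr, hys, hyu, hyx] at h1
    exact h1
  have hall : ∀ i j k l v, f i j k l v = -(sq g4 i j k l : ℂ) * f 0 1 2 3 v := by
    intro i j k l v
    rw [← sub_eq_zero]
    refine sorted4 (fun i j k l => f i j k l v - -(sq g4 i j k l : ℂ) * f 0 1 2 3 v)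
      (fun i j k l => ?_) (fun i j k l => ?_) (fun i j k l => ?_) (fun i j k l hij hjk hkl => ?_)
      i j k l
    · rw [a1 v i j, sq_g4_a1]
      push_cast; ring
    · rw [a2 v i j, sq_g4_a2]
      push_cast; ring
    · rw [a3 v i j, sq_g4_a3]
      push_cast; ring
    · obtain ⟨rfl, rfl, rfl, rfl⟩ := fin4_sorted4 i j k l hij hjk hkl
      have h1 : sq g4 0 1 2 3 = -1 := by decide
      rw [h1]; push_cast; ring
  -- extension by linearity
  rw [← sub_eq_zero]
  refine ext_slots (fun v => Φ v - B.gg r s u x v * Φ (B.ins S (y4 r s u 0 1 2 3) v))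
    (fun _ => B.c4) S (fun t ht v w => ?_) (fun v hv => ?_) v
  · obtain ⟨a, ha⟩ := B.hc4 w
    refine ⟨a, ?_⟩
    have e1 : Φ (Function.update v t w) = ∑ j, a j * Φ (Function.update v t (B.c4 j)) := by
      have h1 := h.lab t (hST ht) (Function.update v t w)
      rw [Function.update_self, Function.update_idem, hSq t ht, ha,
        h.toSF0.sum _ t (hST ht)] at h1
      exact h1.symm
    have e2 : ∀ w', Φ (B.ins S (y4 r s u 0 1 2 3) (Function.update v t w')) =
        Φ (B.ins S (y4 r s u 0 1 2 3) v) := by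
      intro w'
      unfold Big.ins
      rw [piecewise_update' S _ v t ht]
    have k1 : ∀ z, B.ω w z = ∑ j, a j * B.ω (B.c4 j) z := by
      intro z
      rw [← B.ωE, ha, map_sum, LinearMap.sum_apply]
      refine Finset.sum_congr rfl fun j _ => ?_
      rw [map_smul, LinearMap.smul_apply, smul_eq_mul]
    have k2 : ∀ z, B.ω z w = ∑ j, a j * B.ω z (B.c4 j) := by
      intro z
      rw [← B.ωE', ha, map_sum]
      refine Finset.sum_congr rfl fun j _ => ?_
      rw [map_smul, smul_eq_mul]
    have e3 : B.gg r s u x (Function.update v t w) =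
        ∑ j, a j * B.gg r s u x (Function.update v t (B.c4 j)) := by
      unfold Big.gg
      rcases hmem t ht with rfl | rfl | rfl | rfl
      · simp only [Function.update_self, Function.update_of_ne (Ne.symm hrs),
          Function.update_of_ne (Ne.symm hru), Function.update_of_ne (Ne.symm hrx)]
        rw [k1, k1, k1]
        simp only [Finset.sum_mul, Finset.mul_sum, ← Finset.sum_sub_distrib,
          ← Finset.sum_add_distrib, ← Finset.sum_neg_distrib]
        exact Finset.sum_congr rfl fun _ _ => by ring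
      · simp only [Function.update_self, Function.update_of_ne hrs,
          Function.update_of_ne (Ne.symm hsu), Function.update_of_ne (Ne.symm hsx)]
        rw [k1, k1, k2]
        simp only [Finset.sum_mul, Finset.mul_sum, ← Finset.sum_sub_distrib,
          ← Finset.sum_add_distrib, ← Finset.sum_neg_distrib]
        exact Finset.sum_congr rfl fun _ _ => by ring
      · simp only [Function.update_self, Function.update_of_ne hru,
          Function.update_of_ne hsu, Function.update_of_ne (Ne.symm hux)]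
        rw [k1, k2, k2]
        simp only [Finset.sum_mul, Finset.mul_sum, ← Finset.sum_sub_distrib,
          ← Finset.sum_add_distrib, ← Finset.sum_neg_distrib]
        exact Finset.sum_congr rfl fun _ _ => by ring
      · simp only [Function.update_self, Function.update_of_ne hrx,
          Function.update_of_ne hsx, Function.update_of_ne hux]
        rw [k2, k2, k2]
        simp only [Finset.sum_mul, Finset.mul_sum, ← Finset.sum_sub_distrib,
          ← Finset.sum_add_distrib, ← Finset.sum_neg_distrib]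
        exact Finset.sum_congr rfl fun _ _ => by ring
    simp only [e2]
    rw [e1, e3, Finset.sum_mul, ← Finset.sum_sub_distrib]
    exact Finset.sum_congr rfl fun _ _ => by ring
  · have hj : ∀ t, ∃ j : Fin 4, t ∈ S → v t = B.c4 j := by
      intro t
      by_cases ht : t ∈ S
      · obtain ⟨j, hj⟩ := hv t ht
        exact ⟨j, fun _ => hj⟩
      · exact ⟨0, fun h => absurd h ht⟩
    choose y hy using hj
    have hins : v = B.ins S y v := by
      funext t
      unfold Big.ins
      by_cases ht : t ∈ S
      · rw [Finset.piecewise_eq_of_mem _ _ _ ht, hy t ht]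
      · rw [Finset.piecewise_eq_of_notMem _ _ _ ht]
    have h1 : Φ v = f (y r) (y s) (y u) (y x) v := by
      conv_lhs => rw [hins]
      rw [hdep]
    rw [h1, hall, hf']
    unfold Big.gg
    rw [hy r hr, hy s hs, hy u hu, hy x hx, B.ωc, B.ωc, B.ωc, B.ωc, B.ωc, B.ωc, sq]
    push_cast
    ring

end Pool.Agent.Helper8
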