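import Pool.Agent.Helper8.H.Two

/-!
Four slots with two labels with isomorphic spaces of dimension four.
-/

set_option linter.unusedSectionVars false

namespace Pool.Agent.Helper8

open Pool.Agent.Helper7 (PP)

/-- the square of the form on crossed slots -/
def cr (i j k l : Fin 4) : ℤ := g4 i k * g4 j l - g4 i l * g4 j k

/-- functions of four indices alternating in the first two and in the last two -/
lemma quad_all (f : Fin 4 → Fin 4 → Fin 4 → Fin 4 → ℂ) (a1 : ∀ i j k l, f j i k l = - f i j k l)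
    (a2 : ∀ i j k l, f i j l k = - f i j k l)
    (hw : ∀ i j k l, wt4 i + wt4 j + wt4 k + wt4 l ≠ 0 → f i j k l = 0)
    (hF : ∀ i j k l, (if i = 3 then 0 else f (i + 1) j k l) +
      (if j = 3 then 0 else f i (j + 1) k l) + (if k = 3 then 0 else f i j (k + 1) l) +
      (if l = 3 then 0 else f i j k (l + 1)) = 0) (i j k l : Fin 4) :
    f i j k l = ((cr i j k l : ℂ) - (g4 i j : ℂ) * (g4 k l : ℂ)) * f 0 1 2 3 +
      (g4 i j : ℂ) * (g4 k l : ℂ) * f 0 3 0 3 := by
  have e1 : (0 : Fin 4) + 1 = 1 := by decide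
  have e2 : (1 : Fin 4) + 1 = 2 := by decide
  have e3 : (2 : Fin 4) + 1 = 3 := by decide
  have z1 : ∀ i k l, f i i k l = 0 := by
    intro i k l
    have := a1 i i k l
    linear_combination (1 / 2 : ℂ) * this
  have z2 : ∀ i j k, f i j k k = 0 := by
    intro i j k
    have := a2 i j k k
    linear_combination (1 / 2 : ℂ) * this
  have n30 : ¬ ((0 : Fin 4) = 3) := by decide
  have n31 : ¬ ((1 : Fin 4) = 3) := by decide
  have n32 : ¬ ((2 : Fin 4) = 3) := by decide
  have k1 := hF 0 1 1 3
  have k2 := hF 0 2 0 3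
  have k3 := hF 0 2 1 2
  have k4 := hF 0 3 0 2
  have k5 := hF 1 2 0 2
  have k6 := hF 1 3 0 1
  simp only [if_neg n30, if_neg n31, if_neg n32, if_true, e1, e2, e3, z1, z2, add_zero,
    zero_add] at k1 k2 k3 k4 k5 k6
  have v1 : f 0 2 1 3 = - f 0 1 2 3 := by linear_combination k1
  have v2 : f 1 2 0 3 = f 0 1 2 3 - f 0 3 0 3 := by linear_combination k2 - k1
  have v3 : f 0 3 1 2 = f 0 1 2 3 - f 0 3 0 3 := by
    linear_combination (1 / 2 : ℂ) * (k3 + k4 - k5) - (1 / 2 : ℂ) * k1 + (1 / 2 : ℂ) * v2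
  have v4 : f 1 3 0 2 = - f 0 1 2 3 := by linear_combination k4 - v3
  have v5 : f 1 2 1 2 = f 0 3 0 3 := by linear_combination k3 - v3 - v1
  have v6 : f 2 3 0 1 = f 0 1 2 3 := by linear_combination k6 - v4
  -- sorted indices
  have hs : ∀ i j k l : Fin 4, i < j → k < l →
      f i j k l = ((cr i j k l : ℂ) - (g4 i j : ℂ) * (g4 k l : ℂ)) * f 0 1 2 3 +
      (g4 i j : ℂ) * (g4 k l : ℂ) * f 0 3 0 3 := by
    intro i j k l hij hkl
    by_cases hw0 : wt4 i + wt4 j + wt4 k + wt4 l = 0
    · have hcases : ∀ i j k l : Fin 4, i < j → k < l → wt4 i + wt4 j + wt4 k + wt4 l = 0 →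
          ((i, j, k, l) : Fin 4 × Fin 4 × Fin 4 × Fin 4) ∈
            ([(0, 1, 2, 3), (2, 3, 0, 1), (0, 2, 1, 3), (1, 3, 0, 2), (0, 3, 0, 3), (0, 3, 1, 2),
              (1, 2, 0, 3), (1, 2, 1, 2)] : List (Fin 4 × Fin 4 × Fin 4 × Fin 4)) := by decide
      have h1 := hcases i j k l hij hkl hw0
      simp only [List.mem_cons, Prod.mk.injEq, List.not_mem_nil, or_false] at h1
      have g01 : g4 0 1 = 0 := by decide
      have g02 : g4 0 2 = 0 := by decide
      have g03 : g4 0 3 = 1 := by decide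
      have g12 : g4 1 2 = -1 := by decide
      have g13 : g4 1 3 = 0 := by decide
      have g23 : g4 2 3 = 0 := by decide
      have c1 : cr 0 1 2 3 = 1 := by decide
      have c2 : cr 2 3 0 1 = 1 := by decide
      have c3 : cr 0 2 1 3 = -1 := by decide
      have c4 : cr 1 3 0 2 = -1 := by decide
      have c5 : cr 0 3 0 3 = 1 := by decide
      have c6 : cr 0 3 1 2 = 0 := by decide
      have c7 : cr 1 2 0 3 = 0 := by decide
      have c8 : cr 1 2 1 2 = 1 := by decide
      rcases h1 with ⟨rfl, rfl, rfl, rfl⟩ | ⟨rfl, rfl, rfl, rfl⟩ | ⟨rfl, rfl, rfl, rfl⟩ |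
        ⟨rfl, rfl, rfl, rfl⟩ | ⟨rfl, rfl, rfl, rfl⟩ | ⟨rfl, rfl, rfl, rfl⟩ |
        ⟨rfl, rfl, rfl, rfl⟩ | ⟨rfl, rfl, rfl, rfl⟩
      · rw [c1, g01]; push_cast; ring
      · rw [c2, g23, v6]; push_cast; ring
      · rw [c3, g02, v1]; push_cast; ring
      · rw [c4, g13, v4]; push_cast; ring
      · rw [c5, g03]; push_cast; ring
      · rw [c6, g03, g12, v3]; push_cast; ring
      · rw [c7, g03, g12, v2]; push_cast; ring
      · rw [c8, g12, v5]; push_cast; ring
    · rw [hw i j k l hw0]
      have hz : ∀ i j k l : Fin 4, wt4 i + wt4 j + wt4 k + wt4 l ≠ 0 →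
          cr i j k l = 0 ∧ g4 i j * g4 k l = 0 := by decide
      obtain ⟨h1, h2⟩ := hz i j k l hw0
      have h2' : (g4 i j : ℂ) * (g4 k l : ℂ) = 0 := by exact_mod_cast h2
      rw [h1, h2']; push_cast; ring
  have hc1 : ∀ i j k l, cr j i k l = - cr i j k l := by
    intro i j k l; unfold cr; ring
  have hc2 : ∀ i j k l, cr i j l k = - cr i j k l := by
    intro i j k l; unfold cr; ring
  -- sorted first pair
  have hs2 : ∀ i j k l : Fin 4, i < j →
      f i j k l = ((cr i j k l : ℂ) - (g4 i j : ℂ) * (g4 k l : ℂ)) * f 0 1 2 3 +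
      (g4 i j : ℂ) * (g4 k l : ℂ) * f 0 3 0 3 := by
    intro i j k l hij
    rcases lt_trichotomy k l with h | h | h
    · exact hs i j k l hij h
    · subst h
      have h1 : cr i j k k = 0 := by unfold cr; ring
      have h2 : ∀ k : Fin 4, g4 k k = 0 := by decide
      rw [z2, h1, h2]; push_cast; ring
    · rw [a2 i j l k, hs i j l k hij h, hc2 i j k l, g4_alt l k]
      push_cast; ring
  rcases lt_trichotomy i j with h | h | h
  · exact hs2 i j k l h
  · subst h
    have h1 : cr i i k l = 0 := by unfold cr; ring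
    have h2 : ∀ k : Fin 4, g4 k k = 0 := by decide
    rw [z1, h1, h2]; push_cast; ring
  · rw [a1 j i k l, hs2 j i k l h, hc1 i j k l, g4_alt j i]
    push_cast; ring

namespace Fam4

variable {R W A : Type*} [DecidableEq R] [AddCommGroup W] [Module ℂ W]
  {𝒢 : Set (Module.End ℂ W × ℂ)} {E : A → Module.End ℂ W} {q : R → A}
  {T : Finset R} {Φ : (R → W) → ℂ} {D : Finset A} (B : Fam4 𝒢 E D)

/-- the product of the pairings of the slots with equal labels -/
def g1 (q : R → A) (r s u x : R) (v : R → W) : ℂ :=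
  B.ω (q r) (q s) (v r) (v s) * B.ω (q u) (q x) (v u) (v x)

/-- the square of the crossed pairings -/
def g2 (q : R → A) (r s u x : R) (v : R → W) : ℂ :=
  B.ω (q r) (q u) (v r) (v u) * B.ω (q s) (q x) (v s) (v x) -
    B.ω (q r) (q x) (v r) (v x) * B.ω (q s) (q u) (v s) (v u)

lemma g1_mem (r s u x : R) (hrs : r ≠ s) (hru : r ≠ u) (hrx : r ≠ x) (hsu : s ≠ u)
    (hsx : s ≠ x) (hux : u ≠ x) (hr : q r ∈ D) (hs : q s ∈ D) (hu : q u ∈ D) (hx : q x ∈ D) :
    B.g1 q r s u x ∈ PS (invF 𝒢) {r, s, u, x} ∧ B.g2 q r s u x ∈ PS (invF 𝒢) {r, s, u, x} := by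
  have h2 : ∀ a c : R, a ≠ c → q a ∈ D → q c ∈ D →
      PP (invF 𝒢) {a, c} (fun v : R → W => B.ω (q a) (q c) (v a) (v c) * 1) := by
    intro a c hac ha hc
    exact PP.cons a c (B.ω (q a) (q c)) (B.hω _ ha _ hc) (PP.nil (R := R) (𝓑 := invF 𝒢))
      (by simp) (by simp) hac
  have key : ∀ a c d e : R, a ≠ c → a ≠ d → a ≠ e → c ≠ d → c ≠ e → d ≠ e →
      q a ∈ D → q c ∈ D → q d ∈ D → q e ∈ D →
      ({a, c} ∪ {d, e} : Finset R) = {r, s, u, x} →
      (fun v : R → W => B.ω (q a) (q c) (v a) (v c) * B.ω (q d) (q e) (v d) (v e)) ∈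
        PS (invF 𝒢) {r, s, u, x} := by
    intro a c d e hac had hae hcd hce hde ha hc hd he hS
    apply Submodule.subset_span
    have h3 := PP.mul (h2 a c hac ha hc) (h2 d e hde hd he) (by
      rw [Finset.disjoint_insert_left, Finset.disjoint_singleton_left]
      simp [had, hae, hcd, hce])
    rw [hS] at h3
    have h4 : (fun v : R → W => B.ω (q a) (q c) (v a) (v c) * 1 *
        (B.ω (q d) (q e) (v d) (v e) * 1)) =
        fun v => B.ω (q a) (q c) (v a) (v c) * B.ω (q d) (q e) (v d) (v e) := by funext v; ring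
    rw [h4] at h3
    exact h3
  refine ⟨key r s u x hrs hru hrx hsu hsx hux hr hs hu hx (by ext t; simp; tauto), ?_⟩
  have e1 : (B.g2 q r s u x : (R → W) → ℂ) =
      (fun v => B.ω (q r) (q u) (v r) (v u) * B.ω (q s) (q x) (v s) (v x)) -
      (fun v => B.ω (q r) (q x) (v r) (v x) * B.ω (q s) (q u) (v s) (v u)) := by
    funext v; rfl
  rw [e1]
  refine Submodule.sub_mem _ ?_ ?_
  · exact key r u s x hru hrs hrx (Ne.symm hsu) hux hsx hr hu hs hx (by ext t; simp; tauto)
  · exact key r x s u hrx hrs hru (Ne.symm hsx) (Ne.symm hux) hsu hr hx hs hu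
      (by ext t; simp; tauto)

variable (h : SF 𝒢 E q T Φ) {S : Finset R} (hST : S ⊆ T) (hSq : ∀ r ∈ S, q r ∈ D)
  (hSq' : ∀ r ∈ T, r ∉ S → q r ∉ D)

include B h hST hSq hSq' in
/-- four slots -/
lemma quad (r s u x : R) (hrs : r ≠ s) (hru : r ≠ u) (hrx : r ≠ x) (hsu : s ≠ u)
    (hsx : s ≠ x) (hux : u ≠ x) (hS : S = {r, s, u, x}) (hq1 : q r = q s) (hq2 : q u = q x)
    (v : R → W) :
    Φ v = (B.g2 q r s u x v - B.g1 q r s u x v) * Φ (B.ins q S (y4 r s u 0 1 2 3) v) +
      B.g1 q r s u x v * Φ (B.ins q S (y4 r s u 0 3 0 3) v) := by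
  have hr : r ∈ S := by rw [hS]; simp
  have hs : s ∈ S := by rw [hS]; simp
  have hu : u ∈ S := by rw [hS]; simp
  have hx : x ∈ S := by rw [hS]; simp
  have hmem : ∀ t ∈ S, t = r ∨ t = s ∨ t = u ∨ t = x := by
    intro t ht; rw [hS] at ht; simpa using ht
  have hsum : ∀ φ : R → ℂ, ∑ t ∈ S, φ t = φ r + φ s + φ u + φ x := by
    intro φ
    rw [hS, Finset.sum_insert (by simp [hrs, hru, hrx]), Finset.sum_insert (by simp [hsu, hsx]),
      Finset.sum_pair hux]
    ring
  have hsumZ : ∀ φ : R → ℤ, ∑ t ∈ S, φ t = φ r + φ s + φ u + φ x := by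
    intro φ
    rw [hS, Finset.sum_insert (by simp [hrs, hru, hrx]), Finset.sum_insert (by simp [hsu, hsx]),
      Finset.sum_pair hux]
    ring
  obtain ⟨f, hf⟩ : ∃ f : Fin 4 → Fin 4 → Fin 4 → Fin 4 → (R → W) → ℂ,
      f = fun i j k l v => Φ (B.ins q S (y4 r s u i j k l) v) := ⟨_, rfl⟩
  have hf' : ∀ i j k l v, Φ (B.ins q S (y4 r s u i j k l) v) = f i j k l v := by
    intro i j k l v; rw [hf]
  have hdep : ∀ y v, Φ (B.ins q S y v) = f (y r) (y s) (y u) (y x) v := by
    intro y v
    rw [← hf', B.ins_dep S y (y4 r s u (y r) (y s) (y u) (y x)) (fun t ht => by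
      unfold y4
      rcases hmem t ht with rfl | rfl | rfl | rfl
      · rw [if_pos rfl]
      · rw [if_neg (Ne.symm hrs), if_pos rfl]
      · rw [if_neg (Ne.symm hru), if_neg (Ne.symm hsu), if_pos rfl]
      · rw [if_neg (Ne.symm hrx), if_neg (Ne.symm hsx), if_neg (Ne.symm hux)])]
  have hyr : ∀ i j k l, y4 r s u i j k l r = i := fun i j k l => by unfold y4; rw [if_pos rfl]
  have hys : ∀ i j k l, y4 r s u i j k l s = j := fun i j k l => by
    unfold y4; rw [if_neg (Ne.symm hrs), if_pos rfl]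
  have hyu : ∀ i j k l, y4 r s u i j k l u = k := fun i j k l => by
    unfold y4; rw [if_neg (Ne.symm hru), if_neg (Ne.symm hsu), if_pos rfl]
  have hyx : ∀ i j k l, y4 r s u i j k l x = l := fun i j k l => by
    unfold y4; rw [if_neg (Ne.symm hrx), if_neg (Ne.symm hsx), if_neg (Ne.symm hux)]
  have a1 : ∀ v i j k l, f j i k l v = - f i j k l v := by
    intro v i j k l
    have h1 := B.swap_ins h hST hSq (y4 r s u i j k l) v r s hr hs hrs hq1
    rw [hdep, hf', Function.comp_apply, Function.comp_apply, Function.comp_apply,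
      Function.comp_apply, Equiv.swap_apply_left, Equiv.swap_apply_right,
      Equiv.swap_apply_of_ne_of_ne (Ne.symm hru) (Ne.symm hsu),
      Equiv.swap_apply_of_ne_of_ne (Ne.symm hrx) (Ne.symm hsx), hyr, hys, hyu, hyx] at h1
    exact h1
  have a3 : ∀ v i j k l, f i j l k v = - f i j k l v := by
    intro v i j k l
    have h1 := B.swap_ins h hST hSq (y4 r s u i j k l) v u x hu hx hux hq2
    rw [hdep, hf', Function.comp_apply, Function.comp_apply, Function.comp_apply,
      Function.comp_apply, Equiv.swap_apply_left, Equiv.swap_apply_right,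
      Equiv.swap_apply_of_ne_of_ne hru hrx,
      Equiv.swap_apply_of_ne_of_ne hsu hsx, hyr, hys, hyu, hyx] at h1
    exact h1
  have kw : ∀ v i j k l, wt4 i + wt4 j + wt4 k + wt4 l ≠ 0 → f i j k l v = 0 := by
    intro v i j k l hw
    rw [← hf']
    refine B.wt_zero h hST hSq hSq' _ ?_ v
    rw [hsumZ, hyr, hys, hyu, hyx]
    exact hw
  have kF : ∀ v i j k l, (if i = 3 then 0 else f (i + 1) j k l v) +
      (if j = 3 then 0 else f i (j + 1) k l v) + (if k = 3 then 0 else f i j (k + 1) l v) +
      (if l = 3 then 0 else f i j k (l + 1) v) = 0 := by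
    intro v i j k l
    have h2 := B.id_F h hST hSq hSq' (y4 r s u i j k l) v
    rw [hsum, hyr, hys, hyu, hyx, hdep, hdep, hdep, hdep] at h2
    simp only [Function.update_self, Function.update_of_ne hrs, Function.update_of_ne hru,
      Function.update_of_ne hrx, Function.update_of_ne hsu, Function.update_of_ne hsx,
      Function.update_of_ne hux, Function.update_of_ne (Ne.symm hrs),
      Function.update_of_ne (Ne.symm hru), Function.update_of_ne (Ne.symm hrx),
      Function.update_of_ne (Ne.symm hsu), Function.update_of_ne (Ne.symm hsx),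
      Function.update_of_ne (Ne.symm hux), hyr, hys, hyu, hyx] at h2
    exact h2
  have hall : ∀ v i j k l, f i j k l v =
      ((cr i j k l : ℂ) - (g4 i j : ℂ) * (g4 k l : ℂ)) * f 0 1 2 3 v +
      (g4 i j : ℂ) * (g4 k l : ℂ) * f 0 3 0 3 v := fun v =>
    quad_all (fun i j k l => f i j k l v) (a1 v) (a3 v) (kw v) (kF v)
  -- extension by linearity
  rw [← sub_eq_zero]
  refine ext_slots (fun v => Φ v - ((B.g2 q r s u x v - B.g1 q r s u x v) *
      Φ (B.ins q S (y4 r s u 0 1 2 3) v) +
      B.g1 q r s u x v * Φ (B.ins q S (y4 r s u 0 3 0 3) v)))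
    (fun t => B.c4 (q t)) S (fun t ht v w => ?_) (fun v hv => ?_) v
  · obtain ⟨a, ha⟩ := B.hc4 (q t) (hSq t ht) w
    refine ⟨a, ?_⟩
    have e1 : Φ (Function.update v t w) = ∑ j, a j * Φ (Function.update v t (B.c4 (q t) j)) := by
      have h1 := h.lab t (hST ht) (Function.update v t w)
      rw [Function.update_self, Function.update_idem, ha, h.toSF0.sum _ t (hST ht)] at h1
      exact h1.symm
    have e2 : ∀ y w', Φ (B.ins q S y (Function.update v t w')) = Φ (B.ins q S y v) := by
      intro y w'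
      unfold ins
      rw [piecewise_update' S _ v t ht]
    have k1 : ∀ t' ∈ S, ∀ z, B.ω (q t) (q t') w z =
        ∑ j, a j * B.ω (q t) (q t') (B.c4 (q t) j) z := by
      intro t' ht' z
      rw [← B.ωE _ (hSq t ht) _ (hSq t' ht'), ha, map_sum, LinearMap.sum_apply]
      refine Finset.sum_congr rfl fun j _ => ?_
      rw [map_smul, LinearMap.smul_apply, smul_eq_mul]
    have k2 : ∀ t' ∈ S, ∀ z, B.ω (q t') (q t) z w =
        ∑ j, a j * B.ω (q t') (q t) z (B.c4 (q t) j) := by
      intro t' ht' z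
      rw [← B.ωE' _ (hSq t' ht') _ (hSq t ht), ha, map_sum]
      refine Finset.sum_congr rfl fun j _ => ?_
      rw [map_smul, smul_eq_mul]
    have e3 : B.g1 q r s u x (Function.update v t w) =
        ∑ j, a j * B.g1 q r s u x (Function.update v t (B.c4 (q t) j)) := by
      unfold g1
      rcases hmem t ht with rfl | rfl | rfl | rfl
      · simp only [Function.update_self, Function.update_of_ne (Ne.symm hrs),
          Function.update_of_ne (Ne.symm hru), Function.update_of_ne (Ne.symm hrx)]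
        rw [k1 s hs, Finset.sum_mul]
        exact Finset.sum_congr rfl fun _ _ => by ring
      · simp only [Function.update_self, Function.update_of_ne hrs,
          Function.update_of_ne (Ne.symm hsu), Function.update_of_ne (Ne.symm hsx)]
        rw [k2 r hr, Finset.sum_mul]
        exact Finset.sum_congr rfl fun _ _ => by ring
      · simp only [Function.update_self, Function.update_of_ne hru,
          Function.update_of_ne hsu, Function.update_of_ne (Ne.symm hux)]
        rw [k1 x hx, Finset.mul_sum]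
        exact Finset.sum_congr rfl fun _ _ => by ring
      · simp only [Function.update_self, Function.update_of_ne hrx,
          Function.update_of_ne hsx, Function.update_of_ne hux]
        rw [k2 u hu, Finset.mul_sum]
        exact Finset.sum_congr rfl fun _ _ => by ring
    have e4 : B.g2 q r s u x (Function.update v t w) =
        ∑ j, a j * B.g2 q r s u x (Function.update v t (B.c4 (q t) j)) := by
      unfold g2
      rcases hmem t ht with rfl | rfl | rfl | rfl
      · simp only [Function.update_self, Function.update_of_ne (Ne.symm hrs),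
          Function.update_of_ne (Ne.symm hru), Function.update_of_ne (Ne.symm hrx)]
        rw [k1 u hu, k1 x hx, Finset.sum_mul, Finset.sum_mul, ← Finset.sum_sub_distrib]
        exact Finset.sum_congr rfl fun _ _ => by ring
      · simp only [Function.update_self, Function.update_of_ne hrs,
          Function.update_of_ne (Ne.symm hsu), Function.update_of_ne (Ne.symm hsx)]
        rw [k1 x hx, k1 u hu, Finset.mul_sum, Finset.mul_sum, ← Finset.sum_sub_distrib]
        exact Finset.sum_congr rfl fun _ _ => by ring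
      · simp only [Function.update_self, Function.update_of_ne hru,
          Function.update_of_ne hsu, Function.update_of_ne (Ne.symm hux)]
        rw [k2 r hr, k2 s hs, Finset.sum_mul, Finset.mul_sum, ← Finset.sum_sub_distrib]
        exact Finset.sum_congr rfl fun _ _ => by ring
      · simp only [Function.update_self, Function.update_of_ne hrx,
          Function.update_of_ne hsx, Function.update_of_ne hux]
        rw [k2 s hs, k2 r hr, Finset.mul_sum, Finset.sum_mul, ← Finset.sum_sub_distrib]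
        exact Finset.sum_congr rfl fun _ _ => by ring
    simp only [e2]
    rw [e1, e3, e4, ← Finset.sum_sub_distrib, Finset.sum_mul, Finset.sum_mul,
      ← Finset.sum_add_distrib, ← Finset.sum_sub_distrib]
    exact Finset.sum_congr rfl fun _ _ => by ring
  · have hj : ∀ t, ∃ j : Fin 4, t ∈ S → v t = B.c4 (q t) j := by
      intro t
      by_cases ht : t ∈ S
      · obtain ⟨j, hj⟩ := hv t ht
        exact ⟨j, fun _ => hj⟩
      · exact ⟨0, fun h => absurd h ht⟩
    choose y hy using hj
    have hins : v = B.ins q S y v := by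
      funext t
      unfold ins
      by_cases ht : t ∈ S
      · rw [Finset.piecewise_eq_of_mem _ _ _ ht, hy t ht]
      · rw [Finset.piecewise_eq_of_notMem _ _ _ ht]
    have h1 : Φ v = f (y r) (y s) (y u) (y x) v := by
      conv_lhs => rw [hins]
      rw [hdep]
    have hqr := hSq r hr
    have hqs := hSq s hs
    have hqu := hSq u hu
    have hqx := hSq x hx
    rw [h1, hall, hf', hf']
    unfold g1 g2
    rw [hy r hr, hy s hs, hy u hu, hy x hx, B.ωc _ hqr _ hqu, B.ωc _ hqs _ hqx,
      B.ωc _ hqr _ hqx, B.ωc _ hqs _ hqu, B.ωc _ hqr _ hqs, B.ωc _ hqu _ hqx, cr]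
    push_cast
    ring

end Fam4

end Pool.Agent.Helper8
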