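import Pool.Agent.Helper8.H.Contract

/-!
Labels with isomorphic spaces of dimension four, on which a triple acts as on the third symmetric
power, all other labels being trivial for the triple; total multiplicity at most two.
-/

set_option linter.unusedSectionVars false

namespace Pool.Agent.Helper8

open Pool.Agent.Helper7 (PP)

variable {R W A : Type*} [DecidableEq R] [AddCommGroup W] [Module ℂ W]

/-- data for a finite set of labels with isomorphic spaces of dimension four -/
structure Fam4 (𝒢 : Set (Module.End ℂ W × ℂ)) (E : A → Module.End ℂ W) (D : Finset A) where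
  c4 : A → Fin 4 → W
  hc4 : ∀ a ∈ D, ∀ w, ∃ x : Fin 4 → ℂ, E a w = ∑ j, x j • c4 a j
  ω : A → A → (W →ₗ[ℂ] W →ₗ[ℂ] ℂ)
  hω : ∀ a ∈ D, ∀ a' ∈ D, ω a a' ∈ invF 𝒢
  ωE : ∀ a ∈ D, ∀ a' ∈ D, ∀ u v, ω a a' (E a u) v = ω a a' u v
  ωalt : ∀ a ∈ D, ∀ a' ∈ D, ∀ u v, ω a a' u v = - ω a' a v u
  ωc : ∀ a ∈ D, ∀ a' ∈ D, ∀ i j, ω a a' (c4 a i) (c4 a' j) = (g4 i j : ℂ)
  H : Module.End ℂ W
  F : Module.End ℂ W
  hH : (H, (0 : ℂ)) ∈ 𝒢
  hF : (F, (0 : ℂ)) ∈ 𝒢
  H_c : ∀ a ∈ D, ∀ j, H (c4 a j) = (wt4 j : ℂ) • c4 a j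
  F_c : ∀ a ∈ D, ∀ j, F (c4 a j) = if j = 3 then 0 else c4 a (j + 1)
  h0 : ∀ a, a ∉ D → ∀ w, E a (H w) = 0
  h1 : ∀ a, a ∉ D → ∀ w, E a (F w) = 0

variable {𝒢 : Set (Module.End ℂ W × ℂ)} {E : A → Module.End ℂ W} {q : R → A}
  {T : Finset R} {Φ : (R → W) → ℂ} {D : Finset A}

/-- factorisation with two terms -/
lemma SF.factor_two (h : SF 𝒢 E q T Φ) (S : Finset R) (hS : S ⊆ T) (x1 x2 : R → W)
    (g1 g2 : (R → W) → ℂ) (hg1 : g1 ∈ PS (invF 𝒢) S) (hg2 : g2 ∈ PS (invF 𝒢) S)
    (h11 : ∀ v, g1 (S.piecewise x1 v) = 1) (h21 : ∀ v, g2 (S.piecewise x1 v) = 0)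
    (hΦ : ∀ v, Φ v = g1 v * Φ (S.piecewise x1 v) + g2 v * Φ (S.piecewise x2 v)) :
    SF 𝒢 E q (T \ S) (fun v => Φ (S.piecewise x1 v)) where
  dep := (h.toSF0.sub_slots S x1).dep
  add := (h.toSF0.sub_slots S x1).add
  smul := (h.toSF0.sub_slots S x1).smul
  lab := (h.toSF0.sub_slots S x1).lab
  alt := (h.toSF0.sub_slots S x1).alt
  inv X hX v := by
    have e1 := h.inv X hX (S.piecewise x1 v)
    have e2 := PS.inv hg1 X hX (S.piecewise x1 v)
    have e3 := PS.inv hg2 X hX (S.piecewise x1 v)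
    rw [h11] at e2
    rw [h21] at e3
    have hpw : ∀ x : R → W, S.piecewise x (S.piecewise x1 v) = S.piecewise x v := by
      intro x
      funext r
      by_cases hrS : r ∈ S
      · rw [Finset.piecewise_eq_of_mem _ _ _ hrS, Finset.piecewise_eq_of_mem _ _ _ hrS]
      · rw [Finset.piecewise_eq_of_notMem _ _ _ hrS, Finset.piecewise_eq_of_notMem _ _ _ hrS,
          Finset.piecewise_eq_of_notMem _ _ _ hrS]
    have hsplit : ∑ t ∈ T, Φ (Function.update (S.piecewise x1 v) t (X.1 (S.piecewise x1 v t))) =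
        ∑ t ∈ T \ S, Φ (S.piecewise x1 (Function.update v t (X.1 (v t)))) +
        ((∑ t ∈ S, g1 (Function.update (S.piecewise x1 v) t (X.1 (S.piecewise x1 v t)))) *
          Φ (S.piecewise x1 v) +
        (∑ t ∈ S, g2 (Function.update (S.piecewise x1 v) t (X.1 (S.piecewise x1 v t)))) *
          Φ (S.piecewise x2 v)) := by
      rw [← Finset.sum_sdiff hS]
      congr 1
      · refine Finset.sum_congr rfl fun t ht => ?_
        rw [Finset.mem_sdiff] at ht
        rw [piecewise_update S x1 v t ht.2, Finset.piecewise_eq_of_notMem _ _ _ ht.2]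
      · rw [Finset.sum_mul, Finset.sum_mul, ← Finset.sum_add_distrib]
        refine Finset.sum_congr rfl fun t ht => ?_
        rw [hΦ, piecewise_update' S x1 _ t ht, piecewise_update' S x2 _ t ht, hpw, hpw]
    rw [hsplit] at e1
    have hcard : ((T \ S).card : ℂ) = T.card - S.card := by
      rw [Finset.card_sdiff_of_subset hS, Nat.cast_sub (Finset.card_le_card hS)]
    rw [hcard]
    linear_combination e1 - (Φ (S.piecewise x1 v)) * e2 - (Φ (S.piecewise x2 v)) * e3

lemma wt4_odd (S : Finset R) (y : R → Fin 4) : Odd (∑ r ∈ S, wt4 (y r)) ↔ Odd S.card := by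
  have h1 : ∀ i : Fin 4, Odd (wt4 i) := by decide
  have key : ∀ (a b : ℤ) (m : ℕ), Odd a → (Odd b ↔ Odd m) → (Odd (a + b) ↔ Odd (m + 1)) := by
    intro a b m ha hb
    rw [Int.odd_add, Nat.odd_add_one, ← Int.not_odd_iff_even, hb]
    constructor
    · intro h3; exact h3.mp ha
    · intro h3; exact ⟨fun _ => h3, fun _ => ha⟩
  induction S using Finset.induction_on with
  | empty => simp
  | insert a S ha ih =>
    rw [Finset.sum_insert ha, Finset.card_insert_of_notMem ha]
    exact key _ _ _ (h1 _) ih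

namespace Fam4

variable (B : Fam4 𝒢 E D)

/-- the data of a single label -/
def lab (a : A) (ha : a ∈ D) : Lab4 𝒢 E a :=
  ⟨B.c4 a, B.hc4 a ha, B.ω a a, B.hω a ha a ha, B.ωE a ha a ha, B.ωalt a ha a ha, B.ωc a ha a ha⟩

lemma ωE' (a : A) (ha : a ∈ D) (a' : A) (ha' : a' ∈ D) (u v : W) :
    B.ω a a' u (E a' v) = B.ω a a' u v := by
  rw [B.ωalt a ha a' ha', B.ωE a' ha' a ha, ← B.ωalt a ha a' ha']

/-- substitution of basis vectors in the slots of a subset -/
def ins (q : R → A) (S : Finset R) (y : R → Fin 4) (v : R → W) : R → W :=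
  S.piecewise (fun r => B.c4 (q r) (y r)) v

lemma ins_dep (S : Finset R) (y y' : R → Fin 4) (h : ∀ r ∈ S, y r = y' r) (v : R → W) :
    B.ins q S y v = B.ins q S y' v := by
  funext r
  unfold ins
  by_cases hr : r ∈ S
  · rw [Finset.piecewise_eq_of_mem _ _ _ hr, Finset.piecewise_eq_of_mem _ _ _ hr, h r hr]
  · rw [Finset.piecewise_eq_of_notMem _ _ _ hr, Finset.piecewise_eq_of_notMem _ _ _ hr]

lemma ins_upd (S : Finset R) (y : R → Fin 4) (v : R → W) (r : R) (hr : r ∈ S) (j : Fin 4) :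
    Function.update (B.ins q S y v) r (B.c4 (q r) j) = B.ins q S (Function.update y r j) v := by
  funext t
  unfold ins
  by_cases ht : t = r
  · subst ht
    rw [Function.update_self, Finset.piecewise_eq_of_mem _ _ _ hr, Function.update_self]
  · rw [Function.update_of_ne ht]
    by_cases htS : t ∈ S
    · rw [Finset.piecewise_eq_of_mem _ _ _ htS, Finset.piecewise_eq_of_mem _ _ _ htS,
        Function.update_of_ne ht]
    · rw [Finset.piecewise_eq_of_notMem _ _ _ htS, Finset.piecewise_eq_of_notMem _ _ _ htS]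

lemma ins_swap (S : Finset R) (y : R → Fin 4) (v : R → W) (r s : R) (hr : r ∈ S)
    (hs : s ∈ S) (hq : q r = q s) :
    (B.ins q S y v) ∘ Equiv.swap r s = B.ins q S (y ∘ Equiv.swap r s) v := by
  funext t
  rw [Function.comp_apply]
  unfold ins
  by_cases ht : t = r
  · subst ht
    rw [Equiv.swap_apply_left, Finset.piecewise_eq_of_mem _ _ _ hs,
      Finset.piecewise_eq_of_mem _ _ _ hr, Function.comp_apply, Equiv.swap_apply_left, hq]
  · by_cases ht' : t = s
    · subst ht'
      rw [Equiv.swap_apply_right, Finset.piecewise_eq_of_mem _ _ _ hs,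
        Finset.piecewise_eq_of_mem _ _ _ hr, Function.comp_apply, Equiv.swap_apply_right, hq]
    · rw [Equiv.swap_apply_of_ne_of_ne ht ht']
      by_cases htS : t ∈ S
      · rw [Finset.piecewise_eq_of_mem _ _ _ htS, Finset.piecewise_eq_of_mem _ _ _ htS,
          Function.comp_apply, Equiv.swap_apply_of_ne_of_ne ht ht']
      · rw [Finset.piecewise_eq_of_notMem _ _ _ htS, Finset.piecewise_eq_of_notMem _ _ _ htS]

variable (h : SF 𝒢 E q T Φ) {S : Finset R} (hST : S ⊆ T) (hSq : ∀ r ∈ S, q r ∈ D)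
  (hSq' : ∀ r ∈ T, r ∉ S → q r ∉ D)
include B h hST hSq

lemma swap_ins (y : R → Fin 4) (v : R → W) (r s : R) (hr : r ∈ S) (hs : s ∈ S)
    (hne : r ≠ s) (hq : q r = q s) :
    Φ (B.ins q S (y ∘ Equiv.swap r s) v) = - Φ (B.ins q S y v) := by
  rw [← B.ins_swap S y v r s hr hs hq]
  exact h.alt r (hST hr) s (hST hs) hne hq _

lemma zero_of (h0 : ∀ (y : R → Fin 4) v, Φ (B.ins q S y v) = 0) (v : R → W) : Φ v = 0 := by
  refine h.toSF0.ext_on (fun t => B.c4 (q t)) S hST (fun t ht w => B.hc4 _ (hSq t ht) w)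
    (fun v hv => ?_) v
  have hj : ∀ t, ∃ j : Fin 4, t ∈ S → v t = B.c4 (q t) j := by
    intro t
    by_cases ht : t ∈ S
    · obtain ⟨j, hj⟩ := hv t ht
      exact ⟨j, fun _ => hj⟩
    · exact ⟨0, fun h => absurd h ht⟩
  choose y hy using hj
  rw [← h0 y v]
  congr 1
  funext t
  unfold ins
  by_cases ht : t ∈ S
  · rw [Finset.piecewise_eq_of_mem _ _ _ ht, hy t ht]
  · rw [Finset.piecewise_eq_of_notMem _ _ _ ht]

include hSq'

lemma wt_zero (y : R → Fin 4) (hy : ∑ r ∈ S, wt4 (y r) ≠ 0) (v : R → W) :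
    Φ (B.ins q S y v) = 0 := by
  have e1 := h.inv _ B.hH (B.ins q S y v)
  rw [mul_zero, zero_mul] at e1
  have e2 : ∑ t ∈ T, Φ (Function.update (B.ins q S y v) t (B.H (B.ins q S y v t))) = 0 :=
    (mul_eq_zero.mp e1).resolve_left two_ne_zero
  rw [← Finset.sum_sdiff hST] at e2
  have e3 : ∑ t ∈ T \ S, Φ (Function.update (B.ins q S y v) t (B.H (B.ins q S y v t))) = 0 := by
    refine Finset.sum_eq_zero fun t ht => ?_
    rw [Finset.mem_sdiff] at ht
    have e5 := h.lab t ht.1 (Function.update (B.ins q S y v) t (B.H (B.ins q S y v t)))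
    rw [Function.update_self, Function.update_idem, B.h0 _ (hSq' t ht.1 ht.2)] at e5
    rw [← e5]
    exact h.toSF0.zero _ t ht.1 (Function.update_self _ _ _)
  have e4 : ∑ t ∈ S, Φ (Function.update (B.ins q S y v) t (B.H (B.ins q S y v t))) =
      ((∑ r ∈ S, wt4 (y r) : ℤ) : ℂ) * Φ (B.ins q S y v) := by
    push_cast
    rw [Finset.sum_mul]
    refine Finset.sum_congr rfl fun t ht => ?_
    have e5 : B.ins q S y v t = B.c4 (q t) (y t) := Finset.piecewise_eq_of_mem _ _ _ ht
    rw [e5, B.H_c _ (hSq t ht), h.smul _ t (hST ht), ← e5, Function.update_eq_self]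
  rw [e3, e4, zero_add] at e2
  exact (mul_eq_zero.mp e2).resolve_left (by exact_mod_cast hy)

lemma id_F (y : R → Fin 4) (v : R → W) :
    ∑ r ∈ S, (if y r = 3 then 0 else Φ (B.ins q S (Function.update y r (y r + 1)) v)) = 0 := by
  have e1 := h.inv _ B.hF (B.ins q S y v)
  rw [mul_zero, zero_mul] at e1
  have e2 : ∑ t ∈ T, Φ (Function.update (B.ins q S y v) t (B.F (B.ins q S y v t))) = 0 :=
    (mul_eq_zero.mp e1).resolve_left two_ne_zero
  rw [← Finset.sum_sdiff hST] at e2
  have e3 : ∑ t ∈ T \ S, Φ (Function.update (B.ins q S y v) t (B.F (B.ins q S y v t))) = 0 := by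
    refine Finset.sum_eq_zero fun t ht => ?_
    rw [Finset.mem_sdiff] at ht
    have e5 := h.lab t ht.1 (Function.update (B.ins q S y v) t (B.F (B.ins q S y v t)))
    rw [Function.update_self, Function.update_idem, B.h1 _ (hSq' t ht.1 ht.2)] at e5
    rw [← e5]
    exact h.toSF0.zero _ t ht.1 (Function.update_self _ _ _)
  have e4 : ∑ t ∈ S, Φ (Function.update (B.ins q S y v) t (B.F (B.ins q S y v t))) =
      ∑ r ∈ S, (if y r = 3 then 0 else Φ (B.ins q S (Function.update y r (y r + 1)) v)) := by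
    refine Finset.sum_congr rfl fun t ht => ?_
    have e5 : B.ins q S y v t = B.c4 (q t) (y t) := Finset.piecewise_eq_of_mem _ _ _ ht
    rw [e5, B.F_c _ (hSq t ht)]
    split_ifs with h6
    · exact h.toSF0.zero _ t (hST ht) (Function.update_self _ _ _)
    · rw [B.ins_upd S y v t ht]
  rw [e3, e4, zero_add] at e2
  exact e2

/-- an odd number of slots -/
lemma odd_zero (hodd : Odd S.card) (v : R → W) : Φ v = 0 := by
  refine B.zero_of h hST hSq (fun y v => B.wt_zero h hST hSq hSq' y (fun h0 => ?_) v) v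
  have h1 := (wt4_odd S y).mpr hodd
  rw [h0] at h1
  exact absurd h1 (by decide)

/-- two slots -/
lemma pair (r s : R) (hrs : r ≠ s) (hS : S = {r, s}) (v : R → W) :
    Φ v = B.ω (q r) (q s) (v r) (v s) * Φ (B.ins q S (y2 r 0 3) v) := by
  have hr : r ∈ S := by rw [hS]; simp
  have hs : s ∈ S := by rw [hS]; simp
  have hqr := hSq r hr
  have hqs := hSq s hs
  have hmem : ∀ t ∈ S, t = r ∨ t = s := by
    intro t ht; rw [hS] at ht; simpa using ht
  have hsum : ∀ φ : R → ℂ, ∑ t ∈ S, φ t = φ r + φ s := by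
    intro φ
    rw [hS, Finset.sum_pair hrs]
  have hsumZ : ∀ φ : R → ℤ, ∑ t ∈ S, φ t = φ r + φ s := by
    intro φ
    rw [hS, Finset.sum_pair hrs]
  obtain ⟨f, hf⟩ : ∃ f : Fin 4 → Fin 4 → (R → W) → ℂ,
      f = fun i j v => Φ (B.ins q S (y2 r i j) v) := ⟨_, rfl⟩
  have hf' : ∀ i j v, Φ (B.ins q S (y2 r i j) v) = f i j v := by intro i j v; rw [hf]
  have hdep : ∀ y v, Φ (B.ins q S y v) = f (y r) (y s) v := by
    intro y v
    rw [← hf', B.ins_dep S y (y2 r (y r) (y s)) (fun t ht => by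
      unfold y2
      rcases hmem t ht with rfl | rfl
      · rw [if_pos rfl]
      · rw [if_neg (Ne.symm hrs)])]
  have hyr : ∀ i j, y2 r i j r = i := fun i j => by unfold y2; rw [if_pos rfl]
  have hys : ∀ i j, y2 r i j s = j := fun i j => by unfold y2; rw [if_neg (Ne.symm hrs)]
  have kw : ∀ i j v, wt4 i + wt4 j ≠ 0 → f i j v = 0 := by
    intro i j v hw
    rw [← hf']
    refine B.wt_zero h hST hSq hSq' _ ?_ v
    rw [hsumZ, hyr, hys]
    exact hw
  have kF : ∀ i j v, (if i = 3 then 0 else f (i + 1) j v) + (if j = 3 then 0 else f i (j + 1) v)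
      = 0 := by
    intro i j v
    have h2 := B.id_F h hST hSq hSq' (y2 r i j) v
    rw [hsum, hyr, hys, hdep, hdep] at h2
    simp only [Function.update_self, Function.update_of_ne hrs,
      Function.update_of_ne (Ne.symm hrs), hyr, hys] at h2
    exact h2
  have e1 : (0 : Fin 4) + 1 = 1 := by decide
  have e2 : (1 : Fin 4) + 1 = 2 := by decide
  have e3 : (2 : Fin 4) + 1 = 3 := by decide
  have k12 : ∀ v, f 1 2 v = - f 0 3 v := by
    intro v
    have h1 := kF 0 2 v
    rw [if_neg (by decide), if_neg (by decide), e1, e3] at h1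
    linear_combination h1
  have k21 : ∀ v, f 2 1 v = f 0 3 v := by
    intro v
    have h1 := kF 1 1 v
    rw [if_neg (by decide), if_neg (by decide), e2, k12] at h1
    linear_combination h1
  have k30 : ∀ v, f 3 0 v = - f 0 3 v := by
    intro v
    have h1 := kF 2 0 v
    rw [if_neg (by decide), if_neg (by decide), e3, e1, k21] at h1
    linear_combination h1
  have hall : ∀ i j v, f i j v = (g4 i j : ℂ) * f 0 3 v := by
    intro i j v
    by_cases hw : wt4 i + wt4 j = 0
    · have hcases : ∀ i j : Fin 4, wt4 i + wt4 j = 0 → (i = 0 ∧ j = 3) ∨ (i = 1 ∧ j = 2) ∨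
          (i = 2 ∧ j = 1) ∨ (i = 3 ∧ j = 0) := by decide
      have g03 : g4 0 3 = 1 := by decide
      have g12 : g4 1 2 = -1 := by decide
      have g21 : g4 2 1 = 1 := by decide
      have g30 : g4 3 0 = -1 := by decide
      rcases hcases i j hw with ⟨rfl, rfl⟩ | ⟨rfl, rfl⟩ | ⟨rfl, rfl⟩ | ⟨rfl, rfl⟩
      · rw [g03]; push_cast; ring
      · rw [k12, g12]; push_cast; ring
      · rw [k21, g21]; push_cast; ring
      · rw [k30, g30]; push_cast; ring
    · have hg : ∀ i j : Fin 4, wt4 i + wt4 j ≠ 0 → g4 i j = 0 := by decide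
      rw [kw i j v hw, hg i j hw]
      push_cast; ring
  -- extension by linearity
  rw [← sub_eq_zero]
  refine ext_slots (fun v => Φ v - B.ω (q r) (q s) (v r) (v s) * Φ (B.ins q S (y2 r 0 3) v))
    (fun t => B.c4 (q t)) S (fun t ht v w => ?_) (fun v hv => ?_) v
  · obtain ⟨a, ha⟩ := B.hc4 (q t) (hSq t ht) w
    refine ⟨a, ?_⟩
    have f1 : Φ (Function.update v t w) = ∑ j, a j * Φ (Function.update v t (B.c4 (q t) j)) := by
      have h1 := h.lab t (hST ht) (Function.update v t w)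
      rw [Function.update_self, Function.update_idem, ha, h.toSF0.sum _ t (hST ht)] at h1
      exact h1.symm
    have f2 : ∀ w', Φ (B.ins q S (y2 r 0 3) (Function.update v t w')) =
        Φ (B.ins q S (y2 r 0 3) v) := by
      intro w'
      unfold ins
      rw [piecewise_update' S _ v t ht]
    simp only [f2]
    rw [f1]
    rcases hmem t ht with rfl | rfl
    · simp only [Function.update_self, Function.update_of_ne (Ne.symm hrs)]
      rw [← B.ωE _ hqr _ hqs w, ha, map_sum, LinearMap.sum_apply, Finset.sum_mul,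
        ← Finset.sum_sub_distrib]
      refine Finset.sum_congr rfl fun j _ => ?_
      rw [map_smul, LinearMap.smul_apply, smul_eq_mul]; ring
    · simp only [Function.update_self, Function.update_of_ne hrs]
      rw [← B.ωE' _ hqr _ hqs _ w, ha, map_sum, Finset.sum_mul, ← Finset.sum_sub_distrib]
      refine Finset.sum_congr rfl fun j _ => ?_
      rw [map_smul, smul_eq_mul]; ring
  · have hj : ∀ t, ∃ j : Fin 4, t ∈ S → v t = B.c4 (q t) j := by
      intro t
      by_cases ht : t ∈ S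
      · obtain ⟨j, hj⟩ := hv t ht
        exact ⟨j, fun _ => hj⟩
      · exact ⟨0, fun h => absurd h ht⟩
    choose y hy using hj
    have hins : v = B.ins q S y v := by
      funext t
      unfold ins
      by_cases ht : t ∈ S
      · rw [Finset.piecewise_eq_of_mem _ _ _ ht, hy t ht]
      · rw [Finset.piecewise_eq_of_notMem _ _ _ ht]
    have h1 : Φ v = f (y r) (y s) v := by
      conv_lhs => rw [hins]
      rw [hdep]
    rw [h1, hall, hf', hy r hr, hy s hs, B.ωc _ hqr _ hqs]
    ring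

end Fam4

end Pool.Agent.Helper8
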