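import Pool.Agent.Helper8.H.Slot

/-!
Slot functions which are eigenvectors of an operator with small weights.
-/

set_option linter.unusedSectionVars false

namespace Pool.Agent.Helper8

variable {R W A : Type*} [DecidableEq R] [AddCommGroup W] [Module ℂ W]
  {E : A → Module.End ℂ W} {q : R → A} {T : Finset R} {Φ : (R → W) → ℂ}

/-- vanishing on spanning vectors -/
lemma SF0.ext_on (h : SF0 E q T Φ) {m : ℕ} (c : R → Fin m → W) (S : Finset R) (hS : S ⊆ T)
    (hc : ∀ t ∈ S, ∀ w, ∃ x : Fin m → ℂ, E (q t) w = ∑ j, x j • c t j)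
    (h0 : ∀ v, (∀ t ∈ S, ∃ j, v t = c t j) → Φ v = 0) : ∀ v, Φ v = 0 := by
  induction S using Finset.induction_on with
  | empty => exact fun v => h0 v fun t ht => absurd ht (Finset.notMem_empty t)
  | insert a S ha ih =>
    refine ih (fun t ht => hS (Finset.mem_insert_of_mem ht))
      (fun t ht => hc t (Finset.mem_insert_of_mem ht)) fun v hv => ?_
    have haT : a ∈ T := hS (Finset.mem_insert_self _ _)
    obtain ⟨x, hx⟩ := hc a (Finset.mem_insert_self _ _) (v a)
    rw [← h.lab a haT v, hx, h.sum v a haT]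
    refine Finset.sum_eq_zero fun j _ => ?_
    rw [h0, mul_zero]
    intro t ht
    by_cases hta : t = a
    · subst hta
      exact ⟨j, by rw [Function.update_self]⟩
    · obtain ⟨j', hj'⟩ := hv t ((Finset.mem_insert.mp ht).resolve_left hta)
      exact ⟨j', by rw [Function.update_of_ne hta, hj']⟩

/-- signs -/
def sg (j : Fin 2) : ℤ := if j = 0 then 1 else -1

lemma sum_sg_le (S : Finset (Fin 2)) : |∑ j ∈ S, sg j| ≤ 1 := by
  revert S; decide

/-- An eigenfunction of an operator acting trivially in the slots with labels outside of `A1`, and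
with weights `1, -1` in the others, has integral eigenvalue of absolute value at most the
number of elements of `A1`. -/
theorem SF0.weight_le (h : SF0 E q T Φ) [DecidableEq A] (A1 : Finset A) (H : Module.End ℂ W)
    (c : A → Fin 2 → W)
    (hc : ∀ a ∈ A1, ∀ w, ∃ x : Fin 2 → ℂ, E a w = ∑ j, x j • c a j)
    (hH : ∀ a ∈ A1, ∀ j, H (c a j) = (sg j : ℂ) • c a j)
    (h0 : ∀ t ∈ T, q t ∉ A1 → ∀ w, E (q t) (H w) = 0)
    (μ : ℂ) (hμ : ∀ v, ∑ t ∈ T, Φ (Function.update v t (H (v t))) = μ * Φ v)
    (hbig : ∀ m : ℤ, |m| ≤ A1.card → (m : ℂ) ≠ μ) : ∀ v, Φ v = 0 := by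
  classical
  obtain ⟨S, hS⟩ : ∃ S, S = T.filter (fun t => q t ∈ A1) := ⟨_, rfl⟩
  refine h.ext_on (fun t => c (q t)) S (by rw [hS]; exact Finset.filter_subset _ _) ?_ ?_
  · intro t ht w
    rw [hS, Finset.mem_filter] at ht
    exact hc _ ht.2 w
  intro v hv
  by_contra hne
  have hj : ∀ t, ∃ j : Fin 2, t ∈ S → v t = c (q t) j := by
    intro t
    by_cases ht : t ∈ S
    · obtain ⟨j, hj⟩ := hv t ht
      exact ⟨j, fun _ => hj⟩
    · exact ⟨0, fun h => absurd h ht⟩
  choose j hj using hj
  -- the eigenvalue is the sum of the signs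
  have h1 : ∑ t ∈ T, Φ (Function.update v t (H (v t))) = ((∑ t ∈ S, sg (j t) : ℤ) : ℂ) * Φ v := by
    push_cast
    rw [Finset.sum_mul, hS, Finset.sum_filter]
    refine Finset.sum_congr rfl fun t ht => ?_
    split_ifs with hq
    · have htS : t ∈ S := by rw [hS, Finset.mem_filter]; exact ⟨ht, hq⟩
      have h2 : H (v t) = (sg (j t) : ℂ) • v t := by
        rw [hj t htS, hH _ hq]
      rw [h2, h.smul v t ht, Function.update_eq_self]
    · have h2 := h.lab t ht (Function.update v t (H (v t)))
      rw [Function.update_self, h0 t ht hq, Function.update_idem] at h2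
      rw [← h2]
      exact h.zero _ t ht (Function.update_self _ _ _)
  rw [hμ] at h1
  have h2 : μ = ((∑ t ∈ S, sg (j t) : ℤ) : ℂ) := mul_right_cancel₀ hne h1
  refine hbig _ ?_ h2.symm
  -- bound
  have h3 : ∑ t ∈ S, sg (j t) = ∑ a ∈ A1, ∑ t ∈ S.filter (fun t => q t = a), sg (j t) := by
    rw [Finset.sum_fiberwise_of_maps_to]
    intro t ht
    rw [hS, Finset.mem_filter] at ht
    exact ht.2
  rw [h3]
  refine (Finset.abs_sum_le_sum_abs _ _).trans ?_
  have h4 : ∀ a ∈ A1, |∑ t ∈ S.filter (fun t => q t = a), sg (j t)| ≤ 1 := by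
    intro a _
    have hinj : Set.InjOn j (S.filter (fun t => q t = a)) := by
      intro t ht s hs hts
      by_contra hne'
      rw [Finset.mem_coe, Finset.mem_filter] at ht hs
      have htT : t ∈ T := by
        have := ht.1
        rw [hS, Finset.mem_filter] at this
        exact this.1
      have hsT : s ∈ T := by
        have := hs.1
        rw [hS, Finset.mem_filter] at this
        exact this.1
      apply hne
      refine h.eq_zero_of_eq v t s htT hsT hne' (by rw [ht.2, hs.2]) ?_
      rw [hj t ht.1, hj s hs.1, ht.2, hs.2, hts]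
    rw [← Finset.sum_image (f := sg) hinj]
    exact sum_sg_le _
  refine (Finset.sum_le_sum h4).trans ?_
  rw [Finset.sum_const, nsmul_eq_mul, mul_one]

end Pool.Agent.Helper8
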